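import Pool.Agent.Lib.MP_c86c76_al.Tg.St

/-!
The loops of the last point are conjugate to local braids.
-/

set_option autoImplicit false

namespace Pool.Agent.MW

open Pool.Agent.MB Pool.Agent.MG Pool.Agent.MA Pool.Agent.MT
open FreeGroup hiding map_mul map_inv map_one

theorem lcb_bl {m : ℕ} {F : Type} [FunLike F (FN m) (FN m)] [MonoidHomClass F (FN m) (FN m)] (f : F)
    (u : FN m) (s t : ℕ) {k l : ℕ} (hkl : k ≤ l)
    (h : ∀ p, k ≤ p → p < l → f (io m (p + s)) = u * io m (p + t) * u⁻¹) :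
    f (bl m (k + s) (l + s)) = u * bl m (k + t) (l + t) * u⁻¹ := by
  induction l, hkl using Nat.le_induction with
  | base => simp [bl_self]
  | succ l hl ih =>
    rw [Nat.add_right_comm l 1 s, Nat.add_right_comm l 1 t, bl_succ m (by omega),
      bl_succ m (by omega), map_mul, ih fun p a b => h p a (by omega), h l hl (by omega)]
    group

theorem lcb_split (m : ℕ) {i k l : ℕ} (h : i ≤ k) (hkl : k ≤ l) :
    bl m i l = bl m i k * bl m k l := by
  induction l, hkl using Nat.le_induction with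
  | base => simp [bl_self]
  | succ l hl ih => rw [bl_succ m hl, bl_succ m (h.trans hl), ih, mul_assoc]

theorem lcb_mem (m : ℕ) {i j k l : ℕ} (h : i ≤ k) (hkl : k ≤ l) (h' : l ≤ j) :
    bl m k l ∈ EA m i j := by
  induction l, hkl using Nat.le_induction with
  | base => rw [bl_self]; exact one_mem _
  | succ l hl ih =>
    rw [bl_succ m hl]
    exact mul_mem (ih (by omega)) (Subgroup.subset_closure (Or.inr ⟨l, by omega, h', rfl⟩))

theorem lcb_eta {N k : ℕ} (hk : k ≤ N) : ∃ η : BL (N + 1),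
    (∀ p, p < k → η.1 (io _ p) = io _ p) ∧
    η.1 (io _ k) = bl _ k N * io _ N * (bl _ k N)⁻¹ ∧
    ∀ p, k ≤ p → p < N → η.1 (io _ (p + 1)) = io _ p := by
  let f : FN (N + 1) →* FN (N + 1) := lift fun j => if (j : ℕ) < k then io _ j else
    if (j : ℕ) = k then bl _ k N * io _ N * (bl _ k N)⁻¹ else io _ (j - 1)
  let g : FN (N + 1) →* FN (N + 1) := lift fun j => if (j : ℕ) < k then io _ j else
    if (j : ℕ) < N then io _ (j + 1) else (bl _ (k + 1) (N + 1))⁻¹ * io _ k * bl _ (k + 1) (N + 1)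
  have e : ∀ (G : Fin (N + 1) → FN (N + 1)) p (h : p < N + 1), lift G (io _ p) = G ⟨p, h⟩ :=
    fun G p h => by rw [io, dif_pos h, lift_apply_of]
  have f1 : ∀ p, p < k → f (io _ p) = io _ p := fun p h => (e _ p (by omega)).trans (if_pos h)
  have f2 : f (io _ k) = bl _ k N * io _ N * (bl _ k N)⁻¹ :=
    (e _ k (by omega)).trans ((if_neg (lt_irrefl _)).trans (if_pos rfl))
  have f3 : ∀ p, k ≤ p → p < N → f (io _ (p + 1)) = io _ p := fun p h h' =>
    (e _ _ (by omega)).trans ((if_neg (by simp; omega)).trans (if_neg (by simp; omega)))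
  have g1 : ∀ p, p < k → g (io _ p) = io _ p := fun p h => (e _ p (by omega)).trans (if_pos h)
  have g2 : g (io _ N) = (bl _ (k + 1) (N + 1))⁻¹ * io _ k * bl _ (k + 1) (N + 1) :=
    (e _ N (by omega)).trans ((if_neg hk.not_gt).trans (if_neg (lt_irrefl _)))
  have g3 : ∀ p, k ≤ p → p < N → g (io _ p) = io _ (p + 1) := fun p h h' =>
    (e _ _ (by omega)).trans ((if_neg h.not_gt).trans (if_pos h'))
  have f4 : f (bl _ (k + 1) (N + 1)) = bl _ k N := by
    simpa using lcb_bl f 1 1 0 hk fun p a b => by simpa using f3 p a b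
  have g4 : g (bl _ k N) = bl _ (k + 1) (N + 1) := by
    simpa using lcb_bl g 1 0 1 hk fun p a b => by simpa using g3 p a b
  have c : ∀ p, p < N + 1 → p < k ∨ p = k ∨ ∃ q, k ≤ q ∧ q < N ∧ p = q + 1 := fun p h => by
    rcases lt_trichotomy p k with a | a | a
    exacts [.inl a, .inr (.inl a), .inr (.inr ⟨p - 1, by omega, by omega, by omega⟩)]
  have o : ∀ j : Fin (N + 1), of j = io _ j := fun j => (dif_pos j.2 : io _ j = of j).symm
  let π : Fin (N + 1) → Fin (N + 1) := fun j =>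
    ⟨if (j : ℕ) < k then j else if (j : ℕ) = k then N else j - 1, by split_ifs <;> omega⟩
  refine ⟨⟨MonoidHom.toMulEquiv f g (FreeGroup.ext_hom _ _ fun j => ?_)
    (FreeGroup.ext_hom _ _ fun j => ?_), ?_, .ofBijective π (Finite.injective_iff_bijective.1
      fun i j h => Fin.ext ?_), fun j => ?_⟩, f1, f2, f3⟩
  · rw [o, MonoidHom.comp_apply, MonoidHom.id_apply]
    rcases c j j.2 with a | a | ⟨q, a, b, d⟩
    · rw [f1 _ a, g1 _ a]
    · rw [a, f2, map_mul, map_mul, map_inv, g2, g4]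
      group
    · rw [d, f3 q a b, g3 q a b]
  · rw [o, MonoidHom.comp_apply, MonoidHom.id_apply]
    rcases lt_or_ge (j : ℕ) k with a | a
    · rw [g1 _ a, f1 _ a]
    rcases (Nat.le_of_lt_succ j.2).lt_or_eq with b | b
    · rw [g3 _ a b, f3 _ a b]
    · rw [b, g2, map_mul, map_mul, map_inv, f2, f4]
      group
  · change f _ = _
    have := lcb_bl f 1 0 0 k.zero_le fun p _ b => by simpa using f1 p b
    simp only [add_zero, one_mul, inv_one, mul_one] at this
    conv_lhs => rw [lcb_split _ (k + 1).zero_le (Nat.succ_le_succ hk), bl_succ _ k.zero_le]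
    rw [map_mul, map_mul, this, f2, f4, bl_succ _ N.zero_le, lcb_split _ k.zero_le hk]
    group
  · have := congrArg Fin.val h
    simp only [π] at this
    split_ifs at this <;> omega
  · change IsConj (of (π j)) (f (of j))
    rw [o, o j]
    rcases c j j.2 with a | a | ⟨q, a, b, d⟩
    · rw [f1 _ a, show (π j : ℕ) = j from if_pos a]
    · rw [show (π j : ℕ) = N from (if_neg a.not_lt).trans (if_pos a), a, f2]
      exact isConj_iff.2 ⟨_, rfl⟩
    · rw [show (π j : ℕ) = j - 1 from (if_neg (by omega)).trans (if_neg (by omega)), d, f3 q a b,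
        Nat.add_sub_cancel]

theorem lcb_M {N l : ℕ} (hl : l ≤ N) :
    (MM N l).1 (bl _ l N * io _ N * (bl _ l N)⁻¹) = io _ N := by
  have h := MM_isM hl
  have := lcb_bl (MM N l).1 (io _ N)⁻¹ 0 0 hl fun p a b => by simpa using h.2.1 p a b
  simp only [add_zero] at this
  rw [map_mul, map_mul, map_inv, this, h.2.2]
  group

theorem lcb_loc {m k l : ℕ} (hl : k ≤ l) {E : BL m} {u : FN m}
    (hu : u = bl m 0 k * io m k * (bl m 0 k)⁻¹)
    (h1 : ∀ p, p ≤ l → p ≠ k → E.1 (io m p) = u * io m p * u⁻¹)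
    (h2 : E.1 (io m k) = u * bl m (k + 1) (l + 1) * u * (u * bl m (k + 1) (l + 1))⁻¹)
    (h3 : ∀ p, l < p → E.1 (io m p) = io m p) : E ∈ Loc m k (l + 1) := by
  have hX : bl m 0 k ∈ EA m k (l + 1) := Subgroup.subset_closure (Or.inl rfl)
  have hy : io m k ∈ EA m k (l + 1) :=
    Subgroup.subset_closure (Or.inr ⟨k, le_rfl, by omega, rfl⟩)
  have hV : bl m (k + 1) (l + 1) ∈ EA m k (l + 1) := lcb_mem m (by omega) (by omega) le_rfl
  have hU : u ∈ EA m k (l + 1) := hu ▸ mul_mem (mul_mem hX hy) (inv_mem hX)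
  have eX : E.1 (bl m 0 k) = u * bl m 0 k * u⁻¹ :=
    lcb_bl E.1 u 0 0 k.zero_le fun p _ b => h1 p (by omega) b.ne
  have eV : E.1 (bl m (k + 1) (l + 1)) = u * bl m (k + 1) (l + 1) * u⁻¹ :=
    lcb_bl E.1 u 1 1 hl fun p a b => h1 _ b (by omega)
  obtain ⟨a, ha⟩ : ∃ a, a = (bl m (k + 1) (l + 1))⁻¹ * (io m k)⁻¹ * bl m (k + 1) (l + 1) := ⟨_, rfl⟩
  have hA : a ∈ EA m k (l + 1) := ha ▸ mul_mem (mul_mem (inv_mem hV) (inv_mem hy)) hV
  have eA : E.1 a = u⁻¹ := by
    rw [ha, map_mul, map_mul, map_inv, map_inv, eV, h2]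
    group
  have i0 : ∀ x y, E.1 y = x → E.1⁻¹ x = y := fun x y h => by rw [← h, MulAut.inv_apply_self]
  have i1 : ∀ p, p ≤ l → p ≠ k → E.1⁻¹ (io m p) = a * io m p * a⁻¹ := fun p b c => i0 _ _ (by
    rw [map_mul, map_mul, map_inv, eA, h1 p b c]
    group)
  refine ⟨⟨u, hU, fun p b => h1 p (by omega) b.ne, fun p b c => ?_, h3⟩, a, hA,
    fun p b => i1 p (by omega) b.ne, fun p b c => ?_, fun p b => i0 _ _ (h3 p b)⟩
  · by_cases d : p = k
    · refine ⟨p, _, b, c, mul_mem (mul_mem hU hV) hX, ?_⟩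
      rw [d, h2]
      conv_lhs => rw [hu]
      conv_rhs => rw [hu]
      group
    · exact ⟨p, u, b, c, hU, h1 p (by omega) d⟩
  · by_cases d : p = k
    · refine ⟨p, _, b, c, mul_mem (mul_mem hA (inv_mem hX)) (inv_mem hV), i0 _ _ ?_⟩
      simp only [d, map_mul, map_inv, eA, eX, eV, h2]
      rw [hu]
      group
    · exact ⟨p, a, b, c, hA, i1 p (by omega) d⟩

theorem lcbSt : LcbSt := by
  intro N k hk
  obtain ⟨η, f1, f2, f3⟩ := lcb_eta hk
  obtain ⟨w, hw⟩ : ∃ w, w = bl (N + 1) 0 N * io _ N * (bl _ 0 N)⁻¹ := ⟨_, rfl⟩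
  obtain ⟨u, hu⟩ : ∃ u, u = bl (N + 1) 0 k * io _ k * (bl _ 0 k)⁻¹ := ⟨_, rfl⟩
  have eu : η.1 u = w := by
    have := lcb_bl η.1 1 0 0 k.zero_le fun p _ b => by simpa using f1 p b
    simp only [add_zero, one_mul, inv_one, mul_one] at this
    rw [hu, map_mul, map_mul, map_inv, this, f2, hw, lcb_split _ k.zero_le hk]
    group
  have ew : (MM N 0).1 w = io _ N := hw ▸ lcb_M N.zero_le
  have key : ∀ l, k ≤ l → l ≤ N → ∀ E : BL (N + 1), E = η⁻¹ * ((MM N 0)⁻¹ * MM N l) * η →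
      (∀ p, p ≤ l → p ≠ k → E.1 (io _ p) = u * io _ p * u⁻¹) ∧
      E.1 (io _ k) = u * bl _ (k + 1) (l + 1) * u * (u * bl _ (k + 1) (l + 1))⁻¹ ∧
      ∀ p, l < p → E.1 (io _ p) = io _ p := fun l h1 h2 E hE => by
    have a : ∀ x y, (MM N l).1 (η.1 x) = (MM N 0).1 (η.1 y) → E.1 x = y := fun x y h => by
      simp only [hE, Subgroup.coe_mul, Subgroup.coe_inv, MulAut.mul_apply, h,
        MulAut.inv_apply_self]
    have b : ∀ p, p < l → (MM N l).1 (io _ p) = (MM N 0).1 (w * io _ p * w⁻¹) := fun p h => by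
      rw [map_mul, map_mul, map_inv, ew, (MM_isM h2).1 p h,
        (MM_isM N.zero_le).2.1 p p.zero_le (by omega)]
      group
    refine ⟨fun p c d => a _ _ ?_, a _ _ ?_, fun p c => ?_⟩
    · rw [map_mul η.1, map_mul η.1, map_inv, eu]
      rcases d.lt_or_gt with d | d
      · rw [f1 p d, b p (by omega)]
      · obtain ⟨q, rfl⟩ : ∃ q, p = q + 1 := ⟨p - 1, by omega⟩
        rw [f3 q (by omega) (by omega), b q c]
    · have c1 := lcb_bl η.1 1 1 0 h1 fun p c d => by simpa using f3 p c (by omega)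
      have c2 := lcb_bl (MM N l).1 1 0 0 h1 fun p _ d => by simpa using (MM_isM h2).1 p d
      have c3 := lcb_bl (MM N 0).1 (io _ N)⁻¹ 0 0 h1 fun p _ d => by
        simpa using (MM_isM N.zero_le).2.1 p p.zero_le (by omega)
      simp only [add_zero, one_mul, inv_one, mul_one] at c1 c2 c3
      rw [f2, lcb_split _ h1 h2, show bl _ k l * bl _ l N * io _ N * (bl _ k l * bl _ l N)⁻¹ =
        bl _ k l * (bl _ l N * io (N + 1) N * (bl _ l N)⁻¹) * (bl _ k l)⁻¹ by group, map_mul,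
        map_mul, lcb_M h2]
      simp only [map_mul, map_inv, eu, ew, c1, c2, c3]
      group
    · rcases lt_or_ge N p with d | d
      · rw [io, dif_neg (by omega), map_one]
      · obtain ⟨q, rfl⟩ : ∃ q, p = q + 1 := ⟨p - 1, by omega⟩
        refine a _ _ ?_
        rw [f3 q (by omega) d, (MM_isM h2).2.1 q (by omega) d,
          (MM_isM N.zero_le).2.1 q q.zero_le d]
  refine ⟨η, fun l h1 h2 => ?_, ?_⟩
  · obtain ⟨a, b, c⟩ := key l h1 h2 _ rfl
    exact lcb_loc h1 hu a b c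
  · obtain ⟨a, b, c⟩ := key k le_rfl hk _ rfl
    refine ⟨fun p h => hu ▸ a p h.le h.ne, ?_, c⟩
    rw [b, bl_self, ← hu]
    group

end Pool.Agent.MW
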