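import Pool.Agent.Lib.MP_c86c76_al.Tg.St

/-!
Edges of the wreath product and universal systems.
-/

set_option autoImplicit false

namespace Pool.Agent.MW

open Pool.Agent.MB Pool.Agent.MG Pool.Agent.MA Pool.Agent.MT
open FreeGroup hiding map_mul map_inv map_one

section EdSec

variable {G : Type} [Group G]

theorem ed_three : ∀ s c : Fin 3, s = c ∨ s = c + 1 ∨ s = c + 2 := by decide

theorem ed_ne : ∀ c : Fin 3, c ≠ c + 1 ∧ c ≠ c + 2 ∧ c + 2 ≠ c + 1 := by decide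

theorem ed_tau : ∀ c : Fin 3, tau c c = c ∧ tau c (c + 1) = c + 2 ∧ tau c (c + 2) = c + 1 := by
  decide

theorem ed_conjp : ∀ (σ : Equiv.Perm (Fin 3)) (c : Fin 3), σ * tau c = tau (σ c) * σ := by decide

theorem ed_side : ∀ (σ : Equiv.Perm (Fin 3)) (c : Fin 3),
    (σ (c + 1) = σ c + 1 ∧ σ (c + 2) = σ c + 2) ∨ (σ (c + 1) = σ c + 2 ∧ σ (c + 2) = σ c + 1) := by
  decide

theorem ed_p (c : Fin 3) (g : G) : (Ed c g).p = tau c := rfl

theorem ed_l0 (c : Fin 3) (g : G) : (Ed c g).l c = 1 := by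
  simp only [Ed, if_neg (ed_ne c).1, if_neg (ed_ne c).2.1]

theorem ed_l1 (c : Fin 3) (g : G) : (Ed c g).l (c + 1) = g := by
  simp only [Ed, if_true]

theorem ed_l2 (c : Fin 3) (g : G) : (Ed c g).l (c + 2) = g⁻¹ := by
  simp only [Ed, if_neg (ed_ne c).2.2, if_true]

theorem ed_conj (w : Wr G) (c : Fin 3) (g : G) : w * Ed c g * w⁻¹ =
    Ed (w.p c) (if w.p (c + 1) = w.p c + 1 then w.l (c + 2) * g * (w.l (c + 1))⁻¹
      else w.l (c + 1) * g⁻¹ * (w.l (c + 2))⁻¹) := by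
  rw [mul_inv_eq_iff_eq_mul]
  refine Wr.ext (ed_conjp w.p c) (funext fun s => ?_)
  obtain ⟨t0, t1, t2⟩ := ed_tau c
  rw [Wr.mul_l, Wr.mul_l, ed_p]
  rcases ed_side w.p c with ⟨a, b⟩ | ⟨a, b⟩
  · rw [if_pos a]
    rcases ed_three s c with e | e | e
    · rw [e, t0, ed_l0, ed_l0, mul_one, one_mul]
    · rw [e, t1, ed_l1, a, ed_l1]; group
    · rw [e, t2, ed_l2, b, ed_l2]; group
  · rw [if_neg (by rw [a]; exact (ed_ne _).2.2)]
    rcases ed_three s c with e | e | e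
    · rw [e, t0, ed_l0, ed_l0, mul_one, one_mul]
    · rw [e, t1, ed_l1, a, ed_l2]; group
    · rw [e, t2, ed_l2, b, ed_l1]; group

theorem ed_sq : ∀ c : Fin 3, tau c * tau c = 1 := by decide

theorem ed_inv (c : Fin 3) (g : G) : (Ed c g)⁻¹ = Ed c g := by
  rw [inv_eq_iff_mul_eq_one]
  refine Wr.ext (ed_sq c) (funext fun s => ?_)
  obtain ⟨t0, t1, t2⟩ := ed_tau c
  rw [Wr.mul_l, ed_p, Wr.one_l]
  rcases ed_three s c with e | e | e
  · rw [e, t0, ed_l0, mul_one]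
  · rw [e, t1, ed_l1, ed_l2, inv_mul_cancel]
  · rw [e, t2, ed_l1, ed_l2, mul_inv_cancel]

theorem ed_six : ∀ c c' : Fin 3, (tau c = tau c' → c = c') ∧
    tau c * tau c' * (tau c)⁻¹ = tau (-c - c') ∧
    ∀ σ : Equiv.Perm (Fin 3), σ * tau c * σ⁻¹ = tau c → σ = 1 ∨ σ = tau c := by decide

theorem ed_inj {c c' : Fin 3} {g g' : G} (h : Ed c g = Ed c' g') : c = c' ∧ g = g' := by
  have e : c = c' := (ed_six c c').1 (congrArg Wr.p h)
  subst e
  exact ⟨rfl, by rw [← ed_l1 c g, h, ed_l1]⟩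

theorem ed_map {G' : Type} [Group G'] (f : G →* G') (c : Fin 3) (g : G) :
    Wr.map f (Ed c g) = Ed c (f g) := by
  refine Wr.ext rfl (funext fun s => ?_)
  rw [Wr.map_l]
  rcases ed_three s c with e | e | e
  · rw [e, ed_l0, ed_l0, map_one]
  · rw [e, ed_l1, ed_l1]
  · rw [e, ed_l2, ed_l2, map_inv]

theorem ed_prod (L : List G) : (L.map (Ed 0)).prod =
    if L.length % 2 = 1 then ⟨tau 0, ![1, alt true L, alt false L]⟩
    else ⟨1, ![1, alt false L, alt true L]⟩ := by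
  have l0 : ∀ x : G, (Ed 0 x).l 0 = 1 := ed_l0 0
  have l1 : ∀ x : G, (Ed 0 x).l 1 = x := ed_l1 0
  have l2 : ∀ x : G, (Ed 0 x).l 2 = x⁻¹ := ed_l2 0
  have t0 : tau 0 0 = 0 := by decide
  have t1 : tau 0 1 = 2 := by decide
  have t2 : tau 0 2 = 1 := by decide
  induction L with
  | nil =>
    refine Wr.ext rfl (funext fun s => ?_)
    fin_cases s <;> rfl
  | cons x t ih =>
    rw [List.map_cons, List.prod_cons, ih, List.length_cons]
    by_cases h : t.length % 2 = 1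
    · rw [if_pos h, if_neg (by omega)]
      refine Wr.ext (ed_sq 0) (funext fun s => ?_)
      fin_cases s <;> simp [l0, l1, l2, t0, t1, t2, alt]
    · rw [if_neg h, if_pos (by omega)]
      refine Wr.ext (mul_one _) (funext fun s => ?_)
      fin_cases s <;> simp [l0, l1, l2, alt]

variable {m : ℕ}

theorem ed_sys {ρ : FN m →* Wr G} (h : Sys ρ) (β : BL m) : Sys (ρ.comp β.1.toMonoidHom) := by
  intro j hj
  obtain ⟨π, hπ⟩ := β.2.2
  obtain ⟨u, hu⟩ := isConj_iff.1 (hπ ⟨j, hj⟩)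
  obtain ⟨c, g, e⟩ := h (π ⟨j, hj⟩) (π ⟨j, hj⟩).2
  rw [io, dif_pos (π ⟨j, hj⟩).2] at e
  have e1 : (ρ.comp β.1.toMonoidHom) (io m j) = ρ u * Ed c g * (ρ u)⁻¹ := by
    rw [io, dif_pos hj, ← e, ← map_inv, ← map_mul, ← map_mul, hu]
    rfl
  exact ⟨_, _, e1.trans (ed_conj _ _ _)⟩

theorem ed_uniq {r : G} {ρ : FN m →* Wr G} (h : XX r ρ) (f f' : G →* G)
    (e : ∀ x, Wr.map f (ρ x) = Wr.map f' (ρ x)) : f = f' := by
  obtain ⟨h1, h2, -, h4⟩ := h
  have s : Sys ((Wr.map f).comp ρ) := fun j hj => by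
    obtain ⟨c, g, a⟩ := h1 j hj
    exact ⟨c, f g, by rw [MonoidHom.comp_apply, a, ed_map]⟩
  have n : Nm (((Wr.map f).comp ρ) (bl m 0 m)) :=
    ⟨h2.1, by rw [MonoidHom.comp_apply, Wr.map_l, h2.2.1, map_one],
      by rw [MonoidHom.comp_apply, Wr.map_l, h2.2.2, map_one]⟩
  exact (h4 _ s (MonoidHom.ext fun _ => rfl) n).unique (fun _ => rfl) e

theorem ed_mapmap (f f' : G →* G) (x : Wr G) :
    Wr.map (f.comp f') x = Wr.map f (Wr.map f' x) := rfl

theorem ed_mapid (x : Wr G) : Wr.map (MonoidHom.id G) x = x := rfl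

end EdSec

theorem edSt : EdSt := fun _ _ =>
  ⟨ed_conj, ed_inv, fun _ _ _ _ => ed_inj, fun _ _ => ed_map, ed_prod, ed_six⟩

theorem xSt (_hE : EdSt) : XSt := by
  intro G _ m r ρ h
  refine ⟨fun β => ?_, fun ρ' h' e => ?_, ed_uniq h⟩
  · have b : (ρ.comp β.1.toMonoidHom) (bl m 0 m) = ρ (bl m 0 m) := congrArg ρ β.2.1
    refine ⟨ed_sys h.1 β, b ▸ h.2.1, b ▸ h.2.2.1, fun ρ' s e n => ?_⟩
    have b' : (ρ'.comp (β⁻¹).1.toMonoidHom) (bl m 0 m) = ρ' (bl m 0 m) := congrArg ρ' (β⁻¹).2.1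
    have e' : pp (ρ'.comp (β⁻¹).1.toMonoidHom) = pp ρ := MonoidHom.ext fun x => by
      have := DFunLike.congr_fun e (β.1.symm x)
      change (ρ' (β.1.symm x)).p = (ρ (β.1 (β.1.symm x))).p at this
      rw [MulEquiv.apply_symm_apply] at this
      exact this
    obtain ⟨f, f1, f2⟩ := h.2.2.2 _ (ed_sys s β⁻¹) e' (b'.symm ▸ n)
    refine ⟨f, fun x => ?_, fun f' a => f2 f' fun x => ?_⟩
    · have := f1 (β.1 x)
      change ρ' (β.1.symm (β.1 x)) = _ at this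
      rw [MulEquiv.symm_apply_apply] at this
      exact this
    · have := a (β.1.symm x)
      change _ = Wr.map f' (ρ (β.1 (β.1.symm x))) at this
      rw [MulEquiv.apply_symm_apply] at this
      exact this
  · obtain ⟨f, f1, -⟩ := h.2.2.2 ρ' h'.1 e h'.2.1
    obtain ⟨f', f2, -⟩ := h'.2.2.2 ρ h.1 e.symm h.2.1
    have a : f'.comp f = MonoidHom.id G :=
      ed_uniq h _ _ fun x => by rw [ed_mapmap, ← f1, ← f2, ed_mapid]
    have b : f.comp f' = MonoidHom.id G :=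
      ed_uniq h' _ _ fun x => by rw [ed_mapmap, ← f2, ← f1, ed_mapid]
    refine ⟨MonoidHom.toMulEquiv f f' a b, ?_, f1⟩
    have c := congrArg (fun w => Wr.l w 2) (f1 (bl m 0 m))
    simp only [Wr.map_l] at c
    rw [h'.2.2.1, h.2.2.1] at c
    exact c.symm

end Pool.Agent.MW
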