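import Pool.Agent.Lib.MP_c86c76_al.Tg.St
import Pool.Agent.Lib.MP_c86c76_al.G.All

/-!
The group of the surface with two boundary circles acts on the group of the window.
-/

set_option autoImplicit false

namespace Pool.Agent.MW

open Pool.Agent.MB Pool.Agent.MG Pool.Agent.MA Pool.Agent.MT
open FreeGroup hiding map_mul map_inv map_one

variable {h : ℕ}

theorem Gam_in_low {j : ℕ} (hj : j < 2 * h) : inG h (io _ j) = io _ j := by
  rw [io, dif_pos (by omega : j < 2 * h + 1), inG, lift_apply_of, if_pos hj]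

theorem Gam_in_top : inG h (io _ (2 * h)) =
    io _ (2 * h + 1) * (io _ (2 * h))⁻¹ * (io _ (2 * h + 1))⁻¹ := by
  rw [io, dif_pos (by omega : 2 * h < 2 * h + 1), inG, lift_apply_of, if_neg (lt_irrefl _)]

theorem Gam_re_low {j : ℕ} (hj : j < 2 * h) : reG h (io _ j) = io _ j := by
  rw [io, dif_pos (by omega : j < 2 * (h + 1)), reG, lift_apply_of, if_pos hj]

theorem Gam_re_a : reG h (io _ (2 * h)) = (io _ (2 * h))⁻¹ := by
  rw [io, dif_pos (by omega : 2 * h < 2 * (h + 1)), reG, lift_apply_of, if_neg (lt_irrefl _),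
    if_pos rfl]

theorem Gam_re_b : reG h (io _ (2 * h + 1)) = 1 := by
  rw [io, dif_pos (by omega : 2 * h + 1 < 2 * (h + 1)), reG, lift_apply_of,
    if_neg (by simp), if_neg (by simp)]

theorem Gam_ext0 {G : Type} [Group G] {f f' : FN (2 * h + 1) →* G}
    (h1 : ∀ j, j < 2 * h → f (io _ j) = f' (io _ j))
    (h2 : f (io _ (2 * h)) = f' (io _ (2 * h))) : f = f' := by
  refine ext_hom _ _ fun y => ?_
  have e : io _ y = of y := dif_pos y.2
  rw [← e]
  by_cases hy : (y : ℕ) < 2 * h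
  · exact h1 _ hy
  · rw [show (y : ℕ) = 2 * h by have := y.2; omega, h2]

theorem Gam_ext1 {G : Type} [Group G] {f f' : FN (2 * (h + 1)) →* G}
    (h1 : ∀ x, f (inG h x) = f' (inG h x)) (h2 : f (io _ (2 * h)) = f' (io _ (2 * h)))
    (h3 : f (io _ (2 * h + 1)) = f' (io _ (2 * h + 1))) : f = f' := by
  refine ext_hom _ _ fun y => ?_
  have e : io _ y = of y := dif_pos y.2
  rw [← e]
  by_cases hy : (y : ℕ) < 2 * h
  · rw [← Gam_in_low hy, h1]
  by_cases hy' : (y : ℕ) = 2 * h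
  · rw [hy', h2]
  · rw [show (y : ℕ) = 2 * h + 1 by have := y.2; omega, h3]

theorem Gam_re_in (x : FN (2 * h + 1)) : reG h (inG h x) = x := by
  have : (reG h).comp (inG h) = MonoidHom.id _ := by
    refine Gam_ext0 (fun j hj => ?_) ?_
    · rw [MonoidHom.comp_apply, Gam_in_low hj, Gam_re_low hj, MonoidHom.id_apply]
    · rw [MonoidHom.comp_apply, Gam_in_top, map_mul, map_mul, map_inv, map_inv, Gam_re_a, Gam_re_b,
        MonoidHom.id_apply]
      group
  exact DFunLike.congr_fun this x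

theorem Gam_in_ev {k : ℕ} (hk : k ≤ h) : inG h (ev _ (rW k)) = ev _ (rW k) := by
  induction k with
  | zero => rw [rW, ev, ev, Raw_nil, Raw_nil, map_one]
  | succ k ih =>
    simp only [Lick_rW, map_mul, map_inv]
    rw [ih (by omega), Gam_in_low (by omega), Gam_in_low (by omega)]

theorem Gam_bd : ev (2 * (h + 1)) (rW (h + 1)) =
    io _ (2 * h) * inG h (io _ (2 * h) * ev (2 * h + 1) (rW h)) := by
  rw [Lick_rW, map_mul, Gam_in_top, Gam_in_ev le_rfl]
  group

/-- The fixed elements in the group of the window. -/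
def Gam_D (h : ℕ) (φ : MulAut (FN (2 * (h + 1)))) (s : FN (2 * (h + 1))) : Prop :=
  s ∈ (inG h).range ∧ φ s = s

/-- The shape of a twist. -/
def Gam_T (h : ℕ) (φ : MulAut (FN (2 * (h + 1)))) : Prop :=
  (∀ j, j < 2 * h → ∃ s t, Gam_D h φ s ∧ Gam_D h φ t ∧ φ (io _ j) = s * io _ j * t) ∧
    φ (io _ (2 * h)) = io _ (2 * h) ∧
    ∃ s, Gam_D h φ s ∧ φ (io _ (2 * h + 1)) = s * io _ (2 * h + 1)

/-- The group of the window is preserved. -/
def Gam_P (h : ℕ) (φ : MulAut (FN (2 * (h + 1)))) : Prop :=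
  (∀ x, φ (inG h x) ∈ (inG h).range) ∧
    φ (io _ (2 * h + 1)) * (io _ (2 * h + 1))⁻¹ ∈ (inG h).range

theorem Gam_D_one (φ : MulAut (FN (2 * (h + 1)))) : Gam_D h φ 1 := ⟨one_mem _, map_one _⟩

theorem Gam_D_inv {φ : MulAut (FN (2 * (h + 1)))} {s : FN (2 * (h + 1))} (k : Gam_D h φ s) :
    Gam_D h φ s⁻¹ := ⟨inv_mem k.1, by rw [map_inv, k.2]⟩

theorem Gam_D_symm {φ : MulAut (FN (2 * (h + 1)))} {s : FN (2 * (h + 1))} (k : Gam_D h φ s) :
    Gam_D h φ⁻¹ s := ⟨k.1, φ.symm_apply_eq.2 k.2.symm⟩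

theorem Gam_T_inv {φ : MulAut (FN (2 * (h + 1)))} (k : Gam_T h φ) : Gam_T h φ⁻¹ := by
  obtain ⟨k1, k2, s, k3, k4⟩ := k
  refine ⟨fun j hj => ?_, φ.symm_apply_eq.2 k2.symm, s⁻¹, Gam_D_symm (Gam_D_inv k3),
    φ.symm_apply_eq.2 ?_⟩
  · obtain ⟨s, t, a, b, e⟩ := k1 j hj
    refine ⟨s⁻¹, t⁻¹, Gam_D_symm (Gam_D_inv a), Gam_D_symm (Gam_D_inv b), φ.symm_apply_eq.2 ?_⟩
    rw [map_mul, map_mul, map_inv, map_inv, a.2, b.2, e]
    group
  · rw [map_mul, map_inv, k3.2, k4]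
    group

theorem Gam_mem_low {j : ℕ} (hj : j < 2 * h) : io _ j ∈ (inG h).range := ⟨_, Gam_in_low hj⟩

theorem Gam_mem_top : io _ (2 * h + 1) * (io _ (2 * h))⁻¹ * (io _ (2 * h + 1))⁻¹ ∈
    (inG h).range := ⟨_, Gam_in_top⟩

theorem Gam_T_P {φ : MulAut (FN (2 * (h + 1)))} (k : Gam_T h φ) : Gam_P h φ := by
  obtain ⟨k1, k2, s, k3, k4⟩ := k
  refine ⟨fun x => ?_, by rw [k4, mul_inv_cancel_right]; exact k3.1⟩
  induction x using FreeGroup.induction_on with
  | C1 => rw [map_one, map_one]; exact one_mem _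
  | of y =>
    have e : io _ y = of y := dif_pos y.2
    rw [← e]
    by_cases hy : (y : ℕ) < 2 * h
    · obtain ⟨s, t, a, b, e⟩ := k1 y hy
      rw [Gam_in_low hy, e]
      exact mul_mem (mul_mem a.1 (Gam_mem_low hy)) b.1
    · rw [show (y : ℕ) = 2 * h by have := y.2; omega, Gam_in_top, map_mul, map_mul, map_inv,
        map_inv, k2, k4]
      convert mul_mem (mul_mem k3.1 Gam_mem_top) (inv_mem k3.1) using 1
      group
  | inv_of y ih => rw [map_inv, map_inv]; exact inv_mem ih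
  | mul x y a b => rw [map_mul, map_mul]; exact mul_mem a b

theorem Gam_lick {φ : MulAut (FN (2 * (h + 1)))} (k : φ ∈ LickA (2 * (h + 1))) : Gam_T h φ := by
  obtain ⟨⟨i, k⟩, ka⟩ := k
  rw [show 2 * (h + 1) - 2 = 2 * h by omega] at ka
  have o := Gam_D_one φ
  rcases k with ⟨hi, k | k⟩ | ⟨hi, k⟩
  · refine ⟨fun j hj => ?_, ka, ?_⟩
    · by_cases e : j = 2 * i + 1
      · exact ⟨1, _, o, ⟨Gam_mem_low (by omega), k.2 (2 * i) (by omega)⟩, by rw [e, k.1, one_mul]⟩
      · exact ⟨1, 1, o, o, by rw [k.2 j e, one_mul, mul_one]⟩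
    · by_cases e : i = h
      · subst e
        refine ⟨_, Gam_D_inv ⟨Gam_mem_top, ?_⟩, ?_⟩
        · rw [map_mul, map_mul, map_inv, map_inv, ka, k.1]
          group
        · rw [k.1]
          group
      · exact ⟨1, o, by rw [k.2 _ (by omega), one_mul]⟩
  · have e : i ≠ h := by
      rintro rfl
      have := k.1
      rw [ka, left_eq_mul, inv_eq_one, io, dif_pos (by omega)] at this
      exact of_ne_one _ this
    refine ⟨fun j hj => ?_, ka, 1, o, by rw [k.2 _ (by omega), one_mul]⟩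
    by_cases e : j = 2 * i
    · exact ⟨1, _, o, Gam_D_inv ⟨Gam_mem_low (by omega), k.2 (2 * i + 1) (by omega)⟩,
        by rw [e, k.1, one_mul]⟩
    · exact ⟨1, 1, o, o, by rw [k.2 j e, one_mul, mul_one]⟩
  · have c : Gam_D h φ (cc _ i) := by
      refine ⟨mul_mem ?_ (Gam_mem_low (by omega)), ?_⟩
      · by_cases e : i + 1 = h
        · subst e
          exact Gam_mem_top
        · exact mul_mem (mul_mem (Gam_mem_low (by omega)) (inv_mem (Gam_mem_low (by omega))))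
            (inv_mem (Gam_mem_low (by omega)))
      · conv_lhs => rw [cc, map_mul, map_mul, map_mul, map_inv, map_inv, k.1, k.2.1,
          k.2.2.2 (2 * i + 2) (by omega) (by omega) (by omega), cc]
        rw [cc]
        group
    refine ⟨fun j hj => ?_, ka, ?_⟩
    · by_cases e0 : j = 2 * i
      · exact ⟨_, _, Gam_D_inv c, c, by rw [e0, k.2.1]⟩
      by_cases e1 : j = 2 * i + 1
      · exact ⟨1, _, o, c, by rw [e1, k.2.2.1, one_mul]⟩
      by_cases e3 : j = 2 * i + 3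
      · exact ⟨_, 1, Gam_D_inv c, o, by rw [e3, k.1, mul_one]⟩
      · exact ⟨1, 1, o, o, by rw [k.2.2.2 j e0 e1 e3, one_mul, mul_one]⟩
    · by_cases e : i + 1 = h
      · subst e
        exact ⟨_, Gam_D_inv c, k.1⟩
      · exact ⟨1, o, by rw [k.2.2.2 _ (by omega) (by omega) (by omega), one_mul]⟩

theorem Gam_key (ψ : Gam h) : Gam_P h ψ.1 := by
  have k : ψ.1 ∈ Subgroup.closure (LickA (2 * (h + 1))) := stabA_eq (h + 1) ▸ ψ.2
  generalize ψ.1 = φ at k
  induction k using Subgroup.closure_induction'' with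
  | mem x hx => exact Gam_T_P (Gam_lick hx)
  | inv_mem x hx => exact Gam_T_P (Gam_T_inv (Gam_lick hx))
  | one => exact ⟨fun x => ⟨x, rfl⟩, by rw [MulAut.one_apply, mul_inv_cancel]; exact one_mem _⟩
  | mul x y _ _ a b =>
    refine ⟨fun z => ?_, ?_⟩
    · obtain ⟨w, e⟩ := b.1 z
      rw [MulAut.mul_apply, ← e]
      exact a.1 w
    · obtain ⟨w, e⟩ := b.2
      rw [MulAut.mul_apply, mul_inv_eq_iff_eq_mul.1 e.symm, map_mul, mul_assoc]
      exact mul_mem (a.1 w) a.2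

theorem Gam_fb (ψ : Gam h) (x : FN (2 * h + 1)) : ψ.1 (inG h x) = inG h (fb ψ x) := by
  obtain ⟨w, e⟩ := (Gam_key ψ).1 x
  change _ = inG h (reG h (ψ.1 (inG h x)))
  rw [← e, Gam_re_in]

theorem Gam_uu (ψ : Gam h) : ψ.1 (io _ (2 * h + 1)) = inG h (uu ψ) * io _ (2 * h + 1) := by
  obtain ⟨w, e⟩ := (Gam_key ψ).2
  have e' := mul_inv_eq_iff_eq_mul.1 e.symm
  rw [uu, e', map_mul, Gam_re_in, Gam_re_b, mul_one]

theorem Gam_a (ψ : Gam h) : ψ.1 (io _ (2 * h)) = io _ (2 * h) := by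
  have k : ψ.1 (io _ (2 * (h + 1) - 2)) = io _ (2 * (h + 1) - 2) := ψ.2.2
  rwa [show 2 * (h + 1) - 2 = 2 * h by omega] at k

theorem Gam_up (f : FN (2 * h + 1) →* FN (2 * h + 1)) (u : FN (2 * h + 1))
    (k : f (io _ (2 * h)) = u * io _ (2 * h) * u⁻¹) :
    ∃ F : FN (2 * (h + 1)) →* FN (2 * (h + 1)), (∀ x, F (inG h x) = inG h (f x)) ∧
      F (io _ (2 * h)) = io _ (2 * h) ∧ F (io _ (2 * h + 1)) = inG h u * io _ (2 * h + 1) := by
  let F : FN (2 * (h + 1)) →* FN (2 * (h + 1)) := lift fun j =>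
    if (j : ℕ) < 2 * h then inG h (f (io _ j))
    else if (j : ℕ) = 2 * h then io _ (2 * h) else inG h u * io _ (2 * h + 1)
  have a : F (io _ (2 * h)) = io _ (2 * h) := by
    conv_lhs => rw [io, dif_pos (by omega : 2 * h < 2 * (h + 1))]
    rw [lift_apply_of, if_neg (lt_irrefl _), if_pos rfl]
  have b : F (io _ (2 * h + 1)) = inG h u * io _ (2 * h + 1) := by
    conv_lhs => rw [io, dif_pos (by omega : 2 * h + 1 < 2 * (h + 1))]
    rw [lift_apply_of, if_neg (by simp), if_neg (by simp)]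
  have e : F.comp (inG h) = (inG h).comp f := by
    refine Gam_ext0 (fun j hj => ?_) ?_
    · rw [MonoidHom.comp_apply, MonoidHom.comp_apply, Gam_in_low hj]
      conv_lhs => rw [io, dif_pos (by omega : j < 2 * (h + 1))]
      rw [lift_apply_of, if_pos hj]
    · rw [MonoidHom.comp_apply, MonoidHom.comp_apply, k, Gam_in_top]
      simp only [map_mul, map_inv, a, b, Gam_in_top]
      group
  exact ⟨F, DFunLike.congr_fun e, a, b⟩

theorem gamSt : GamSt := by
  refine fun h => ⟨⟨MonoidHom.ext Gam_re_in, Gam_re_b⟩, fun ψ ψ' => ⟨MonoidHom.ext fun x => ?_, ?_⟩,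
    fun ψ => ⟨?_, ?_⟩, fun φ u k1 k2 => ?_⟩
  · change reG h (ψ.1 (ψ'.1 (inG h x))) = _
    rw [Gam_fb ψ' x]
    rfl
  · change reG h (ψ.1 (ψ'.1 (io _ (2 * h + 1)))) = _
    rw [Gam_uu ψ', map_mul, map_mul]
    rfl
  · change reG h (ψ.1 (inG h _)) = _
    rw [Gam_in_top]
    simp only [map_mul, map_inv, Gam_a, Gam_re_a, inv_inv]
    rfl
  · change reG h (ψ.1 (inG h _)) = _
    have k : ψ.1 (ev (2 * (h + 1)) (rW (h + 1))) = ev (2 * (h + 1)) (rW (h + 1)) := ψ.2.1
    rw [Gam_bd, map_mul, Gam_a, mul_right_inj] at k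
    rw [k, Gam_re_in]
  · obtain ⟨F, a1, a2, a3⟩ := Gam_up φ.toMonoidHom u k1
    obtain ⟨F', b1, b2, b3⟩ := Gam_up φ.symm.toMonoidHom (φ.symm u)⁻¹ (φ.symm_apply_eq.2 (by
      rw [map_mul, map_mul, map_inv, map_inv, map_inv, φ.apply_symm_apply, k1]
      group))
    have e1 : F'.comp F = MonoidHom.id _ := by
      refine Gam_ext1 (fun x => ?_) ?_ ?_ <;> rw [MonoidHom.comp_apply, MonoidHom.id_apply]
      · rw [a1, b1]
        exact congrArg (inG h) (φ.symm_apply_apply x)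
      · rw [a2, b2]
      · rw [a3, map_mul, b1, b3, ← mul_assoc, ← map_mul]
        change inG h (φ.symm u * (φ.symm u)⁻¹) * _ = _
        rw [mul_inv_cancel, map_one, one_mul]
    have e2 : F.comp F' = MonoidHom.id _ := by
      refine Gam_ext1 (fun x => ?_) ?_ ?_ <;> rw [MonoidHom.comp_apply, MonoidHom.id_apply]
      · rw [b1, a1]
        exact congrArg (inG h) (φ.apply_symm_apply x)
      · rw [b2, a2]
      · rw [b3, map_mul, a1, a3, ← mul_assoc, ← map_mul]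
        change inG h (φ (φ.symm u)⁻¹ * u) * _ = _
        rw [map_inv, φ.apply_symm_apply, inv_mul_cancel, map_one, one_mul]
    refine ⟨⟨MonoidHom.toMulEquiv F F' e1 e2, ?_, ?_⟩, MonoidHom.ext fun x => ?_, ?_⟩
    · change F _ = _
      rw [Gam_bd, map_mul, a2, a1]
      exact congrArg (fun y => _ * inG h y) k2
    · change F _ = _
      rw [show 2 * (h + 1) - 2 = 2 * h by omega, a2]
    · change reG h (F (inG h x)) = _
      rw [a1, Gam_re_in]
    · change reG h (F _) = _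
      rw [a3, map_mul, Gam_re_in, Gam_re_b, mul_one]

end Pool.Agent.MW
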