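import Pool.Agent.Lib.MP_c86c76_al.Tg.St

/-!
A local braid that keeps the monodromy gives an element of the group of the window.
-/

namespace Pool.Agent.MW

open Pool.Agent.MB Pool.Agent.MG Pool.Agent.MA Pool.Agent.MT
open FreeGroup hiding map_mul map_inv map_one

theorem lift_io {G : Type} [Group G] {n j : ℕ} (f : Fin n → G) (h : j < n) :
    lift f (io n j) = f ⟨j, h⟩ := by rw [io, dif_pos h, lift_apply_of]

/-- The retraction to the base of the window. -/
def liftRt (h m i : ℕ) : FN m →* FN (2 * h + 1 + 1) :=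
  lift fun p => if (p : ℕ) = 0 then io _ 0 else if (p : ℕ) < i then 1 else io _ (p - i + 1)

variable {h m i : ℕ}

theorem lift_rt_io (hi : 1 ≤ i) {p : ℕ} (h1 : i ≤ p) (h2 : p < m) :
    liftRt h m i (io m p) = io _ (p - i + 1) := by
  rw [liftRt, lift_io _ h2, if_neg (by simp only; omega), if_neg (by simp only; omega)]

theorem lift_rt_bl (hm : i ≤ m) (k : ℕ) (hk : k + 1 ≤ i) :
    liftRt h m i (bl m 0 (k + 1)) = io _ 0 := by
  induction k with
  | zero => rw [bl_succ m le_rfl, bl_self, one_mul, liftRt, lift_io _ (by omega), if_pos rfl]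
  | succ k ih =>
    rw [bl_succ m (Nat.zero_le _), map_mul, ih (by omega), liftRt, lift_io _ (by omega),
      if_neg (by simp), if_pos (by simp only; omega), mul_one]

theorem lift_rt_bl' (hi : 1 ≤ i) (hm : i ≤ m) : liftRt h m i (bl m 0 i) = io _ 0 := by
  obtain ⟨k, rfl⟩ : ∃ k, i = k + 1 := ⟨i - 1, by omega⟩
  exact lift_rt_bl hm k le_rfl

theorem lift_in_zero : inB h m i (io _ 0) = bl m 0 i := by
  rw [inB, lift_io _ (by omega), if_pos rfl]

theorem lift_in_io {j : ℕ} (h1 : 1 ≤ j) (h2 : j ≤ 2 * h + 1) :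
    inB h m i (io _ j) = io m (i + j - 1) := by
  rw [inB, lift_io _ (by omega), if_neg (by simp only; omega)]

theorem lift_of {n : ℕ} (j : Fin n) : (of j : FN n) = io n j := by
  rw [io, dif_pos j.2]

theorem lift_rt_in (hi : 1 ≤ i) (hm : i + 2 * h + 1 ≤ m) (x : FN (2 * h + 1 + 1)) :
    liftRt h m i (inB h m i x) = x := by
  have : (liftRt h m i).comp (inB h m i) = MonoidHom.id _ := FreeGroup.ext_hom _ _ fun j => by
    have := j.2
    rw [lift_of, MonoidHom.comp_apply, MonoidHom.id_apply]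
    by_cases e : (j : ℕ) = 0
    · rw [e, lift_in_zero, lift_rt_bl' hi (by omega)]
    · rw [lift_in_io (by omega) (by omega), lift_rt_io hi (by omega) (by omega)]
      congr 1
      omega
  exact DFunLike.congr_fun this x

theorem lift_in_rt (hi : 1 ≤ i) (hm : i + 2 * h + 1 ≤ m) {y : FN m}
    (hy : y ∈ EA m i (i + 2 * h + 1)) : inB h m i (liftRt h m i y) = y := by
  induction hy using Subgroup.closure_induction with
  | mem x hx =>
    rcases hx with rfl | ⟨p, h1, h2, rfl⟩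
    · rw [lift_rt_bl' hi (by omega), lift_in_zero]
    · rw [lift_rt_io hi h1 (by omega), lift_in_io (by omega) (by omega)]
      congr 1
      omega
  | one => simp
  | mul x y _ _ a b => rw [map_mul, map_mul, a, b]
  | inv x _ a => rw [map_inv, map_inv, a]

theorem lift_in_mem (x : FN (2 * h + 1 + 1)) : inB h m i x ∈ EA m i (i + 2 * h + 1) := by
  induction x using FreeGroup.induction_on with
  | C1 => simp
  | of j =>
    have := j.2
    rw [lift_of]
    by_cases e : (j : ℕ) = 0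
    · rw [e, lift_in_zero]
      exact Subgroup.subset_closure (Or.inl rfl)
    · rw [lift_in_io (by omega) (by omega)]
      exact Subgroup.subset_closure (Or.inr ⟨_, by omega, by omega, rfl⟩)
  | inv_of j a => rw [map_inv]; exact inv_mem a
  | mul x y a b => rw [map_mul]; exact mul_mem a b

theorem lift_in_bl (k : ℕ) (hk : k ≤ 2 * h + 1) :
    inB h m i (bl _ 0 (k + 1)) = bl m 0 (i + k) := by
  induction k with
  | zero => rw [bl_succ _ le_rfl, bl_self, one_mul, lift_in_zero, add_zero]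
  | succ k ih =>
    rw [bl_succ _ (Nat.zero_le _), map_mul, ih (by omega), lift_in_io (by omega) hk, ← add_assoc,
      bl_succ m (Nat.zero_le _), Nat.add_sub_cancel]

theorem lift_fix {β : MulAut (FN m)} {j : ℕ} (hβ : ∀ p, j ≤ p → β (io m p) = io m p) (k : ℕ)
    (e : β (bl m 0 (j + k)) = bl m 0 (j + k)) : β (bl m 0 j) = bl m 0 j := by
  induction k with
  | zero => exact e
  | succ k ih =>
    rw [← add_assoc, bl_succ m (Nat.zero_le _), map_mul, hβ _ (by omega)] at e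
    exact ih (mul_right_cancel e)

theorem lift_rho {j : ℕ} (h1 : 1 ≤ j) (h2 : j ≤ 2 * h + 1) :
    ∃ g, rhoW h (io _ j) = Ed (if j ≤ 2 * h then 0 else 2) g := by
  rw [rhoW, lift_io _ (by omega), if_neg (by simp only; omega)]
  split_ifs
  exacts [⟨_, rfl⟩, ⟨_, rfl⟩]

theorem lift_rho0 : rhoW h (io _ 0) = ⟨tau 0,
    ![1, wl (2 * h + 1) h (2 * h), io (2 * h + 1) (2 * h) * (wl (2 * h + 1) h (2 * h))⁻¹]⟩ := by
  rw [rhoW, lift_io _ (by omega), if_pos rfl]

theorem lift_f (hE : EdSt) (hM : ModSt) {π : FN m →* Equiv.Perm (Fin 3)} {β : MulAut (FN m)}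
    {u : FN m} (hi : 1 ≤ i) (hm : i + 2 * h + 1 ≤ m) (hπ : π.comp (inB h m i) = pp (rhoW h))
    (hb : β (bl m 0 m) = bl m 0 m) (hL : Loc0 m i (i + 2 * h + 1) β u) (hu : π u = 1)
    (hβ : ∀ x, π (β x) = π x) : (rhoW h (liftRt h m i u)).p = 1 ∧
      liftRt h m i (β (inB h m i (io _ 0))) = liftRt h m i u * io _ 0 * (liftRt h m i u)⁻¹ ∧
      liftRt h m i (β (inB h m i (bl _ 0 (2 * h + 1 + 1)))) = bl _ 0 (2 * h + 1 + 1) ∧
      ∃ f : FN (2 * h + 1) →* FN (2 * h + 1),
        ∀ x, rhoW h (liftRt h m i (β (inB h m i x))) = Wr.map f (rhoW h x) := by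
  have hp : ∀ x, (rhoW h x).p = π (inB h m i x) := fun x => (DFunLike.congr_fun hπ x).symm
  have h1 : ∀ x, (rhoW h (liftRt h m i (β (inB h m i x)))).p = (rhoW h x).p := fun x => by
    rw [hp, hp, lift_in_rt hi hm (hL.ea (lift_in_mem x)), hβ]
  have h2 : (rhoW h (liftRt h m i u)).p = 1 := by rw [hp, lift_in_rt hi hm hL.1, hu]
  have h3 : liftRt h m i (β (inB h m i (io _ 0))) =
      liftRt h m i u * io _ 0 * (liftRt h m i u)⁻¹ := by
    rw [lift_in_zero, show β (bl m 0 i) = u * bl m 0 i * u⁻¹ from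
      bl_conj β.toMonoidHom (MonoidHom.id _) u hL.2.1, map_mul, map_mul, map_inv,
      lift_rt_bl' hi (by omega)]
  have h4 : liftRt h m i (β (inB h m i (bl _ 0 (2 * h + 1 + 1)))) = bl _ 0 (2 * h + 1 + 1) := by
    have e : inB h m i (bl _ 0 (2 * h + 1 + 1)) = bl m 0 (i + 2 * h + 1) := lift_in_bl _ le_rfl
    rw [e, lift_fix hL.2.2.2 (m - (i + 2 * h + 1)) (by
      rwa [Nat.add_sub_cancel' hm]), ← e, lift_rt_in hi hm]
  have h5 : ∀ j, 1 ≤ j → j ≤ 2 * h + 1 → ∃ g, rhoW h (liftRt h m i (β (inB h m i (io _ j)))) =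
      Ed (if j ≤ 2 * h then 0 else 2) g := fun j a b => by
    have e := h1 (io _ j)
    obtain ⟨q, w, c, d, -, e1⟩ := hL.2.2.1 (i + j - 1) (by omega) (by omega)
    obtain ⟨g, e2⟩ := lift_rho (h := h) (j := q - i + 1) (by omega) (by omega)
    obtain ⟨g', e3⟩ := lift_rho a b
    rw [lift_in_io a b, e1, map_mul, map_mul, map_mul, map_mul, map_inv, map_inv,
      lift_rt_io hi c (by omega), e2, (hE _).1] at e ⊢
    rw [e3] at e
    exact ⟨_, by rw [((hE PUnit).2.2.2.2.2 _ _).1 e]⟩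
  refine ⟨h2, h3, h4, ((hM h).2.2 _).1
    ((rhoW h).comp ((liftRt h m i).comp (β.toMonoidHom.comp (inB h m i)))) ?_ ?_
    (fun j a b => ?_) ?_ ?_⟩
  · exact (h1 _).trans (by rw [lift_rho0])
  · change (rhoW h (liftRt h m i (β _))).l 0 = 1
    rw [h3, map_mul, map_mul, map_inv, lift_rho0]
    simp [h2, show tau 0 0 = 0 by decide]
  · have := h5 j a (by omega)
    rwa [if_pos b] at this
  · have := h5 _ (by omega) le_rfl
    rwa [if_neg (Nat.not_succ_le_self _)] at this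
  · change Nm (rhoW h (liftRt h m i (β _)))
    rw [h4]
    exact (hM h).1

theorem liftSt (hE : EdSt) (hM : ModSt) (hG : GamSt) : LiftSt := by
  rintro h m i π β u hi hm hπ ⟨-, u₁, hL₁⟩ hL hu hβ
  have hβ1 : ∀ x, π (β.1 x) = π x := DFunLike.congr_fun hβ
  have hβ2 : ∀ x, π (β.1⁻¹ x) = π x := fun x => by
    rw [← hβ1, MulAut.apply_inv_self]
  have hL' : Loc0 m i (i + 2 * h + 1) β.1⁻¹ (β.1⁻¹ u)⁻¹ := by
    refine ⟨inv_mem (hL₁.ea hL.1), fun p hp => ?_, hL₁.2.2⟩
    have := congrArg (β.1⁻¹ ·) (hL.2.1 p hp)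
    simp only [MulAut.inv_apply_self, map_mul, map_inv] at this
    rw [inv_inv, mul_assoc, eq_inv_mul_iff_mul_eq, ← mul_inv_eq_iff_eq_mul, ← this]
  obtain ⟨h2, h3, h4, f, hf⟩ := lift_f hE hM hi hm hπ β.2.1 hL hu hβ1
  obtain ⟨-, -, -, f', hf'⟩ := lift_f (β := β.1⁻¹) hE hM hi hm hπ β⁻¹.2.1 hL'
    (by rw [map_inv, hβ2, hu, inv_one]) hβ2
  have e1 : f'.comp f = MonoidHom.id _ := ((hM h).2.2 _).2 _ _ fun x => by
    change Wr.map f' (Wr.map f _) = rhoW h x
    rw [← hf, ← hf', lift_in_rt hi hm (hL.ea (lift_in_mem x)), MulAut.inv_apply_self,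
      lift_rt_in hi hm]
  have e2 : f.comp f' = MonoidHom.id _ := ((hM h).2.2 _).2 _ _ fun x => by
    change Wr.map f (Wr.map f' _) = rhoW h x
    rw [← hf', ← hf, lift_in_rt hi hm (hL'.ea (lift_in_mem x)), MulAut.apply_inv_self,
      lift_rt_in hi hm]
  have e3 := hf (io _ 0)
  rw [h3, map_mul, map_mul, map_inv, lift_rho0] at e3
  have l1 := congrArg (·.l 1) e3
  have l2 := congrArg (·.l 2) e3
  simp [h2, show tau 0 1 = 2 by decide, show tau 0 2 = 1 by decide] at l1 l2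
  obtain ⟨ψ, e4, e5⟩ := (hG h).2.2.2 (MonoidHom.toMulEquiv f f' e1 e2)
    ((rhoW h (liftRt h m i u)).l 1) (by
      change f _ = _
      rw [← l1, eq_mul_inv_iff_mul_eq] at l2
      rw [← l2]
      group) (by
      have := congrArg (·.l 2) (hf (bl _ 0 (2 * h + 1 + 1)))
      simp only [h4, Wr.map_l, (hM h).2.1] at this
      exact this.symm)
  have e6 : fb ψ = f := e4
  refine ⟨ψ, (liftRt h m i).comp (β.1.toMonoidHom.comp (inB h m i)), liftRt h m i u,
    fun x => (lift_in_rt hi hm (hL.ea (lift_in_mem x))).symm, (lift_in_rt hi hm hL.1).symm,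
    e6 ▸ hf, h2, e5.symm, ?_⟩
  change _ = fb ψ _ * uu ψ * _
  rw [e6, e5, ← l1]
  group

end Pool.Agent.MW
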