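import Pool.Agent.Lib.MP_c86c76_al.Tg.St

/-!
The standard systems are universal.
-/

set_option autoImplicit false

namespace Pool.Agent.MW

open Pool.Agent.MB Pool.Agent.MG Pool.Agent.MA Pool.Agent.MT
open FreeGroup hiding map_mul map_inv map_one

section

variable {G : Type} [Group G]

theorem Un_io {m j : ℕ} (h : j < m) : io m j = of ⟨j, h⟩ := dif_pos h

theorem Un_ext {m : ℕ} {f f' : FN m →* G} (h : ∀ j, j < m → f (io m j) = f' (io m j)) : f = f' :=
  FreeGroup.ext_hom _ _ fun i => by rw [← show io m i = of i from dif_pos i.2, h i i.2]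

theorem Un_ed (g : G) : Ed 0 g = ⟨tau 0, ![1, g, g⁻¹]⟩ :=
  Wr.ext rfl (funext fun s => by fin_cases s <;> simp [Ed])

theorem Un_mid {m : ℕ} (ρ : FN m →* Wr G) (g : ℕ → G) (k : ℕ)
    (h : ∀ j, 1 ≤ j → j ≤ k → ρ (io m j) = Ed 0 (g j)) :
    ρ (bl m 0 (k + 1)) =
      ρ (io m 0) * (((List.range k).map fun p => g (p + 1)).map (Ed 0)).prod := by
  induction k with
  | zero => simp [bl_succ, bl_self]
  | succ k ih =>
    rw [bl_succ m (Nat.zero_le _), map_mul, ih fun j a b => h j a (by omega), h (k + 1) (by omega)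
      le_rfl, List.range_succ]
    simp [mul_assoc]

theorem Un_all (hE : EdSt) {h : ℕ} (ρ : FN (2 * h + 1 + 1) →* Wr G) (g : ℕ → G) (D v : G)
    (h0 : ρ (io _ 0) = ⟨tau 0, ![1, g 0, D]⟩)
    (h1 : ∀ j, 1 ≤ j → j ≤ 2 * h → ρ (io _ j) = Ed 0 (g j)) (h2 : ρ (io _ (2 * h + 1)) = Ed 2 v) :
    ρ (bl _ 0 (2 * h + 1 + 1)) = ⟨cyc, ![alt true ((List.range (2 * h + 1)).map g) * v, v⁻¹,
      D * g 0 * alt false ((List.range (2 * h + 1)).map g)]⟩ := by
  rw [bl_succ _ (Nat.zero_le _), map_mul, Un_mid ρ g _ h1, h0, h2, (hE G).2.2.2.2.1,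
    if_neg (by simp), List.range_succ_eq_map, List.map_cons, List.map_map]
  have t0 : tau 2 0 = 1 := by decide
  have t1 : tau 2 1 = 0 := by decide
  have t2 : tau 2 2 = 2 := by decide
  refine Wr.ext (by simp [cyc, Ed]) (funext fun s => ?_)
  fin_cases s <;> simp [Ed, alt, t0, t1, t2, Function.comp_def, mul_assoc]

theorem Un_rev (g : ℕ → G) (k : ℕ) :
    ((List.range (k + 1)).map fun p => g (k - (k - p))) = (List.range (k + 1)).map g :=
  List.map_congr_left fun p hp => congrArg g (by have := List.mem_range.1 hp; omega)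

end

theorem Un_r0 {g j : ℕ} (h : j ≤ 2 * g) :
    rho0 g (io _ j) = Ed 0 (wl (2 * g) g (2 * g - j)) := by
  rw [Un_io (by omega), rho0, lift_apply_of, if_pos h]

theorem Un_r1 (g : ℕ) : rho0 g (io _ (2 * g + 1)) = Ed 2 1 := by
  rw [Un_io (by omega), rho0, lift_apply_of, if_neg (by simp)]

theorem Un_w0 (h : ℕ) : rhoW h (io _ 0) = ⟨tau 0, ![1, wl (2 * h + 1) h (2 * h),
    io (2 * h + 1) (2 * h) * (wl (2 * h + 1) h (2 * h))⁻¹]⟩ := by
  rw [Un_io (by omega), rhoW, lift_apply_of, if_pos rfl]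

theorem Un_w1 {h j : ℕ} (h1 : 1 ≤ j) (h2 : j ≤ 2 * h) :
    rhoW h (io _ j) = Ed 0 (wl (2 * h + 1) h (2 * h - j)) := by
  rw [Un_io (by omega), rhoW, lift_apply_of, if_neg (by simpa using by omega), if_pos h2]

theorem Un_w2 (h : ℕ) : rhoW h (io _ (2 * h + 1)) = Ed 2 1 := by
  rw [Un_io (by omega), rhoW, lift_apply_of, if_neg (by simp), if_neg (by simp)]

theorem unSt (hE : EdSt) (hW : WlSt) : UnSt := fun g => by
  obtain ⟨⟨a1, a2⟩, hU⟩ := hW (2 * g) g le_rfl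
  have e := Un_all hE (rho0 g) (fun p => wl (2 * g) g (2 * g - p)) _ 1
    ((Un_r0 (Nat.zero_le _)).trans (Un_ed _)) (fun j _ b => Un_r0 b) (Un_r1 g)
  refine ⟨fun j hj => ?_, ?_, ?_, fun ρ hs hp hn => ?_⟩
  · by_cases c : j ≤ 2 * g
    · exact ⟨_, _, Un_r0 c⟩
    · rw [show j = 2 * g + 1 by omega]
      exact ⟨_, _, Un_r1 g⟩
  · rw [e, a1]
    exact ⟨rfl, by simp, by simp⟩
  · rw [e, a2]
    simp
  · have ht : ∀ j c, j < 2 * g + 1 + 1 → (rho0 g (io _ j)).p = tau c → ∃ u, ρ (io _ j) = Ed c u :=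
      fun j c hj hc => by
        obtain ⟨c', u, h⟩ := hs j hj
        have h1 : (ρ (io _ j)).p = (rho0 g (io _ j)).p := DFunLike.congr_fun hp (io _ j)
        rw [h, hc] at h1
        exact ⟨u, ((hE Unit).2.2.2.2.2 c' c).1 h1 ▸ h⟩
    have h1 : ∀ j, ∃ u, j ≤ 2 * g → ρ (io _ j) = Ed 0 u := fun j => by
      by_cases c : j ≤ 2 * g
      · obtain ⟨u, h⟩ := ht j 0 (by omega) (by rw [Un_r0 c]; rfl)
        exact ⟨u, fun _ => h⟩
      · exact ⟨1, fun c' => absurd c' c⟩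
    choose u hu using h1
    obtain ⟨v, hv⟩ := ht (2 * g + 1) 2 (by omega) (by rw [Un_r1]; rfl)
    rw [Un_all hE ρ u _ v ((hu 0 (Nat.zero_le _)).trans (Un_ed _)) (fun j _ b => hu j b) hv] at hn
    have v1 : v = 1 := by simpa using hn.2.2
    have v2 : alt true ((List.range (2 * g + 1)).map u) = 1 := by simpa [v1] using hn.2.1
    obtain ⟨f, f1, -⟩ := (hU _).1 (fun j => u (2 * g - j)) (fun _ => 1) (by rw [Un_rev, v2])
    have hf : ρ = (Wr.map f).comp (rho0 g) := Un_ext fun j hj => by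
      by_cases c : j ≤ 2 * g
      · rw [MonoidHom.comp_apply, Un_r0 c, (hE _).2.2.2.1, f1 _ (by omega), hu j c,
          show 2 * g - (2 * g - j) = j by omega]
      · rw [MonoidHom.comp_apply, show j = 2 * g + 1 by omega, Un_r1, (hE _).2.2.2.1, hv, v1,
          map_one]
    refine ⟨f, fun x => DFunLike.congr_fun hf x, fun f' h => ?_⟩
    refine (hU _).2 f' f (fun j hj => ?_) fun j a b => by omega
    have h2 := (h (io _ (2 * g - j))).symm.trans (DFunLike.congr_fun hf _)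
    rw [MonoidHom.comp_apply, Un_r0 (by omega), (hE _).2.2.2.1, (hE _).2.2.2.1,
      show 2 * g - (2 * g - j) = j by omega] at h2
    exact ((hE _).2.2.1 _ _ _ _ h2).2

theorem modSt (hE : EdSt) (hW : WlSt) : ModSt := fun h => by
  obtain ⟨⟨a1, a2⟩, hU⟩ := hW (2 * h + 1) h (by omega)
  have e := Un_all hE (rhoW h) (fun p => wl (2 * h + 1) h (2 * h - p)) _ 1
    (Un_w0 h) (fun j a b => Un_w1 a b) (Un_w2 h)
  refine ⟨?_, ?_, fun G _ => ⟨fun ρ p0 l0 hs ⟨v, hv⟩ hn => ?_, fun f f' k => ?_⟩⟩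
  · rw [e, a1]
    exact ⟨rfl, by simp, by simp⟩
  · rw [e, a2]
    simp
  · have h1 : ∀ j, ∃ u, (j = 0 → u = (ρ (io _ 0)).l 1) ∧
        (1 ≤ j → j ≤ 2 * h → ρ (io _ j) = Ed 0 u) := fun j => by
      by_cases c : 1 ≤ j ∧ j ≤ 2 * h
      · obtain ⟨u, h⟩ := hs j c.1 c.2
        exact ⟨u, fun c' => by omega, fun _ _ => h⟩
      · exact ⟨_, fun _ => rfl, fun a b => absurd ⟨a, b⟩ c⟩
    choose u u0 hu using h1
    have h0 : ρ (io _ 0) = ⟨tau 0, ![1, u 0, (ρ (io _ 0)).l 2]⟩ :=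
      Wr.ext p0 (funext fun s => by fin_cases s <;> simp [l0, u0 0 rfl])
    rw [Un_all hE ρ u _ v h0 hu hv] at hn
    have v1 : v = 1 := by simpa using hn.2.2
    have v2 : alt true ((List.range (2 * h + 1)).map u) = 1 := by simpa [v1] using hn.2.1
    obtain ⟨f, f1, f2⟩ := (hU G).1 (fun j => u (2 * h - j)) (fun _ => (ρ (io _ 0)).l 2 * u 0)
      (by rw [Un_rev, v2])
    have hf : ρ = (Wr.map f).comp (rhoW h) := Un_ext fun j hj => by
      rw [MonoidHom.comp_apply]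
      by_cases c0 : j = 0
      · rw [c0, Un_w0, h0]
        refine Wr.ext rfl (funext fun s => ?_)
        fin_cases s <;> simp [f1 _ le_rfl, f2 _ le_rfl (Nat.lt_succ_self _)]
      by_cases c : j ≤ 2 * h
      · rw [Un_w1 (by omega) c, (hE _).2.2.2.1, f1 _ (by omega), hu j (by omega) c,
          show 2 * h - (2 * h - j) = j by omega]
      · rw [show j = 2 * h + 1 by omega, Un_w2, (hE _).2.2.2.1, hv, v1, map_one]
    exact ⟨f, fun x => DFunLike.congr_fun hf x⟩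
  · have k0 := k (io _ 0)
    rw [Un_w0] at k0
    have k1 : f (wl (2 * h + 1) h (2 * h)) = f' (wl (2 * h + 1) h (2 * h)) :=
      congrArg (fun w => Wr.l w 1) k0
    have k2 : f (io (2 * h + 1) (2 * h) * (wl (2 * h + 1) h (2 * h))⁻¹) =
        f' (io (2 * h + 1) (2 * h) * (wl (2 * h + 1) h (2 * h))⁻¹) :=
      congrArg (fun w => Wr.l w 2) k0
    refine (hU G).2 f f' (fun j hj => ?_) fun j a b => ?_
    · by_cases c : j = 2 * h
      · rw [c, k1]
      · have h2 := k (io _ (2 * h - j))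
        rw [Un_w1 (by omega) (by omega), (hE _).2.2.2.1, (hE _).2.2.2.1,
          show 2 * h - (2 * h - j) = j by omega] at h2
        exact ((hE _).2.2.1 _ _ _ _ h2).2
    · rw [show j = 2 * h by omega]
      simpa [k1] using k2

end Pool.Agent.MW
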