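import Pool.Agent.Lib.MP_c86c76_al.Tg.St

/-!
Windows: local braids that keep the monodromy lift to the group of the window.
-/

set_option autoImplicit false

namespace Pool.Agent.MW

open Pool.Agent.MB Pool.Agent.MG Pool.Agent.MA Pool.Agent.MT
open FreeGroup hiding map_mul map_inv map_one

theorem win_io {n j : ℕ} (h : j < n) : io n j = FreeGroup.of ⟨j, h⟩ := dif_pos h

theorem win_inB {h m i p : ℕ} (h1 : i ≤ p) (h2 : p < i + 2 * h + 1) :
    inB h m i (io (2 * h + 1 + 1) (p - i + 1)) = io m p := by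
  rw [win_io (show p - i + 1 < 2 * h + 1 + 1 by omega), inB, FreeGroup.lift_apply_of,
    if_neg (Nat.succ_ne_zero _)]
  congr 1
  show i + (p - i + 1) - 1 = p
  omega

theorem win_conj (hE : EdSt) {G : Type} [Group G] (V W : Wr G) (g : G) (h1 : V.p = 1)
    (h2 : W.p = 1) (h3 : V.l 1 = W.l 1) (h4 : V.l 2 = W.l 2) :
    V * Ed 0 g * V⁻¹ = W * Ed 0 g * W⁻¹ := by
  rw [(hE G).1, (hE G).1, h1, h2]
  simp [h3, h4]

theorem winSt (hE : EdSt) (_hM : ModSt) (hI : IotSt) (hL : LiftSt) : WinSt := by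
  intro G _ h m i r ρ hX hi hm hS
  obtain ⟨k, s, ι, k1, k2, k3⟩ := hI G h m i r ρ hX hi hm hS
  refine ⟨ι, fun β u hβ hu hp hq => ?_⟩
  have e0 : (pp ρ).comp (inB h m i) = pp (rhoW h) := MonoidHom.ext fun x => by
    show (ρ (inB h m i x)).p = (rhoW h x).p
    rw [k2]
    simp [k1]
  obtain ⟨ψ, b, v, l1, l2, l3, l4, l5, l6⟩ :=
    hL h m i (pp ρ) β u (by omega) hm e0 hβ hu hp hq
  obtain ⟨a1, a2, a3, a4⟩ := k3 ψ
  refine ⟨ψ, fun x => ?_⟩
  have key : ρ.comp β.1.toMonoidHom = (Wr.map (ι ψ).1.toMonoidHom).comp ρ := by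
    refine FreeGroup.ext_hom _ _ fun j => ?_
    obtain ⟨p, hpm⟩ := j
    rw [← win_io hpm]
    show ρ (β.1 (io m p)) = Wr.map (ι ψ).1.toMonoidHom (ρ (io m p))
    by_cases c1 : p < i
    · obtain ⟨c, g, e⟩ := hX.1 p hpm
      have hc : c = 0 := by
        refine ((hE G).2.2.2.2.2 c 0).1 ?_
        have t : (ρ (io m p)).p = tau 0 := hS.1 p (by omega)
        rw [e] at t
        exact t
      subst hc
      rw [a3 p c1, hu.2.1 p c1, map_mul, map_mul, map_inv, l2, k2, e]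
      refine win_conj hE _ _ g ?_ ?_ ?_ ?_
      · simp [k1, l4]
      · simp [k1, Ub]
      · simp only [Wr.mul_l, Wr.inv_l, Wr.map_l, Wr.map_p, k1, l4, l5, inv_one,
          Equiv.Perm.coe_one, id, show (Ub ψ).p = 1 from rfl]
      · simp only [Wr.mul_l, Wr.inv_l, Wr.map_l, Wr.map_p, k1, l4, l6, inv_one,
          Equiv.Perm.coe_one, id, show (Ub ψ).p = 1 from rfl]
    · by_cases c2 : p < i + 2 * h + 1
      · rw [← win_inB (h := h) (not_lt.1 c1) c2, l1, k2, k2, l3, map_mul, map_mul, map_inv, a2]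
        congr 2
        exact Wr.ext rfl (funext fun t => (a1 _).symm)
      · rw [a4 p (not_lt.1 c2), hu.2.2.2 p (not_lt.1 c2)]
  exact DFunLike.congr_fun key x

end Pool.Agent.MW
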