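import Pool.Agent.Lib.MP_c86c76_al.Tg.St

/-!
The labels of the standard system are a basis.
-/

set_option autoImplicit false

namespace Pool.Agent.MW

open Pool.Agent.MB Pool.Agent.MG Pool.Agent.MA Pool.Agent.MT
open FreeGroup hiding map_mul map_inv map_one

theorem Wl_list {G : Type} (v : ℕ → G) (k : ℕ) :
    ((List.range (2 * (k + 1) + 1)).map fun p => v (2 * (k + 1) - p)) =
      v (2 * k + 2) :: v (2 * k + 1) :: (List.range (2 * k + 1)).map fun p => v (2 * k - p) := by
  rw [show 2 * (k + 1) + 1 = 2 * k + 1 + 1 + 1 by ring, List.range_succ_eq_map,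
    List.range_succ_eq_map, List.map_cons, List.map_cons, List.map_cons, List.map_map,
    List.map_map]
  refine congrArg₂ _ rfl (congrArg₂ _ rfl (List.map_congr_left fun p _ => ?_))
  simp only [Function.comp_apply]
  congr 1
  omega

theorem Wl_alt {G : Type} [Group G] (v : ℕ → G) (k : ℕ) :
    alt true ((List.range (2 * (k + 1) + 1)).map fun p => v (2 * (k + 1) - p)) =
      v (2 * k + 2) * (v (2 * k + 1))⁻¹ *
        alt true ((List.range (2 * k + 1)).map fun p => v (2 * k - p)) ∧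
    alt false ((List.range (2 * (k + 1) + 1)).map fun p => v (2 * (k + 1) - p)) =
      (v (2 * k + 2))⁻¹ * v (2 * k + 1) *
        alt false ((List.range (2 * k + 1)).map fun p => v (2 * k - p)) := by
  rw [Wl_list]
  simp only [alt, Bool.not_true, Bool.not_false, cond_true, cond_false, mul_assoc, and_self]

theorem Wl_prod {G : Type} [Group G] (B : ℕ → G) {g i : ℕ} (h : i < g) :
    ((List.range' i (g - i)).map B).prod = B i * ((List.range' (i + 1) (g - (i + 1))).map B).prod := by
  rw [show g - i = g - (i + 1) + 1 by omega, List.range'_succ, List.map_cons, List.prod_cons]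

theorem Wl_be {n g i : ℕ} (h : i < g) : be n g i = io n (2 * i + 1) * be n g (i + 1) :=
  Wl_prod (fun j => io n (2 * j + 1)) h

theorem Wl_be_self (n g : ℕ) : be n g g = 1 := by simp [be]

theorem Wl_zero (n g : ℕ) : wl n g 0 = be n g 0 := by simp [wl]

theorem Wl_odd (n g i : ℕ) :
    wl n g (2 * i + 1) = io n (2 * i + 1) * (io n (2 * i))⁻¹ * be n g (i + 1) := by
  rw [wl, if_neg (by omega), if_pos (by omega), show (2 * i + 1) / 2 = i by omega,
    Nat.add_sub_cancel]

theorem Wl_even (n g i : ℕ) : wl n g (2 * i + 2) = (io n (2 * i))⁻¹ * be n g (i + 1) := by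
  rw [wl, if_neg (by omega), if_neg (by omega), show (2 * i + 2) / 2 = i + 1 by omega,
    Nat.add_sub_cancel]

theorem Wl_rW (n g : ℕ) : ev n (rW (g + 1)) =
    io n (2 * g) * io n (2 * g + 1) * (io n (2 * g))⁻¹ * (io n (2 * g + 1))⁻¹ * ev n (rW g) := by
  simp [rW, hd, ev, gw, lift_mk, mul_assoc]

theorem Wl_tel (n g k : ℕ) (h : k ≤ g) :
    alt true ((List.range (2 * k + 1)).map fun p => wl n g (2 * k - p)) = be n g k ∧
    alt false ((List.range (2 * k + 1)).map fun p => wl n g (2 * k - p)) =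
      (be n g k)⁻¹ * ev n (rW k) := by
  induction k with
  | zero => simp [alt, Wl_zero, rW, ev, gw, lift_mk]
  | succ k ih =>
    obtain ⟨h1, h2⟩ := ih (by omega)
    obtain ⟨h3, h4⟩ := Wl_alt (wl n g) k
    rw [h3, h4, h1, h2, Wl_odd, Wl_even, Wl_rW, Wl_be (show k < g by omega)]
    constructor <;> group

theorem Wl_cases (j : ℕ) : j = 0 ∨ (∃ i, j = 2 * i + 1) ∨ ∃ i, j = 2 * i + 2 := by
  rcases Nat.eq_zero_or_pos j with h | h
  · exact Or.inl h
  · rcases Nat.mod_two_eq_zero_or_one j with h' | h'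
    · exact Or.inr (Or.inr ⟨j / 2 - 1, by omega⟩)
    · exact Or.inr (Or.inl ⟨j / 2, by omega⟩)

theorem Wl_map {G : Type} [Group G] {n g : ℕ} (f : FN n →* G) (B : ℕ → G)
    (h : ∀ j, j < g → f (io n (2 * j + 1)) = B j) (i : ℕ) :
    f (be n g i) = ((List.range' i (g - i)).map B).prod := by
  rw [be, map_list_prod, List.map_map]
  refine congrArg _ (List.map_congr_left fun j hj => h j ?_)
  have := List.mem_range'_1.1 hj
  omega

theorem Wl_ex {G : Type} [Group G] {n g : ℕ} (hn : 2 * g ≤ n) (v e : ℕ → G)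
    (hv : alt true ((List.range (2 * g + 1)).map fun p => v (2 * g - p)) = 1) :
    ∃ f : FN n →* G, (∀ j, j ≤ 2 * g → f (wl n g j) = v j) ∧
      ∀ j, 2 * g ≤ j → j < n → f (io n j) = e j := by
  obtain ⟨B, hB⟩ : ∃ B : ℕ → G, ∀ i, B i = v (2 * i + 1) * (v (2 * i + 2))⁻¹ := ⟨_, fun _ => rfl⟩
  obtain ⟨E, hE⟩ : ∃ E : ℕ → G, ∀ i, E i = ((List.range' i (g - i)).map B).prod :=
    ⟨_, fun _ => rfl⟩
  have tel : ∀ k, k ≤ g →
      alt true ((List.range (2 * k + 1)).map fun p => v (2 * k - p)) = E k * (E 0)⁻¹ * v 0 := by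
    intro k hk
    induction k with
    | zero => simp [alt]
    | succ k ih =>
      have hk' : E (k + 1) = (B k)⁻¹ * E k := by
        rw [hE k, Wl_prod B (show k < g by omega), ← hE, inv_mul_cancel_left]
      rw [(Wl_alt v k).1, ih (by omega), hk', hB]
      group
  have h0 : E 0 = v 0 := by
    have := tel g le_rfl
    rw [hv, hE g, Nat.sub_self] at this
    simp only [List.range'_zero, List.map_nil, List.prod_nil, one_mul] at this
    exact inv_mul_eq_one.1 this.symm
  obtain ⟨F, hF⟩ : ∃ F : ℕ → G, ∀ j, F j = if j < 2 * g then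
      (if j % 2 = 1 then B (j / 2) else E (j / 2 + 1) * (v (j + 2))⁻¹) else e j :=
    ⟨_, fun _ => rfl⟩
  obtain ⟨f, hf⟩ : ∃ f : FN n →* G, ∀ j, j < n → f (io n j) = F j :=
    ⟨lift fun j : Fin n => F j, fun j hj => by rw [io, dif_pos hj, lift_apply_of]⟩
  have fb : ∀ j, j < g → f (io n (2 * j + 1)) = B j := fun j hj => by
    rw [hf _ (by omega), hF, if_pos (by omega), if_pos (by omega),
      show (2 * j + 1) / 2 = j by omega]
  have fa : ∀ j, j < g → f (io n (2 * j)) = E (j + 1) * (v (2 * j + 2))⁻¹ := fun j hj => by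
    rw [hf _ (by omega), hF, if_pos (by omega), if_neg (by omega), show 2 * j / 2 = j by omega]
  have fe : ∀ i, f (be n g i) = E i := fun i => by rw [Wl_map f B fb, hE]
  refine ⟨f, fun j hj => ?_, fun j h1 h2 => by rw [hf j h2, hF, if_neg (by omega)]⟩
  rcases Wl_cases j with rfl | ⟨i, rfl⟩ | ⟨i, rfl⟩
  · rw [Wl_zero, fe, h0]
  · rw [Wl_odd, map_mul, map_mul, map_inv, fb i (by omega), fa i (by omega), fe, hB]
    group
  · rw [Wl_even, map_mul, map_inv, fa i (by omega), fe]
    group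

theorem Wl_un {G : Type} [Group G] {n g : ℕ} (f f' : FN n →* G)
    (h1 : ∀ j, j ≤ 2 * g → f (wl n g j) = f' (wl n g j))
    (h2 : ∀ j, 2 * g ≤ j → j < n → f (io n j) = f' (io n j)) : f = f' := by
  have hb : ∀ j, j < g → f (io n (2 * j + 1)) = f' (io n (2 * j + 1)) := fun j hj => by
    have : io n (2 * j + 1) = wl n g (2 * j + 1) * (wl n g (2 * j + 2))⁻¹ := by
      rw [Wl_odd, Wl_even]
      group
    rw [this, map_mul, map_mul, map_inv, map_inv, h1 _ (by omega), h1 _ (by omega)]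
  have he : ∀ i, f (be n g i) = f' (be n g i) := fun i => by
    rw [Wl_map f _ hb, Wl_map f' _ fun _ _ => rfl]
  have ha : ∀ j, j < g → f (io n (2 * j)) = f' (io n (2 * j)) := fun j hj => by
    have : io n (2 * j) = be n g (j + 1) * (wl n g (2 * j + 2))⁻¹ := by
      rw [Wl_even]
      group
    rw [this, map_mul, map_mul, map_inv, map_inv, h1 _ (by omega), he]
  refine ext_hom _ _ fun y => ?_
  have e : io n y = of y := dif_pos y.2
  rw [← e]
  by_cases hy : (y : ℕ) < 2 * g
  · rcases Nat.mod_two_eq_zero_or_one y with h' | h'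
    · rw [show (y : ℕ) = 2 * (y / 2) by omega]
      exact ha _ (by omega)
    · rw [show (y : ℕ) = 2 * (y / 2) + 1 by omega]
      exact hb _ (by omega)
  · exact h2 _ (by omega) y.2

theorem wlSt : WlSt := by
  intro n g hn
  obtain ⟨h1, h2⟩ := Wl_tel n g g le_rfl
  rw [Wl_be_self] at h1 h2
  rw [inv_one, one_mul] at h2
  exact ⟨⟨h1, h2⟩, fun G _ => ⟨fun v e hv => Wl_ex hn v e hv, Wl_un⟩⟩

end Pool.Agent.MW
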