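import Pool.Agent.Lib.MP_c86c76_al.Tg.St

/-!
Local braids: monotonicity, half twists, commutation with the braids outside the annulus.
-/

set_option autoImplicit false

namespace Pool.Agent.MW

open Pool.Agent.MB Pool.Agent.MG Pool.Agent.MA Pool.Agent.MT
open FreeGroup hiding map_mul map_inv map_one

theorem lca_ext {n : ℕ} {φ ψ : MulAut (FN n)} (h : ∀ x, φ (io n x) = ψ (io n x)) : φ = ψ :=
  br_ext fun i => by rw [← show io n i = FreeGroup.of i from dif_pos i.2, h]

theorem lca_io {m i j p : ℕ} (h1 : i ≤ p) (h2 : p < j) : io m p ∈ EA m i j :=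
  Subgroup.subset_closure (Or.inr ⟨p, h1, h2, rfl⟩)

theorem lca_bl {m i j : ℕ} (t : ℕ) (h1 : i ≤ t) (h2 : t ≤ j) : bl m 0 t ∈ EA m i j := by
  induction t, h1 using Nat.le_induction with
  | base => exact Subgroup.subset_closure (Or.inl rfl)
  | succ t ht ih =>
    rw [bl_succ m (Nat.zero_le _)]
    exact mul_mem (ih (by omega)) (lca_io ht (by omega))

theorem lca_ea {m i j i' j' : ℕ} (h0 : i ≤ j) (h1 : i' ≤ i) (h2 : j ≤ j') :
    EA m i j ≤ EA m i' j' := by
  rw [EA, Subgroup.closure_le]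
  rintro x (rfl | ⟨p, a, b, rfl⟩)
  · exact lca_bl i h1 (by omega)
  · exact lca_io (by omega) (by omega)

theorem lca_mono {m i j i' j' : ℕ} (h0 : i ≤ j) (h1 : i' ≤ i) (h2 : j ≤ j') {β : MulAut (FN m)}
    {u : FN m} (h : Loc0 m i j β u) : Loc0 m i' j' β u := by
  refine ⟨lca_ea h0 h1 h2 h.1, fun p hp => h.2.1 p (by omega), fun p a b => ?_,
    fun p hp => h.2.2.2 p (by omega)⟩
  by_cases c : p < i
  · exact ⟨p, u, a, b, lca_ea h0 h1 h2 h.1, h.2.1 p c⟩
  by_cases d : p < j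
  · obtain ⟨q, w, e1, e2, e3, e4⟩ := h.2.2.1 p (by omega) d
    exact ⟨q, w, by omega, by omega, lca_ea h0 h1 h2 e3, e4⟩
  · exact ⟨p, 1, a, b, one_mem _, by simpa using h.2.2.2 p (by omega)⟩

theorem lca_inv {m t : ℕ} {β : MulAut (FN m)} (h : IsS m t β) :
    β⁻¹ (io m t) = io m (t + 1) ∧
    β⁻¹ (io m (t + 1)) = (io m (t + 1))⁻¹ * io m t * (io m (t + 1))⁻¹⁻¹ ∧
    ∀ p, p ≠ t → p ≠ t + 1 → β⁻¹ (io m p) = io m p := by
  refine ⟨?_, ?_, fun p a b => ?_⟩
  · apply β.injective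
    rw [MulAut.apply_inv_self, h.2.1]
  · apply β.injective
    rw [MulAut.apply_inv_self, map_mul, map_mul, map_inv, map_inv, map_inv, h.1, h.2.1]
    group
  · apply β.injective
    rw [MulAut.apply_inv_self, h.2.2 p a b]

theorem lca_half {m i j t : ℕ} (h1 : i ≤ t) (h2 : t + 1 < j) {β : BL m} (h : IsS m t β.1) :
    β ∈ Loc m i j := by
  obtain ⟨k1, k2, k3⟩ := lca_inv h
  refine ⟨⟨1, one_mem _, fun p hp => ?_, fun p a b => ?_, fun p hp => ?_⟩,
    1, one_mem _, fun p hp => ?_, fun p a b => ?_, fun p hp => ?_⟩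
  · simpa using h.2.2 p (by omega) (by omega)
  · by_cases c : p = t
    · exact ⟨t + 1, io m t, by omega, h2, lca_io h1 (by omega), by rw [c, h.1]⟩
    by_cases d : p = t + 1
    · exact ⟨t, 1, h1, by omega, one_mem _, by simpa [d] using h.2.1⟩
    · exact ⟨p, 1, a, b, one_mem _, by simpa using h.2.2 p c d⟩
  · exact h.2.2 p (by omega) (by omega)
  · simpa using k3 p (by omega) (by omega)
  · by_cases c : p = t
    · exact ⟨t + 1, 1, by omega, h2, one_mem _, by rw [c, k1]; simp⟩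
    by_cases d : p = t + 1
    · exact ⟨t, (io m (t + 1))⁻¹, h1, by omega, inv_mem (lca_io (by omega) h2), by rw [d, k2]⟩
    · exact ⟨p, 1, a, b, one_mem _, by rw [k3 p c d]; simp⟩
  · exact k3 p (by omega) (by omega)

theorem lca_fix_lo {m t : ℕ} {s : MulAut (FN m)} (h : IsS m t s) (l : ℕ) (hl : l ≤ t) :
    s (bl m 0 l) = bl m 0 l := by
  induction l with
  | zero => simp [bl_self]
  | succ l ih =>
    rw [bl_succ m (Nat.zero_le _), map_mul, ih (by omega), h.2.2 l (by omega) (by omega)]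

theorem lca_fix_hi {m t : ℕ} {s : MulAut (FN m)} (h : IsS m t s) (l : ℕ) (hl : t + 2 ≤ l) :
    s (bl m 0 l) = bl m 0 l := by
  induction l, hl using Nat.le_induction with
  | base =>
    rw [bl_succ m (Nat.zero_le _), bl_succ m (Nat.zero_le _), map_mul, map_mul,
      lca_fix_lo h t le_rfl, h.1, h.2.1]
    group
  | succ l hl ih =>
    rw [bl_succ m (Nat.zero_le _), map_mul, ih, h.2.2 l (by omega) (by omega)]

theorem lca_fix {m i j t : ℕ} (h0 : i ≤ j) {s : MulAut (FN m)} (h : IsS m t s)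
    (ht : t + 1 < i ∨ j ≤ t) {x : FN m} (hx : x ∈ EA m i j) : s x = x := by
  induction hx using Subgroup.closure_induction with
  | mem x hx =>
    rcases hx with rfl | ⟨p, h1, h2, rfl⟩
    · rcases ht with ht | ht
      · exact lca_fix_hi h i (by omega)
      · exact lca_fix_lo h i (by omega)
    · exact h.2.2 p (by omega) (by omega)
  | one => simp
  | mul x y _ _ a b => rw [map_mul, a, b]
  | inv x _ a => rw [map_inv, a]

theorem lca_comm {m i j t : ℕ} (h0 : i ≤ j) {s β : MulAut (FN m)} {u : FN m} (h : IsS m t s)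
    (ht : t + 1 < i ∨ j ≤ t) (hb : Loc0 m i j β u) : s * β = β * s := by
  have hu := lca_fix h0 h ht hb.1
  refine lca_ext fun p => ?_
  rw [MulAut.mul_apply, MulAut.mul_apply]
  by_cases c : p < i
  · rw [hb.2.1 p c, map_mul, map_mul, map_inv, hu]
    by_cases e : p = t
    · rw [e, h.1, map_mul, map_mul, map_inv, hb.2.1 t (by omega), hb.2.1 (t + 1) (by omega)]
      group
    by_cases f : p = t + 1
    · rw [f, h.2.1, hb.2.1 t (by omega)]
    · rw [h.2.2 p e f, hb.2.1 p c]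
  by_cases d : p < j
  · rw [lca_fix h0 h ht (hb.ea (lca_io (by omega) d)), h.2.2 p (by omega) (by omega)]
  · rw [hb.2.2.2 p (by omega)]
    by_cases e : p = t
    · rw [e, h.1, map_mul, map_mul, map_inv, hb.2.2.2 t (by omega), hb.2.2.2 (t + 1) (by omega)]
    by_cases f : p = t + 1
    · rw [f, h.2.1, hb.2.2.2 t (by omega)]
    · rw [h.2.2 p e f, hb.2.2.2 p (by omega)]

theorem lca_sub {m i j p q : ℕ} (h0 : i ≤ j) (hpq : q ≤ i ∨ j ≤ p) {β : BL m} (hb : β ∈ Loc m i j)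
    {γ : BL m} (hg : γ ∈ Sub m p q) : γ * β = β * γ := by
  obtain ⟨⟨u, hu⟩, -⟩ := hb
  induction hg using Subgroup.closure_induction with
  | mem x hx =>
    obtain ⟨t, a, b, -, c⟩ := hx
    exact Subtype.ext (lca_comm h0 c (by omega) hu)
  | one => simp
  | mul x y _ _ a b => rw [mul_assoc, b, ← mul_assoc, a, mul_assoc]
  | inv x _ a => exact (Commute.inv_left a : Commute x⁻¹ β)

theorem lcaSt : LcaSt := by
  intro m i j h0 _
  refine ⟨fun i' j' h1 h2 β hb => ?_, ?_, fun β hb γ hg => ?_⟩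
  · obtain ⟨⟨u, a⟩, v, b⟩ := hb
    exact ⟨⟨u, lca_mono h0 h1 h2 a⟩, v, lca_mono h0 h1 h2 b⟩
  · rw [Sub, Subgroup.closure_le]
    rintro β ⟨t, a, b, -, c⟩
    exact lca_half a b c
  · rcases hg with hg | hg
    · exact lca_sub h0 (Or.inl le_rfl) hb hg
    · exact lca_sub h0 (Or.inr le_rfl) hb hg

end Pool.Agent.MW
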