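import Pool.Agent.Lib.MP_c86c76_al.Tg.St

/-!
Half twists exist and normalise the group of the loops of the last point.
-/

set_option autoImplicit false

namespace Pool.Agent.MW

open Pool.Agent.MB Pool.Agent.MG Pool.Agent.MA Pool.Agent.MT
open FreeGroup hiding map_mul map_inv map_one

theorem sg_io {m : ℕ} (i : Fin m) : io m i = of i := dif_pos i.2

theorem sg_ext {m : ℕ} {φ ψ : MulAut (FN m)} (h : ∀ i, i < m → φ (io m i) = ψ (io m i)) :
    φ = ψ := br_ext fun i => by rw [← sg_io]; exact h i i.2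

theorem sg_hext {m : ℕ} {G : Type} [Group G] {φ ψ : FN m →* G}
    (h : ∀ i, i < m → φ (io m i) = ψ (io m i)) : φ = ψ :=
  FreeGroup.ext_hom _ _ fun i => by rw [← sg_io]; exact h i i.2

/-- The homomorphism with given values on the letters. -/
def sgL (m : ℕ) {G : Type} [Group G] (f : ℕ → G) : FN m →* G := lift fun j : Fin m => f j

theorem sg_lift {m : ℕ} {G : Type} [Group G] (f : ℕ → G) {i : ℕ} (h : i < m) :
    sgL m f (io m i) = f i := by
  rw [io, dif_pos h, sgL, lift_apply_of]

theorem sg_split (m : ℕ) {k p l : ℕ} (h : k ≤ p) (h' : p ≤ l) :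
    bl m k l = bl m k p * bl m p l := by
  induction l, h' using Nat.le_induction with
  | base => simp [bl_self]
  | succ l hl ih => rw [bl_succ m (h.trans hl), bl_succ m hl, ih, mul_assoc]

theorem sg_conj {m : ℕ} (f : MulAut (FN m)) (u : FN m) {k l : ℕ} (hk : k ≤ l)
    (h : ∀ p, k ≤ p → p < l → f (io m p) = u * io m p * u⁻¹) :
    f (bl m k l) = u * bl m k l * u⁻¹ := by
  induction l, hk using Nat.le_induction with
  | base => simp [bl_self]
  | succ l hl ih =>
    rw [bl_succ m hl, map_mul, ih fun p a b => h p a (by omega), h l hl (by omega)]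
    group

theorem sg_fix {m : ℕ} (f : MulAut (FN m)) {k l : ℕ} (hk : k ≤ l)
    (h : ∀ p, k ≤ p → p < l → f (io m p) = io m p) : f (bl m k l) = bl m k l := by
  simpa using sg_conj f 1 hk fun p a b => by simpa using h p a b

theorem sg_one (m : ℕ) {k l : ℕ} (h : k + 1 ≤ l) : bl m k l = io m k * bl m (k + 1) l := by
  rw [sg_split m (Nat.le_succ k) h, bl_succ m le_rfl, bl_self, one_mul]

theorem sg_bl {m j : ℕ} {β : MulAut (FN m)} (h : IsS m j β) {k l : ℕ} (hk : k ≤ j)
    (hl : j + 2 ≤ l) : β (bl m k l) = bl m k l := by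
  rw [sg_split m hk (show j ≤ l by omega), sg_one m (show j + 1 ≤ l by omega),
    sg_one m (show j + 1 + 1 ≤ l by omega), map_mul, map_mul, map_mul, h.1, h.2.1,
    sg_fix β hk fun p _ b => h.2.2 p (by omega) (by omega),
    sg_fix β hl fun p a _ => h.2.2 p (by omega) (by omega)]
  group

/-- The half twist on letters. -/
def sgF (m j : ℕ) : FN m →* FN m := sgL m fun i =>
  if i = j then io m j * io m (j + 1) * (io m j)⁻¹ else if i = j + 1 then io m j else io m i

/-- The inverse half twist on letters. -/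
def sgG (m j : ℕ) : FN m →* FN m := sgL m fun i =>
  if i = j then io m (j + 1)
  else if i = j + 1 then (io m (j + 1))⁻¹ * io m j * io m (j + 1) else io m i

theorem sg_exists (m j : ℕ) (h : j + 1 < m) : ∃ β : BL m, IsS m j β.1 := by
  have f1 : sgF m j (io m j) = io m j * io m (j + 1) * (io m j)⁻¹ := by
    rw [sgF, sg_lift _ (by omega), if_pos rfl]
  have f2 : sgF m j (io m (j + 1)) = io m j := by
    rw [sgF, sg_lift _ h, if_neg (by omega), if_pos rfl]
  have f3 : ∀ i, i ≠ j → i ≠ j + 1 → sgF m j (io m i) = io m i := fun i a b => by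
    by_cases hi : i < m
    · rw [sgF, sg_lift _ hi, if_neg a, if_neg b]
    · rw [io, dif_neg hi, map_one]
  have g1 : sgG m j (io m j) = io m (j + 1) := by
    rw [sgG, sg_lift _ (by omega), if_pos rfl]
  have g2 : sgG m j (io m (j + 1)) = (io m (j + 1))⁻¹ * io m j * io m (j + 1) := by
    rw [sgG, sg_lift _ h, if_neg (by omega), if_pos rfl]
  have g3 : ∀ i, i ≠ j → i ≠ j + 1 → sgG m j (io m i) = io m i := fun i a b => by
    by_cases hi : i < m
    · rw [sgG, sg_lift _ hi, if_neg a, if_neg b]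
    · rw [io, dif_neg hi, map_one]
  have e1 : (sgG m j).comp (sgF m j) = MonoidHom.id _ := sg_hext fun i _ => by
    rw [MonoidHom.comp_apply, MonoidHom.id_apply]
    by_cases a : i = j
    · rw [a, f1, map_mul, map_mul, map_inv, g1, g2]
      group
    · by_cases b : i = j + 1
      · rw [b, f2, g1]
      · rw [f3 i a b, g3 i a b]
  have e2 : (sgF m j).comp (sgG m j) = MonoidHom.id _ := sg_hext fun i _ => by
    rw [MonoidHom.comp_apply, MonoidHom.id_apply]
    by_cases a : i = j
    · rw [a, g1, f2]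
    · by_cases b : i = j + 1
      · rw [b, g2, map_mul, map_mul, map_inv, f1, f2]
        group
      · rw [g3 i a b, f3 i a b]
  have hS : IsS m j (MonoidHom.toMulEquiv (sgF m j) (sgG m j) e1 e2) := ⟨f1, f2, f3⟩
  refine ⟨⟨_, sg_bl hS (Nat.zero_le j) (by omega),
    Equiv.swap ⟨j, by omega⟩ ⟨j + 1, h⟩, fun i => ?_⟩, hS⟩
  rw [← sg_io, ← sg_io]
  by_cases a : (i : ℕ) = j
  · have : i = ⟨j, by omega⟩ := Fin.ext a
    rw [this, Equiv.swap_apply_left, hS.1]
    exact isConj_iff.2 ⟨_, rfl⟩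
  · by_cases b : (i : ℕ) = j + 1
    · have : i = ⟨j + 1, h⟩ := Fin.ext b
      rw [this, Equiv.swap_apply_right, hS.2.1]
    · rw [Equiv.swap_apply_of_ne_of_ne (fun e => a (congrArg Fin.val e))
        (fun e => b (congrArg Fin.val e)), hS.2.2 i a b]

theorem sg_Mbl {N k : ℕ} {M : MulAut (FN (N + 1))} (h : IsM N k M) {p : ℕ} (a : k ≤ p)
    (b : p ≤ N) : M (bl (N + 1) p N) = (io (N + 1) N)⁻¹ * bl (N + 1) p N * io (N + 1) N := by
  simpa using sg_conj M (io (N + 1) N)⁻¹ b fun q c d => by simpa using h.2.1 q (by omega) d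

/-- The inverse of a loop braid on letters. -/
theorem sg_inv {N k : ℕ} {M : MulAut (FN (N + 1))} (h : IsM N k M) (hk : k ≤ N) :
    (∀ i, i < k → M⁻¹ (io (N + 1) i) = io (N + 1) i) ∧
    (∀ i, k ≤ i → i < N → M⁻¹ (io (N + 1) i) =
      (bl (N + 1) k N * io (N + 1) N * (bl (N + 1) k N)⁻¹) * io (N + 1) i *
        (bl (N + 1) k N * io (N + 1) N * (bl (N + 1) k N)⁻¹)⁻¹) ∧
    M⁻¹ (io (N + 1) N) = bl (N + 1) k N * io (N + 1) N * (bl (N + 1) k N)⁻¹ := by
  have e : M (bl (N + 1) k N * io (N + 1) N * (bl (N + 1) k N)⁻¹) = io (N + 1) N := by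
    rw [map_mul, map_mul, map_inv, sg_Mbl h le_rfl hk, h.2.2]
    group
  refine ⟨fun i a => ?_, fun i a b => ?_, ?_⟩
  · rw [MulAut.inv_def, MulEquiv.symm_apply_eq, h.1 i a]
  · rw [MulAut.inv_def, MulEquiv.symm_apply_eq, map_mul, map_mul, map_inv, e, h.2.1 i a b]
    group
  · rw [MulAut.inv_def, MulEquiv.symm_apply_eq, e]

theorem sg_comm {N j k : ℕ} {s M : MulAut (FN (N + 1))} (hj : j + 1 < N) (hk : k ≤ N)
    (hs : IsS (N + 1) j s) (h : IsM N k M) (hne : k ≠ j + 1) : s * M = M * s := by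
  have z : s (io (N + 1) N) = io (N + 1) N := hs.2.2 N (by omega) (by omega)
  have y : s (bl (N + 1) k N) = bl (N + 1) k N := by
    by_cases a : k ≤ j
    · exact sg_bl hs a (by omega)
    · exact sg_fix s hk fun p b _ => hs.2.2 p (by omega) (by omega)
  refine sg_ext fun i hi => ?_
  rw [MulAut.mul_apply, MulAut.mul_apply]
  by_cases a : i = N
  · rw [a, z, h.2.2]
    simp only [map_mul, map_inv, z, y]
  by_cases b : i = j
  · rw [b, hs.1, map_mul, map_mul, map_inv]
    by_cases c : k ≤ j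
    · rw [h.2.1 j c (by omega), h.2.1 (j + 1) (by omega) hj]
      simp only [map_mul, map_inv, z, hs.1]
      group
    · rw [h.1 j (by omega), h.1 (j + 1) (by omega), hs.1]
  by_cases c : i = j + 1
  · rw [c, hs.2.1]
    by_cases d : k ≤ j
    · rw [h.2.1 j d (by omega), h.2.1 (j + 1) (by omega) hj]
      simp only [map_mul, map_inv, z, hs.2.1]
    · rw [h.1 j (by omega), h.1 (j + 1) (by omega), hs.2.1]
  rw [hs.2.2 i b c]
  by_cases d : i < k
  · rw [h.1 i d, hs.2.2 i b c]
  · rw [h.2.1 i (by omega) (by omega)]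
    simp only [map_mul, map_inv, z, hs.2.2 i b c]

theorem sg_rel {N j : ℕ} {s A M B : MulAut (FN (N + 1))} (hj : j + 1 < N)
    (hs : IsS (N + 1) j s) (hA : IsM N j A) (hM : IsM N (j + 1) M) (hB : IsM N (j + 2) B) :
    s * M = A * M⁻¹ * B * s := by
  have z : s (io (N + 1) N) = io (N + 1) N := hs.2.2 N (by omega) (by omega)
  have y : s (bl (N + 1) (j + 2) N) = bl (N + 1) (j + 2) N :=
    sg_fix s (by omega) fun p b _ => hs.2.2 p (by omega) (by omega)
  have y1 : bl (N + 1) (j + 1) N = io (N + 1) (j + 1) * bl (N + 1) (j + 2) N :=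
    sg_one _ (by omega)
  have y0 : bl (N + 1) j N = io (N + 1) j * (io (N + 1) (j + 1) * bl (N + 1) (j + 2) N) := by
    rw [← y1]
    exact sg_one _ (by omega)
  obtain ⟨i1, i2, i3⟩ := sg_inv hM hj.le
  have i4 := sg_conj M⁻¹ _ (show j + 2 ≤ N by omega) fun p a b => i2 p (by omega) b
  have a1 := hA.2.1 j le_rfl (by omega)
  have a2 := hA.2.1 (j + 1) (by omega) hj
  have a3 := sg_Mbl hA (show j ≤ j + 2 by omega) (by omega)
  have a4 := hA.2.2
  rw [y1] at i2 i3 i4
  rw [y0] at a4
  refine sg_ext fun i hi => ?_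
  simp only [MulAut.mul_apply]
  by_cases a : i = N
  · rw [a, z, hM.2.2, hB.2.2, y1]
    simp only [map_mul, map_inv, z, y, hs.2.1, i3, i4, a2, a3, a4]
    group
  by_cases b : i = j
  · rw [b, hM.1 j (by omega), hs.1]
    simp only [map_mul, map_inv, hB.1 j (by omega), hB.1 (j + 1) (by omega), i1 j (by omega),
      i2 (j + 1) le_rfl hj, a1, a2, a3, a4]
    group
  by_cases c : i = j + 1
  · rw [c, hM.2.1 (j + 1) le_rfl hj, hs.2.1, hB.1 j (by omega), i1 j (by omega), a1]
    simp only [map_mul, map_inv, z, hs.2.1]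
  rw [hs.2.2 i b c]
  by_cases d : i < j
  · rw [hM.1 i (by omega), hB.1 i (by omega), i1 i (by omega), hA.1 i d, hs.2.2 i b c]
  · have e : M⁻¹ (B (io (N + 1) i)) = io (N + 1) i := by
      rw [hB.2.1 i (by omega) (by omega), ← hM.2.1 i (by omega) (by omega),
        MulAut.inv_apply_self]
    rw [e, hM.2.1 i (by omega) (by omega), hA.2.1 i (by omega) (by omega)]
    simp only [map_mul, map_inv, z, hs.2.2 i b c]

theorem sgSt : SgSt := by
  refine ⟨sg_exists, fun N j β hj hs γ hγ => ?_⟩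
  have mem : ∀ k, k ≤ N → MM N k ∈ FF N := fun k hk => Subgroup.subset_closure ⟨k, hk, rfl⟩
  have cm : ∀ k, k ≤ N → k ≠ j + 1 → β * MM N k = MM N k * β := fun k hk hne =>
    Subtype.ext (sg_comm hj hk hs (MM_isM hk) hne)
  have rel : β * MM N (j + 1) = MM N j * (MM N (j + 1))⁻¹ * MM N (j + 2) * β :=
    Subtype.ext (sg_rel hj hs (MM_isM (by omega)) (MM_isM (by omega)) (MM_isM (by omega)))
  induction hγ using Subgroup.closure_induction with
  | mem x hx =>
    obtain ⟨k, hk, rfl⟩ := hx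
    by_cases a : k = j + 1
    · subst a
      have m0 := mem j (by omega)
      have m1 := mem (j + 1) (by omega)
      have m2 := mem (j + 2) (by omega)
      have c0 := cm j (by omega) (by omega)
      have c2 := cm (j + 2) (by omega) (by omega)
      constructor
      · rw [rel, mul_inv_cancel_right]
        exact mul_mem (mul_mem m0 (inv_mem m1)) m2
      · have e : β⁻¹ * MM N (j + 1) * β = MM N (j + 2) * (MM N (j + 1))⁻¹ * MM N j := by
          have e1 : MM N (j + 1) =
              MM N (j + 2) * β * (β * MM N (j + 1))⁻¹ * MM N j := by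
            rw [rel]
            group
          calc _ = β⁻¹ * (MM N (j + 2) * β * (β * MM N (j + 1))⁻¹ * MM N j) * β := by rw [← e1]
            _ = β⁻¹ * (MM N (j + 2) * β) * (MM N (j + 1))⁻¹ * β⁻¹ * (MM N j * β) := by group
            _ = _ := by
              rw [← c0, ← c2]
              group
        rw [e]
        exact mul_mem (mul_mem m2 (inv_mem m1)) m0
    · constructor
      · rw [cm k hk a, mul_inv_cancel_right]
        exact mem k hk
      · rw [mul_assoc, ← cm k hk a, inv_mul_cancel_left]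
        exact mem k hk
  | one => simp
  | mul x y _ _ a b =>
    constructor
    · rw [show β * (x * y) * β⁻¹ = (β * x * β⁻¹) * (β * y * β⁻¹) by group]
      exact mul_mem a.1 b.1
    · rw [show β⁻¹ * (x * y) * β = (β⁻¹ * x * β) * (β⁻¹ * y * β) by group]
      exact mul_mem a.2 b.2
  | inv x _ a =>
    constructor
    · rw [show β * x⁻¹ * β⁻¹ = (β * x * β⁻¹)⁻¹ by group]
      exact inv_mem a.1
    · rw [show β⁻¹ * x⁻¹ * β = (β⁻¹ * x * β)⁻¹ by group]
      exact inv_mem a.2

end Pool.Agent.MW
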