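import Pool.Agent.Lib.MP_c86c76_al.Tg.St

/-!
Normal forms of types.
-/

set_option autoImplicit false

namespace Pool.Agent.MW

open Relation

variable {p q : ℕ} {c c' : ℕ → Fin 3}

/-- The type is not constant. -/
def clN (p q : ℕ) (c : ℕ → Fin 3) : Prop := ∃ j, p ≤ j ∧ j + 1 < q ∧ c j ≠ c (j + 1)

theorem cl_out (h : Rch p q c c') (x : ℕ) (hx : x < p ∨ q ≤ x) : c' x = c x := by
  induction h with
  | refl => rfl
  | tail _ h ih =>
    obtain ⟨j, h1, h2, rfl⟩ := h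
    rw [Hw, if_neg (by omega), if_neg (by omega), ih]

theorem cl_mono {p' : ℕ} (hp : p ≤ p') (h : Rch p' q c c') : Rch p q c c' := by
  induction h with
  | refl => exact .refl
  | tail _ h ih =>
    obtain ⟨j, h1, h2⟩ := h
    exact ReflTransGen.tail ih ⟨j, hp.trans h1, h2⟩

theorem cl_tail (h : Rch p q c c') {j : ℕ} (h1 : p ≤ j) (h2 : j + 1 < q) : Rch p q c (Hw j c') :=
  ReflTransGen.tail h ⟨j, h1, h2, rfl⟩

theorem cl_const (h : ¬ clN p q c) {x : ℕ} (h1 : p ≤ x) (h2 : x < q) : c x = c p := by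
  induction x, h1 using Nat.le_induction with
  | base => rfl
  | succ x hx ih => exact (not_not.1 fun e => h ⟨x, hx, h2, e⟩).symm.trans (ih (by omega))

theorem cl_move {k l : ℕ} (h1 : p ≤ k) (h2 : k ≤ l) (h3 : l < q) (c : ℕ → Fin 3) :
    ∃ c', Rch p q c c' ∧ c' k = c l ∧ (∀ x, k ≤ x → x < l → c' (x + 1) = -c x - c l) ∧
      ∀ x, l < x → c' x = c x := by
  induction l, h2 using Nat.le_induction generalizing c with
  | base => exact ⟨c, .refl, rfl, fun x a b => by omega, fun _ _ => rfl⟩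
  | succ l hl ih =>
    obtain ⟨c', a1, a2, a3, a4⟩ := ih (by omega) (Hw l (Hw l c))
    have e1 : Hw l (Hw l c) l = c (l + 1) := by simp [Hw]
    refine ⟨c', (cl_tail (cl_tail .refl (h1.trans hl) h3) (h1.trans hl) h3).trans a1,
      a2.trans e1, fun x b1 b2 => ?_, fun x b => ?_⟩
    · rcases (Nat.lt_succ_iff.1 b2).lt_or_eq with b | rfl
      · rw [a3 x b1 b, e1]
        simp [Hw, b.ne, b2.ne]
      · rw [a4 _ x.lt_succ_self]
        simp [Hw]
    · rw [a4 x (by omega)]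
      simp [Hw, b.ne', show x ≠ l by omega]

theorem cl_front (h : clN p q c) (t : Fin 3) :
    ∃ c', Rch p q c c' ∧ c' p = t ∧ ∃ x, p < x ∧ x < q ∧ c' x ≠ t := by
  obtain ⟨j, h1, h2, h3⟩ := h
  obtain ⟨c₁, a1, a2, a3⟩ : ∃ c₁, Rch p q c c₁ ∧ c₁ j = t ∧ c₁ (j + 1) ≠ t := by
    have k : ∀ a b t : Fin 3, a ≠ b → (a = t ∧ b ≠ t) ∨ (-a - b = t ∧ a ≠ t) ∨
        (b = t ∧ -a - b ≠ t) := by decide
    rcases k _ _ t h3 with e | e | e
    · exact ⟨c, .refl, e⟩
    · exact ⟨_, cl_tail .refl h1 h2, by simpa [Hw] using e⟩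
    · exact ⟨_, cl_tail (cl_tail .refl h1 h2) h1 h2, by simpa [Hw] using e⟩
  obtain ⟨c₂, b1, b2, -, b3⟩ := cl_move le_rfl h1 (show j < q by omega) c₁
  exact ⟨c₂, a1.trans b1, b2.trans a2, j + 1, by omega, h2, b3 _ j.lt_succ_self ▸ a3⟩

theorem cl_one (h : clN p q c) (h4 : p + 4 ≤ q) (t : Fin 3) :
    ∃ c', Rch p q c c' ∧ c' p = t ∧ clN (p + 1) q c' := by
  obtain ⟨c₁, a1, a2, x, a3, a4, a5⟩ := cl_front h t
  by_cases n : clN (p + 1) q c₁
  · exact ⟨c₁, a1, a2, n⟩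
  have e1 := cl_const n (show p + 1 ≤ p + 2 by omega) (by omega)
  have e2 := cl_const n (show p + 1 ≤ p + 3 by omega) (by omega)
  rw [cl_const n a3 a4] at a5
  have b : p + 1 < q := by omega
  have k : ∀ t d : Fin 3, -(-(-(-t - d) - t) - (-(-t - d) - d)) - (-(-t - d) - t) = t ∧
    (d ≠ t → -t - d ≠ d) := by decide
  refine ⟨_, cl_tail (cl_tail (cl_tail (cl_tail (cl_tail a1 le_rfl b) le_rfl b) p.le_succ
    (by omega)) le_rfl b) le_rfl b, ?_, p + 2, by omega, by omega, ?_⟩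
  · simp only [Hw, if_true, show p + 1 ≠ p by omega, show p + 1 + 1 ≠ p by omega,
      show p + 1 + 1 ≠ p + 1 by omega, show p ≠ p + 1 by omega, show p ≠ p + 1 + 1 by omega,
      if_false, e1, a2]
    exact (k _ _).1
  · simp only [Hw, if_true, show p + 1 ≠ p by omega, show p + 1 + 1 ≠ p by omega,
      show p + 1 + 1 ≠ p + 1 by omega, show p + 2 + 1 ≠ p by omega, show p + 2 + 1 ≠ p + 1 by omega,
      show p + 2 + 1 ≠ p + 1 + 1 by omega, if_false, e1, e2, a2]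
    exact (k _ _).2 a5

theorem cl_many (t : Fin 3) (n : ℕ) (hn : p + n + 3 = q) (h : clN p q c) :
    ∃ c', Rch p q c c' ∧ (∀ x, p ≤ x → x + 3 < q → c' x = t) ∧ clN (q - 3) q c' := by
  induction n generalizing p c with
  | zero => exact ⟨c, .refl, fun x a b => by omega, (show p = q - 3 by omega) ▸ h⟩
  | succ n ih =>
    obtain ⟨c₁, a1, a2, a3⟩ := cl_one h (by omega) t
    obtain ⟨c₂, b1, b2, b3⟩ := ih (p := p + 1) (by omega) a3
    refine ⟨c₂, a1.trans (cl_mono p.le_succ b1), fun x d1 d2 => ?_, b3⟩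
    rcases d1.lt_or_eq with d | rfl
    · exact b2 x d d2
    · exact (cl_out b1 _ (Or.inl p.lt_succ_self)).trans a2

theorem cl_left (p q : ℕ) (c : ℕ → Fin 3) :
    ∃ c', Rch p q c c' ∧ ∀ x y, p ≤ x → p ≤ y → x + 3 < q → y + 3 < q → c' x = c' y := by
  by_cases h : clN p q c
  · by_cases h3 : p + 3 ≤ q
    · obtain ⟨c', a1, a2, -⟩ := cl_many 0 (q - (p + 3)) (by omega) h
      exact ⟨c', a1, fun x y b1 b2 b3 b4 => (a2 x b1 b3).trans (a2 y b2 b4).symm⟩
    · exact ⟨c, .refl, fun x y b1 b2 b3 b4 => by omega⟩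
  · exact ⟨c, .refl, fun x y b1 b2 b3 b4 =>
      (cl_const h b1 (by omega)).trans (cl_const h b2 (by omega)).symm⟩

theorem cl_right (h3 : p + 3 ≤ q) (c : ℕ → Fin 3) (r : ℕ) (hr : r ≤ 3) : ∃ c', Rch p q c c' ∧
    ∀ x y, p + r ≤ x → p + r ≤ y → x + 3 < q + r → y + 3 < q + r → c' x = c' y := by
  induction r with
  | zero => exact cl_left p q c
  | succ r ih =>
    obtain ⟨c₁, a1, a2⟩ := ih (by omega)
    obtain ⟨c₂, b1, -, b2, -⟩ := cl_move (k := p + r) (l := q + r - 3) (q := q)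
      (p.le_add_right r) (by omega) (by omega) c₁
    refine ⟨c₂, a1.trans b1, fun x y d1 d2 d3 d4 => ?_⟩
    obtain ⟨x, rfl⟩ : ∃ x', x = x' + 1 := ⟨x - 1, by omega⟩
    obtain ⟨y, rfl⟩ : ∃ y', y = y' + 1 := ⟨y - 1, by omega⟩
    rw [b2 x (by omega) (by omega), b2 y (by omega) (by omega),
      a2 x y (by omega) (by omega) (by omega) (by omega)]

theorem cl_succ (c : ℕ → Fin 3) (q : ℕ) : tp c (q + 1) = tp c q * tau (c q) := by
  simp [tp, List.range_succ]

theorem cl_congr {n : ℕ} (h : ∀ x, x < n → c x = c' x) : tp c n = tp c' n :=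
  congrArg List.prod (List.map_congr_left fun x hx => by rw [h x (List.mem_range.1 hx)])

theorem cl_hw {j : ℕ} (h : j + 2 ≤ q) (c : ℕ → Fin 3) : tp (Hw j c) q = tp c q := by
  induction q, h using Nat.le_induction with
  | base =>
    have k : ∀ a b : Fin 3, tau (-a - b) * tau a = tau a * tau b := by decide
    rw [cl_succ, cl_succ, cl_succ, cl_succ, mul_assoc, mul_assoc, ← k (c j),
      cl_congr (c' := c) fun x hx => by rw [Hw, if_neg (by omega), if_neg (by omega)]]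
    simp [Hw]
  | succ q hq ih => rw [cl_succ, cl_succ, ih, Hw, if_neg (by omega), if_neg (by omega)]

theorem cl_tp (h : Rch p q c c') : tp c' q = tp c q := by
  induction h with
  | refl => rfl
  | tail _ h ih =>
    obtain ⟨j, -, h2, rfl⟩ := h
    rw [cl_hw h2, ih]

theorem cl_even {t : Fin 3} {n : ℕ} (h : ∀ x, x < 2 * n → c x = t) : tp c (2 * n) = 1 := by
  induction n with
  | zero => rfl
  | succ n ih =>
    have k : ∀ a : Fin 3, tau a * tau a = 1 := by decide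
    rw [show 2 * (n + 1) = 2 * n + 1 + 1 from rfl, cl_succ, cl_succ, ih fun x hx => h x (by omega),
      h _ (by omega), h _ (by omega), one_mul, k]

theorem clSt : ClSt := by
  refine ⟨fun _ _ _ _ => cl_out, cl_left, fun p q c => ?_, fun q c h4 h2 h => ?_⟩
  · by_cases h3 : p + 3 ≤ q
    · obtain ⟨c', a1, a2⟩ := cl_right h3 c 3 le_rfl
      exact ⟨c', a1, fun x y b1 b2 b3 b4 => a2 x y b1 b2 (by omega) (by omega)⟩
    · exact ⟨c, .refl, fun x y b1 b2 b3 b4 => by omega⟩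
  obtain ⟨n, rfl⟩ : ∃ n, q = 2 * (n + 1) + 1 + 1 := ⟨q / 2 - 2, by omega⟩
  have k : ∀ a b : Fin 3, tau a * tau b = cyc → a ≠ b ∧ (a = 0 → b = 2) := by decide
  have h1 : clN 0 (2 * (n + 1) + 1 + 1) c := by_contra fun e => absurd
    ((cl_even (n := n + 2) fun x hx => cl_const e x.zero_le hx).symm.trans h) (by decide)
  obtain ⟨c₁, a1, a2, a3⟩ := cl_many 0 (2 * n + 1) (by omega) h1
  obtain ⟨c₂, b1, b2, -⟩ := cl_front a3 0
  have b3 : ∀ x, x < 2 * (n + 1) → c₂ x = 0 := fun x hx => by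
    rcases (show x ≤ 2 * (n + 1) + 1 + 1 - 3 by omega).lt_or_eq with e | rfl
    · exact (cl_out b1 x (Or.inl e)).trans (a2 x x.zero_le (by omega))
    · exact b2
  have b4 := (cl_tp b1).trans ((cl_tp a1).trans h)
  have b5 := b4
  rw [cl_succ, cl_succ, cl_even b3, one_mul] at b5
  obtain ⟨c₃, d1, d2, -⟩ :=
    cl_front (p := 2 * (n + 1)) ⟨_, le_rfl, Nat.lt_succ_self _, (k _ _ b5).1⟩ 0
  have d3 : ∀ x, x < 2 * (n + 1) → c₃ x = 0 :=
    fun x hx => (cl_out d1 x (Or.inl hx)).trans (b3 x hx)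
  have d4 := (cl_tp d1).trans b4
  rw [cl_succ, cl_succ, cl_even d3, one_mul] at d4
  refine ⟨c₃, a1.trans ((cl_mono (Nat.zero_le _) b1).trans (cl_mono (Nat.zero_le _) d1)),
    fun x hx => ?_, (k _ _ d4).2 d2⟩
  rcases (show x ≤ 2 * (n + 1) by omega).lt_or_eq with e | rfl
  exacts [d3 x e, d2]

end Pool.Agent.MW
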