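import Pool.Agent.Lib.MP_c86c76_al.Tg.St

/-!
The lifts of the braids of a small annulus have a common fixed point.
-/

set_option autoImplicit false

namespace Pool.Agent.MW

open Pool.Agent.MB Pool.Agent.MG Pool.Agent.MA Pool.Agent.MT
open FreeGroup hiding map_mul map_inv map_one

variable {G : Type} [Group G] {m : ℕ} {ρ : FN m →* Wr G}

theorem ell_pp {β : MulAut (FN m)} {φ : MulAut G} (h : Lf ρ β φ) (x : FN m) :
    pp ρ (β x) = pp ρ x := (congrArg Wr.p (h x) :)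

theorem ell_mul {β β' : MulAut (FN m)} {φ φ' : MulAut G} (h : Lf ρ β φ) (h' : Lf ρ β' φ') :
    Lf ρ (β * β') (φ * φ') := fun x => by
  rw [MulAut.mul_apply, h, h']
  rfl

theorem ellSt (hE : EdSt) (hX : XSt) (hN : NfSt) (hW : WinSt) : EllSt := by
  intro g h k j G _ r ρ hρ h5 hg hF k1 k2 k3 k4 H _ _ _ α
  obtain ⟨c, hc⟩ : ∃ c, Tp (pp ρ) c := by
    have h1 : ∀ p, ∃ c, p < 2 * g + 1 + 1 → pp ρ (io _ p) = tau c := fun p => by
      by_cases hp : p < 2 * g + 1 + 1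
      · obtain ⟨c, a, e⟩ := hρ.1 p hp
        exact ⟨c, fun _ => congrArg Wr.p e⟩
      · exact ⟨0, fun c => absurd c hp⟩
    choose c hc using h1
    exact ⟨c, hc⟩
  obtain ⟨i, γ, i1, i2, i3, i4⟩ := hN g h k j (pp ρ) c h5 hg k1 k2 k3 k4 hc hρ.2.1.1
  have hρ' := (hX G _ r ρ hρ).1 γ
  have t : ∀ (β : BL _) (φ : MulAut G), Lf ρ β.1 φ →
      Lf (ρ.comp γ.1.toMonoidHom) (γ⁻¹ * β * γ).1 φ := fun β φ e x => by
    refine Eq.trans (congrArg ρ ?_) (e (γ.1 x))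
    simp
  have i5 : Std h i (pp (ρ.comp γ.1.toMonoidHom)) := i3
  generalize ρ.comp γ.1.toMonoidHom = ρ' at hρ' t i5
  obtain ⟨ι, hι⟩ := hW G h _ i r ρ' hρ' i1 i2 i5
  obtain ⟨x, hx⟩ := hF H (α.comp ι)
  obtain ⟨W, hWd⟩ : ∃ W : MulAction.stabilizer (MulAut G) r → Equiv.Perm (Fin 3) → Prop,
      ∀ φ σ, W φ σ ↔ ∃ β ∈ Loc _ i (i + 2 * h + 1), ∃ u, Loc0 _ i (i + 2 * h + 1) β.1 u ∧
        Lf ρ' β.1 φ.1 ∧ pp ρ' u = σ := ⟨_, fun _ _ => Iff.rfl⟩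
  have a1 : ∀ φ, W φ 1 → α φ x = x := fun φ w => by
    obtain ⟨β, b1, u, b2, b3, b4⟩ := (hWd _ _).1 w
    obtain ⟨ψ, e⟩ := hι β u b1 b2 b4 (MonoidHom.ext (ell_pp b3))
    rw [show φ = ι ψ from Subtype.ext (MulEquiv.toMonoidHom_injective
      ((hX G _ r ρ' hρ').2.2 _ _ fun y => (b3 y).symm.trans (e y)))]
    exact hx ψ
  have a2 : ∀ φ σ, W φ σ → σ = 1 ∨ σ = tau 0 := fun φ σ w => by
    obtain ⟨β, -, u, b2, b3, rfl⟩ := (hWd _ _).1 w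
    have e := ell_pp b3 (io _ 0)
    rw [b2.2.1 0 (by omega), map_mul, map_mul, map_inv, i5.1 0 (by omega)] at e
    exact ((hE G).2.2.2.2.2 0 0).2.2 _ e
  have a3 : ∀ φ σ φ' σ', W φ σ → W φ' σ' → W (φ * φ') (σ' * σ) := fun φ σ φ' σ' w w' => by
    obtain ⟨β, b1, u, b2, b3, rfl⟩ := (hWd _ _).1 w
    obtain ⟨β', c1, u', c2, c3, rfl⟩ := (hWd _ _).1 w'
    exact (hWd _ _).2 ⟨β * β', mul_mem b1 c1, _, b2.mul c2, ell_mul b3 c3, by
      rw [map_mul, ell_pp b3]⟩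
  suffices ∃ y, ∀ φ σ, W φ σ → α φ y = y by
    obtain ⟨y, hy⟩ := this
    refine ⟨y, fun β hβ φ e => ?_⟩
    obtain ⟨u, hu⟩ := (i4 β hβ).1
    exact hy φ _ ((hWd _ _).2 ⟨_, i4 β hβ, u, hu, t β _ e, rfl⟩)
  by_cases c0 : ∃ φ0, W φ0 (tau 0)
  · obtain ⟨φ0, w0⟩ := c0
    have a4 : ∀ φ φ', W φ (tau 0) → W φ' (tau 0) → α φ (α φ' x) = x := fun φ φ' w w' => by
      have := a3 _ _ _ _ w w'
      rw [show tau 0 * tau 0 = 1 by decide] at this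
      have e := a1 _ this
      rwa [map_mul] at e
    have a5 : ∀ φ, W φ (tau 0) → α φ x = α φ0 x := fun φ w =>
      (α φ0).injective ((a4 _ _ w0 w).trans (a4 _ _ w0 w0).symm)
    refine ⟨midpoint ℂ x (α φ0 x), fun φ σ w => ?_⟩
    refine ((α φ).toAffineEquiv.map_midpoint _ _).trans ?_
    change midpoint ℂ (α φ x) (α φ (α φ0 x)) = _
    rcases a2 φ σ w with rfl | rfl
    · have e := a5 _ (mul_one (tau 0) ▸ a3 _ _ _ _ w w0)
      rw [map_mul] at e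
      rw [a1 φ w]
      exact congrArg _ e
    · rw [a5 φ w, a4 _ _ w w0, midpoint_comm]
  · exact ⟨x, fun φ σ w => (a2 φ σ w).elim (fun e => a1 φ (e ▸ w)) fun e => (c0 ⟨φ, e ▸ w⟩).elim⟩

end Pool.Agent.MW
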