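import Pool.Agent.Lib.MP_c86c76_al.Tg.St

/-!
The induced affine isometric action.
-/

set_option autoImplicit false

namespace Pool.Agent.MW

section

variable {T H : Type} [Fintype T] [NormedAddCommGroup H] [InnerProductSpace ℂ H]

/-- Permute the coordinates, then move each coordinate. -/
noncomputable def ind_eq (σ : T ≃ T) (g : T → (H ≃ᵃⁱ[ℂ] H)) :
    PiLp 2 (fun _ : T => H) ≃ᵃⁱ[ℂ] PiLp 2 (fun _ : T => H) :=
  AffineIsometryEquiv.mk' (fun v => WithLp.toLp 2 fun t => g t (v (σ t)))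
    ((LinearIsometryEquiv.piLpCongrLeft 2 ℂ H σ.symm).trans
      (LinearIsometryEquiv.piLpCongrRight 2 fun t => (g t).linearIsometryEquiv)) 0 (by
    intro v
    ext t
    have h := (g t).map_vadd 0 (v (σ t))
    simpa [LinearIsometryEquiv.piLpCongrLeft_apply, Equiv.piCongrLeft'] using h)

theorem ind_apply (σ : T ≃ T) (g : T → (H ≃ᵃⁱ[ℂ] H)) (v : PiLp 2 (fun _ : T => H)) (t : T) :
    ind_eq σ g v t = g t (v (σ t)) := rfl

end

theorem indSt : IndSt := by
  intro B G T _ _ _ act Φ h1 hm hΦ H _ _ _ α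
  classical
  have := Fintype.ofFinite T
  have hinv : ∀ t β, act (act t β) β⁻¹ = t := fun t β => by rw [← hm, mul_inv_cancel, h1]
  have hinv' : ∀ t β, act (act t β⁻¹) β = t := fun t β => by rw [← hm, inv_mul_cancel, h1]
  have hΦ1 : ∀ t, Φ t 1 = 1 := fun t => by
    have h := hΦ t 1 1
    rw [mul_one, h1] at h
    exact left_eq_mul.1 h
  have hΦi : ∀ t β, Φ (act t β) β⁻¹ = (Φ t β)⁻¹ := fun t β => by
    have h := hΦ t β β⁻¹
    rw [mul_inv_cancel, hΦ1] at h
    exact (inv_eq_of_mul_eq_one_right h.symm).symm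
  let σ : B → T ≃ T := fun β =>
    ⟨fun t => act t β, fun t => act t β⁻¹, fun t => hinv t β, fun t => hinv' t β⟩
  let a : B →* (PiLp 2 (fun _ : T => H) ≃ᵃⁱ[ℂ] PiLp 2 (fun _ : T => H)) :=
    MonoidHom.mk' (fun β => ind_eq (σ β) fun t => α (Φ t β)) (by
      intro β γ
      ext v t
      change α (Φ t (β * γ)) (v (act t (β * γ))) =
        α (Φ t β) (α (Φ (act t β) γ) (v (act (act t β) γ)))
      rw [hΦ, hm, map_mul]
      rfl)
  have ha : ∀ β v t, a β v t = α (Φ t β) (v (act t β)) := fun _ _ _ => rfl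
  refine ⟨PiLp 2 (fun _ : T => H), inferInstance, inferInstance, inferInstance, a,
    fun t v => v t, fun S hS => ?_, fun t β v h => ?_⟩
  · choose x hx using hS
    let s : Setoid T := ⟨fun t t' => ∃ β ∈ S, act t β = t', fun t => ⟨1, one_mem _, h1 t⟩,
      by
        rintro t _ ⟨β, hβ, rfl⟩
        exact ⟨β⁻¹, inv_mem hβ, hinv t β⟩,
      by
        rintro t _ _ ⟨β, hβ, rfl⟩ ⟨γ, hγ, rfl⟩
        exact ⟨β * γ, mul_mem hβ hγ, hm t β γ⟩⟩
    let r : T → T := fun t => (Quotient.mk s t).out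
    have hr : ∀ t, ∃ β ∈ S, act (r t) β = t := fun t => Quotient.mk_out (s := s) t
    have hr' : ∀ t, ∀ β ∈ S, r (act t β) = r t := fun t β hβ =>
      congrArg Quotient.out (Quotient.sound (s := s) ⟨β, hβ, rfl⟩).symm
    choose b hb hb' using hr
    refine ⟨WithLp.toLp 2 fun t => α (Φ (r t) (b t))⁻¹ (x (r t)), fun β hβ => ?_⟩
    ext t
    rw [ha]
    change α (Φ t β) (α (Φ (r (act t β)) (b (act t β)))⁻¹ (x (r (act t β)))) =
      α (Φ (r t) (b t))⁻¹ (x (r t))
    have e1 := hb' (act t β)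
    rw [hr' t β hβ] at e1 ⊢
    have e2 : act (r t) (b t * β) = act (r t) (b (act t β)) := by rw [hm, hb', e1]
    have e3 := hx (r t) (b t * β * (b (act t β))⁻¹)
      (mul_mem (mul_mem (hb t) hβ) (inv_mem (hb _))) (by rw [hm, e2, hinv])
    rw [hΦ, e2, hΦi, hΦ, hb'] at e3
    have e4 : Φ t β * (Φ (r t) (b (act t β)))⁻¹ =
        (Φ (r t) (b t))⁻¹ * (Φ (r t) (b t) * Φ t β * (Φ (r t) (b (act t β)))⁻¹) := by group
    have e5 : ∀ (g g' : G) (y : H), α g (α g' y) = α (g * g') y := fun g g' y => by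
      rw [map_mul]
      rfl
    rw [e5, e4, ← e5, e3]
  · have h2 := PiLp.norm_apply_le (a β v - v) t
    rwa [PiLp.sub_apply, ha, h] at h2

end Pool.Agent.MW
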