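import Pool.Agent.Lib.MP_c86c76_al.Tg.St

/-!
The group of the window acts on the surface.
-/

set_option autoImplicit false

namespace Pool.Agent.MW

open Pool.Agent.MB Pool.Agent.MG Pool.Agent.MA Pool.Agent.MT
open FreeGroup hiding map_mul map_inv map_one

section

variable {G : Type} [Group G] {m : ℕ}

theorem Iot_lift (f : ℕ → G) {p : ℕ} (h : p < m) : lift (fun j : Fin m => f j) (io m p) = f p := by
  rw [io, dif_pos h, lift_apply_of]

theorem Iot_big {p : ℕ} (h : m ≤ p) : io m p = 1 := dif_neg (by omega)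

theorem Iot_ext {f f' : FN m →* G} (h : ∀ p, p < m → f (io m p) = f' (io m p)) : f = f' :=
  FreeGroup.ext_hom _ _ fun j => by
    rw [← show io m j = of j from dif_pos j.2, h j j.2]

theorem Iot_in0 (h m i : ℕ) : inB h m i (io _ 0) = bl m 0 i :=
  Iot_lift (fun j => if j = 0 then bl m 0 i else io m (i + j - 1)) (by omega)

theorem Iot_in (h m i : ℕ) {j : ℕ} (hj : j ≤ 2 * h) : inB h m i (io _ (j + 1)) = io m (i + j) :=
  Iot_lift (fun j => if j = 0 then bl m 0 i else io m (i + j - 1)) (by omega)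

theorem Iot_bl (h m i : ℕ) {q : ℕ} (hq : q ≤ 2 * h + 1) :
    inB h m i (bl _ 0 (q + 1)) = bl m 0 (i + q) := by
  induction q with
  | zero => rw [bl_succ _ le_rfl, bl_self, one_mul, Iot_in0, add_zero]
  | succ q ih =>
    rw [bl_succ _ (Nat.zero_le _), map_mul, ih (by omega), Iot_in h m i (by omega), ← add_assoc,
      bl_succ _ (Nat.zero_le _)]

theorem Iot_W0 (h : ℕ) : rhoW h (io _ 0) = ⟨tau 0, ![1, wl (2 * h + 1) h (2 * h),
    io (2 * h + 1) (2 * h) * (wl (2 * h + 1) h (2 * h))⁻¹]⟩ := by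
  rw [io, dif_pos (by omega), rhoW, lift_apply_of]
  rfl

theorem Iot_W (h : ℕ) {j : ℕ} (hj : j ≤ 2 * h) : ∃ c g, rhoW h (io _ (j + 1)) = Ed c g := by
  rw [io, dif_pos (by omega), rhoW, lift_apply_of, if_neg (Nat.succ_ne_zero j)]
  split_ifs
  exacts [⟨_, _, rfl⟩, ⟨_, _, rfl⟩]

theorem Iot_map {G' G'' : Type} [Group G'] [Group G''] (f : G' →* G'') (f' : G →* G') (x : Wr G) :
    Wr.map f (Wr.map f' x) = Wr.map (f.comp f') x := rfl

theorem Iot_U0 (hG : GamSt) {h : ℕ} (ψ : Gam h) :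
    Wr.map (fb ψ) (rhoW h (io _ 0)) = Ub ψ * rhoW h (io _ 0) * (Ub ψ)⁻¹ := by
  rw [Iot_W0]
  refine Wr.ext (by simp [Ub]) (funext fun s => ?_)
  fin_cases s
  · simp [Ub, show tau 0 0 = 0 by decide]
  · simp [Ub, show tau 0 1 = 2 by decide]
  · simp [Ub, show tau 0 2 = 1 by decide, ((hG h).2.2.1 ψ).1, mul_assoc]

theorem Iot_Um (hG : GamSt) {h : ℕ} (ψ ψ' : Gam h) :
    Ub (ψ * ψ') = Wr.map (fb ψ) (Ub ψ') * Ub ψ := by
  refine Wr.ext (by simp [Ub]) (funext fun s => ?_)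
  fin_cases s <;> simp [Ub, (hG h).2.1 ψ ψ', mul_assoc]

theorem Iot_U1 (hG : GamSt) (h : ℕ) : Ub (1 : Gam h) = 1 := by
  refine Wr.ext rfl (funext fun s => ?_)
  fin_cases s <;> simp [Ub, (hG h).1]

theorem Iot_fix (hM : ModSt) (hG : GamSt) {h : ℕ} (ψ : Gam h) :
    Wr.map (fb ψ) (rhoW h (bl _ 0 (2 * h + 1 + 1))) = rhoW h (bl _ 0 (2 * h + 1 + 1)) := by
  refine Wr.ext rfl (funext fun s => ?_)
  fin_cases s
  · exact (congrArg _ (hM h).1.2.1).trans ((map_one _).trans (hM h).1.2.1.symm)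
  · exact (congrArg _ (hM h).1.2.2).trans ((map_one _).trans (hM h).1.2.2.symm)
  · exact (congrArg _ (hM h).2.1).trans (((hG h).2.2.1 ψ).2.trans (hM h).2.1.symm)

theorem Iot_pow {ρ : FN m →* Wr G} {q : ℕ} (h : ∀ p, p < q → ∃ g, ρ (io m p) = Ed 0 g) :
    (ρ (bl m 0 q)).p = tau 0 ^ q ∧ (ρ (bl m 0 q)).l 0 = 1 := by
  induction q with
  | zero => simp [bl_self]
  | succ q ih =>
    obtain ⟨g, e⟩ := h q q.lt_succ_self
    obtain ⟨a, b⟩ := ih fun p hp => h p (by omega)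
    rw [bl_succ _ (Nat.zero_le _), map_mul, e, Wr.mul_p, Wr.mul_l, a, pow_succ]
    exact ⟨rfl, by simp [Ed, show tau 0 0 = 0 by decide, b]⟩

theorem Iot_odd {q : ℕ} (h : q % 2 = 1) : tau 0 ^ q = tau 0 := by
  rw [← Nat.div_add_mod q 2, h, pow_succ, pow_mul, show tau 0 ^ 2 = 1 by decide, one_pow, one_mul]

theorem Iot_ks (hE : EdSt) (hM : ModSt) {h i : ℕ} {ρ : FN m →* Wr G} (hS : Sys ρ)
    (hi : i % 2 = 1) (hm : i + 2 * h + 1 ≤ m) (hs : Std h i (pp ρ)) :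
    ∃ (k : Wr G) (s : FN (2 * h + 1) →* G), k.p = 1 ∧
      (∀ x, ρ (inB h m i x) = k⁻¹ * Wr.map s (rhoW h x) * k) ∧
      ∀ f : G →* G, Wr.map f (ρ (bl m 0 (i + (2 * h + 1)))) = ρ (bl m 0 (i + (2 * h + 1))) →
        Wr.map f k = k := by
  have a0 : ∀ p c, p < m → pp ρ (io m p) = tau c → ∃ g, ρ (io m p) = Ed c g := fun p c hp e => by
    obtain ⟨c', g, e'⟩ := hS p hp
    obtain rfl : c' = c := ((hE G).2.2.2.2.2 c' c).1 ((congrArg Wr.p e').symm.trans e)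
    exact ⟨g, e'⟩
  have a1 : ∀ p, p < i + 2 * h → ∃ g, ρ (io m p) = Ed 0 g := fun p hp =>
    a0 p 0 (by omega) (hs.1 p hp)
  obtain ⟨g2, a2⟩ := a0 _ 2 (by omega) hs.2
  set W := ρ (bl m 0 (i + (2 * h + 1))) with hW
  have a3 : W.p = cyc := by
    rw [hW, ← add_assoc, bl_succ _ (Nat.zero_le _), map_mul, Wr.mul_p, (Iot_pow a1).1,
      Iot_odd (by omega), a2]
    rfl
  let k : Wr G := ⟨1, ![W.l 0, W.l 0 * W.l 1, 1]⟩
  have a4 : ∀ c g, ∃ g', k * Ed c g * k⁻¹ = Ed c g' := fun c g => ⟨_, (hE G).1 k c g⟩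
  obtain ⟨b1, b2⟩ := Iot_pow (ρ := ρ) (q := i) fun p hp => a1 p (by omega)
  have e : ∀ x, ((MulAut.conj k).toMonoidHom.comp (ρ.comp (inB h m i))) x =
      k * ρ (inB h m i x) * k⁻¹ := fun _ => rfl
  obtain ⟨s, hs⟩ := ((hM h).2.2 G).1 ((MulAut.conj k).toMonoidHom.comp (ρ.comp (inB h m i)))
    (by rw [e, Iot_in0]; simp [k, b1, Iot_odd hi])
    (by rw [e, Iot_in0]; simp [k, b1, b2, Iot_odd hi, show tau 0 0 = 0 by decide])
    (fun j h1 h2 => by
      obtain ⟨j, rfl⟩ := Nat.exists_eq_add_of_le' h1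
      obtain ⟨g, e'⟩ := a1 (i + j) (by omega)
      rw [e, Iot_in h m i (by omega), e']
      exact a4 _ _)
    (by rw [e, Iot_in h m i le_rfl, a2]; exact a4 _ _)
    (by
      rw [e, Iot_bl h m i le_rfl, ← hW]
      exact ⟨by simp [k, a3], by simp [k, a3, show cyc 0 = 2 by decide],
        by simp [k, a3, show cyc 1 = 0 by decide]⟩)
  refine ⟨k, s, rfl, fun x => by rw [← hs, e]; group, fun f hf => Wr.ext rfl (funext fun t => ?_)⟩
  have c : ∀ t, f (W.l t) = W.l t := fun t => congrArg (·.l t) hf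
  fin_cases t <;> simp [k, c]

end

theorem iotSt (hE : EdSt) (hX : XSt) (hM : ModSt) (hG : GamSt) : IotSt := by
  intro G _ h m i r ρ hρ hi hm hs
  obtain ⟨k, s, hk, hs, hf0⟩ := Iot_ks hE hM hρ.1 hi hm hs
  have win : ∀ p, i ≤ p → p < i + 2 * h + 1 → io m p = inB h m i (io _ (p - i + 1)) :=
    fun p h1 h2 => by rw [Iot_in h m i (by omega), Nat.add_sub_cancel' h1]
  let P : Gam h → (G →* G) → Prop := fun ψ f => f r = r ∧ (∀ x, f (s x) = s (fb ψ x)) ∧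
    Wr.map f k = k ∧ (∀ p, p < i → Wr.map f (ρ (io m p)) =
      (k⁻¹ * Wr.map s (Ub ψ) * k) * ρ (io m p) * (k⁻¹ * Wr.map s (Ub ψ) * k)⁻¹) ∧
    ∀ p, i + 2 * h + 1 ≤ p → Wr.map f (ρ (io m p)) = ρ (io m p)
  have cj : ∀ {ψ f}, P ψ f → ∀ x, Wr.map f (k⁻¹ * Wr.map s x * k) =
      k⁻¹ * Wr.map s (Wr.map (fb ψ) x) * k := fun {ψ f} a x => by
    rw [map_mul, map_mul, map_inv, a.2.2.1, Iot_map, Iot_map,
      show f.comp s = s.comp (fb ψ) from MonoidHom.ext a.2.1]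
  have uniq : ∀ {ψ f f'}, P ψ f → P ψ f' → f = f' := fun {ψ f f'} a a' =>
    (hX G m r ρ hρ).2.2 f f' (DFunLike.congr_fun (Iot_ext (f := (Wr.map f).comp ρ)
      (f' := (Wr.map f').comp ρ) fun p _ => by
        change Wr.map f (ρ _) = Wr.map f' (ρ _)
        rcases lt_or_ge p i with h1 | h1
        · rw [a.2.2.2.1 p h1, a'.2.2.2.1 p h1]
        rcases lt_or_ge p (i + 2 * h + 1) with h2 | h2
        · rw [win p h1 h2, hs, cj a, cj a']
        · rw [a.2.2.2.2 p h2, a'.2.2.2.2 p h2]))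
  have one : P 1 (MonoidHom.id G) := ⟨rfl, fun x => by rw [(hG h).1.1]; rfl, rfl, fun p _ => by
    rw [Iot_U1 hG, map_one, mul_one, inv_mul_cancel, one_mul, inv_one, mul_one]; rfl,
    fun _ _ => rfl⟩
  have mul : ∀ {ψ ψ' f f'}, P ψ f → P ψ' f' → P (ψ * ψ') (f.comp f') :=
    fun {ψ ψ' f f'} a a' => by
      refine ⟨(congrArg f a'.1).trans a.1, fun x => ?_, ?_, fun p hp => ?_, fun p hp => ?_⟩
      · rw [MonoidHom.comp_apply, a'.2.1, a.2.1, ((hG h).2.1 ψ ψ').1, MonoidHom.comp_apply]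
      · rw [← Iot_map, a'.2.2.1, a.2.2.1]
      · rw [← Iot_map, a'.2.2.2.1 p hp, map_mul, map_mul, map_inv, cj a, a.2.2.2.1 p hp,
          Iot_Um hG, map_mul]
        group
      · rw [← Iot_map, a'.2.2.2.2 p hp, a.2.2.2.2 p hp]
  have ex : ∀ ψ, ∃ f, P ψ f := fun ψ => by
    set V := k⁻¹ * Wr.map s (Ub ψ) * k with hV
    let F : ℕ → Wr G := fun p => if p < i then V * ρ (io m p) * V⁻¹ else if p < i + 2 * h + 1 then
      k⁻¹ * Wr.map s (Wr.map (fb ψ) (rhoW h (io _ (p - i + 1)))) * k else ρ (io m p)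
    let ρ' : FN m →* Wr G := lift fun j : Fin m => F j
    have a1 : ∀ p, p < i → ρ' (io m p) = V * ρ (io m p) * V⁻¹ := fun p hp =>
      (Iot_lift F (by omega)).trans (if_pos hp)
    have a2 : ∀ p, i ≤ p → p < i + 2 * h + 1 → ρ' (io m p) =
        k⁻¹ * Wr.map s (Wr.map (fb ψ) (rhoW h (io _ (p - i + 1)))) * k := fun p h1 h2 =>
      (Iot_lift F (by omega)).trans ((if_neg (by omega)).trans (if_pos h2))
    have a3 : ∀ p, i + 2 * h + 1 ≤ p → ρ' (io m p) = ρ (io m p) := fun p hp => by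
      rcases lt_or_ge p m with h1 | h1
      · exact (Iot_lift F h1).trans ((if_neg (by omega)).trans (if_neg (by omega)))
      · rw [Iot_big h1, map_one, map_one]
    have a4 : ∀ x, ρ' (inB h m i x) = k⁻¹ * Wr.map s (Wr.map (fb ψ) (rhoW h x)) * k := by
      have := Iot_ext (f := ρ'.comp (inB h m i)) (f' := (MulAut.conj k⁻¹).toMonoidHom.comp
        ((Wr.map s).comp ((Wr.map (fb ψ)).comp (rhoW h)))) fun p hp => by
          change ρ' (inB h m i _) = k⁻¹ * Wr.map s (Wr.map (fb ψ) (rhoW h _)) * k⁻¹⁻¹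
          rcases p with _ | p
          · rw [Iot_in0, bl_conj ρ' ρ V a1, ← Iot_in0 h, hs, Iot_U0 hG, hV, map_mul, map_mul,
              map_inv]
            group
          · rw [Iot_in h m i (by omega), a2 _ (by omega) (by omega), Nat.add_sub_cancel_left,
              inv_inv]
      exact fun x => (DFunLike.congr_fun this x).trans (by simp)
    have a5 : ∀ q, i + (2 * h + 1) ≤ q → ρ' (bl m 0 q) = ρ (bl m 0 q) := fun q hq => by
      induction q, hq using Nat.le_induction with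
      | base => rw [← Iot_bl h m i le_rfl, a4, hs, Iot_fix hM hG]
      | succ q hq ih => rw [bl_succ _ (Nat.zero_le _), map_mul, map_mul, ih, a3 q hq]
    obtain ⟨f, hf, -⟩ := hρ.2.2.2 ρ' (fun p hp => by
        rcases lt_or_ge p i with h1 | h1
        · obtain ⟨c, g, e⟩ := hρ.1 p hp
          exact ⟨_, _, by rw [a1 p h1, e, (hE G).1]⟩
        rcases lt_or_ge p (i + 2 * h + 1) with h2 | h2
        · obtain ⟨c, g, e⟩ := Iot_W h (j := p - i) (by omega)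
          refine ⟨_, _, Eq.trans ?_ ((hE G).1 k⁻¹ c (s (fb ψ g)))⟩
          rw [a2 p h1 h2, e, (hE _).2.2.2.1, (hE _).2.2.2.1, inv_inv]
        · exact a3 p h2 ▸ hρ.1 p hp)
      (Iot_ext fun p _ => by
        change (ρ' _).p = (ρ _).p
        rcases lt_or_ge p i with h1 | h1
        · simp [a1 p h1, hV, hk, Ub]
        rcases lt_or_ge p (i + 2 * h + 1) with h2 | h2
        · rw [win p h1 h2, a4, hs]
          rfl
        · rw [a3 p h2]) (a5 m hm ▸ hρ.2.1)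
    have a6 := hf0 f ((hf _).symm.trans (a5 _ le_rfl))
    refine ⟨f, ?_, DFunLike.congr_fun (((hM h).2.2 G).2 (f.comp s) (s.comp (fb ψ)) fun x => ?_),
      a6, fun p hp => (hf _).symm.trans (a1 p hp), fun p hp => (hf _).symm.trans (a3 p hp)⟩
    · rw [← hρ.2.2.1]
      exact congrArg (·.l 2) ((hf _).symm.trans (a5 m hm))
    · have := (hf _).symm.trans (a4 x)
      rw [hs, map_mul, map_mul, map_inv, a6] at this
      exact mul_left_cancel (mul_right_cancel this)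
  choose f hf using ex
  have inv : ∀ ψ ψ', ψ * ψ' = 1 → (f ψ).comp (f ψ') = MonoidHom.id G := fun ψ ψ' e =>
    uniq (mul (hf ψ) (hf ψ')) (e ▸ one)
  exact ⟨k, s, MonoidHom.mk' (fun ψ => ⟨MonoidHom.toMulEquiv (f ψ) (f ψ⁻¹)
      (inv _ _ (inv_mul_cancel ψ)) (inv _ _ (mul_inv_cancel ψ)), (hf ψ).1⟩)
    fun ψ ψ' => Subtype.ext (MulEquiv.ext fun x => (DFunLike.congr_fun
      (uniq (hf (ψ * ψ')) (mul (hf ψ) (hf ψ'))) x :)), hk, hs, fun ψ => (hf ψ).2⟩

end Pool.Agent.MW
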