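import Pool.Agent.Lib.MP_c86c76_al.Tg.St
import Pool.Agent.Lib.MP_c86c76_al.G.All

/-!
Every element of the stabiliser of the boundary word is the lift of a loop of the last point.
-/

set_option autoImplicit false

namespace Pool.Agent.MW

open Pool.Agent.MB Pool.Agent.MG Pool.Agent.MA Pool.Agent.MT
open FreeGroup hiding map_mul map_inv map_one

section Lifts

variable {G : Type} [Group G] {m : ℕ} {ρ : FN m →* Wr G}

theorem Nb_mul {β β' : MulAut (FN m)} {φ φ' : MulAut G} (h : Lf ρ β φ) (h' : Lf ρ β' φ') :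
    Lf ρ (β * β') (φ * φ') := fun x => by
  rw [MulAut.mul_apply, h, h']
  rfl

theorem Nb_one : Lf ρ 1 1 := fun _ => rfl

theorem Nb_inv {β : MulAut (FN m)} {φ : MulAut G} (h : Lf ρ β φ) : Lf ρ β⁻¹ φ⁻¹ := fun x => by
  have e := h (β⁻¹ x)
  rw [MulAut.apply_inv_self] at e
  rw [e]
  exact Wr.ext rfl (funext fun s => (φ.symm_apply_apply _).symm)

/-- The lifts of the members of a group of braids. -/
def Nb_grp (ρ : FN m →* Wr G) (S : Subgroup (BL m)) : Subgroup (MulAut G) where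
  carrier := {φ | ∃ β ∈ S, Lf ρ β.1 φ}
  one_mem' := ⟨1, one_mem _, Nb_one⟩
  mul_mem' := fun ⟨β, a, h⟩ ⟨β', a', h'⟩ => ⟨β * β', mul_mem a a', Nb_mul h h'⟩
  inv_mem' := fun ⟨β, a, h⟩ => ⟨β⁻¹, inv_mem a, Nb_inv h⟩

theorem Nb_braid {S : Subgroup (BL m)} {A B : MulAut G} (hA : A ∈ Nb_grp ρ S) (β : BL m)
    (hβ : ∀ γ ∈ S, β * γ * β⁻¹ ∈ S ∧ β⁻¹ * γ * β ∈ S) (hB : Lf ρ β.1 B⁻¹)
    (e : A * B * A = B * A * B) : B ∈ Nb_grp ρ S := by
  obtain ⟨γ, hγ, h⟩ := hA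
  have h1 : B * A * B⁻¹ ∈ Nb_grp ρ S :=
    ⟨_, (hβ γ hγ).2, by simpa using Nb_mul (Nb_mul (Nb_inv hB) h) hB⟩
  have h2 : A ∈ Nb_grp ρ S := ⟨γ, hγ, h⟩
  have h3 : B = A * (B * A * B⁻¹) * A⁻¹ := by
    rw [show A * (B * A * B⁻¹) * A⁻¹ = A * B * A * B⁻¹ * A⁻¹ by group, e]
    group
  rw [h3]
  exact mul_mem (mul_mem h2 h1) (inv_mem h2)

end Lifts

theorem nbSt (hS : SgSt) (hA : TwASt) (hB : TwBSt) (hR : BrdSt) : NbSt := by
  intro g φ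
  have kA : ∀ i A, 2 * i + 2 ≤ 2 * g → IsA (2 * g) i A → A ∈ Nb_grp (rho0 g) (FF (2 * g + 1)) :=
    fun i A hi h => by
      have h1 : MM (2 * g + 1) (2 * g - 1 - 2 * i) ∈ FF (2 * g + 1) :=
        Subgroup.subset_closure ⟨_, by omega, rfl⟩
      exact inv_mem_iff.1 (show A⁻¹ ∈ Nb_grp (rho0 g) (FF (2 * g + 1)) from
        ⟨_, pow_mem h1 2, hA g i A (by omega) h⟩)
  have kB : ∀ i B, 2 * i + 2 ≤ 2 * g → IsB (2 * g) i B → B ∈ Nb_grp (rho0 g) (FF (2 * g + 1)) :=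
    fun i B hi h => by
      obtain ⟨A, a⟩ := (((lickSt (2 * g)).2.1 i).1 hi).1
      obtain ⟨β, b⟩ := hS.1 (2 * g + 1 + 1) (2 * g - 2 - 2 * i) (by omega)
      exact Nb_braid (kA i A hi a) β (hS.2 _ _ β (by omega) b) ((hB g i B β).1 (by omega) h b)
        ((hR _ i A B 1).1 hi a h)
  have kC : ∀ i C, 2 * i + 4 ≤ 2 * g → IsC (2 * g) i C → C ∈ Nb_grp (rho0 g) (FF (2 * g + 1)) :=
    fun i C hi h => by
      obtain ⟨B, a⟩ := (((lickSt (2 * g)).2.1 i).1 (by omega)).2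
      obtain ⟨β, b⟩ := hS.1 (2 * g + 1 + 1) (2 * g - 3 - 2 * i) (by omega)
      exact Nb_braid (kB i B (by omega) a) β (hS.2 _ _ β (by omega) b)
        ((hB g i C β).2 (by omega) h b) ((hR _ i 1 B C).2 hi h a).symm
  have key : Subgroup.closure (Lick (2 * g)) ≤ Nb_grp (rho0 g) (FF (2 * g + 1)) := by
    rw [Subgroup.closure_le]
    rintro ψ ⟨i, ⟨hi, h | h⟩ | ⟨hi, h⟩⟩
    exacts [kA i ψ hi h, kB i ψ hi h, kC i ψ hi h]
  exact key (stab_eq g ▸ φ.2)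

end Pool.Agent.MW
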