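import Pool.Agent.Lib.MP_c86c76_al.Tg.St

/-!
Every small annulus lies in a standard window.
-/

set_option autoImplicit false

namespace Pool.Agent.MW

open Pool.Agent.MB Pool.Agent.MG Pool.Agent.MA Pool.Agent.MT

theorem nf_add (c : ℕ → Fin 3) (a b : ℕ) :
    tp c (a + b) = tp c a * tp (fun x => c (a + x)) b := by
  simp only [tp, List.range_add, List.map_append, List.prod_append, List.map_map]
  rfl

theorem nf_succ (c : ℕ → Fin 3) (a : ℕ) : tp c (a + 1) = tp c a * tau (c a) := by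
  simp [tp, List.range_succ]

theorem nf_const {c : ℕ → Fin 3} {t : Fin 3} {n : ℕ} (h : ∀ x, x < n → c x = t) :
    tp c n = if n % 2 = 1 then tau t else 1 := by
  induction n with
  | zero => rfl
  | succ n ih =>
    rw [nf_succ, ih fun x hx => h x (by omega), h n (by omega)]
    by_cases e : n % 2 = 1
    · rw [if_pos e, if_neg (by omega)]
      exact Equiv.swap_mul_self _ _
    · rw [if_neg e, if_pos (by omega), one_mul]

theorem nf_bl {m : ℕ} {π : FN m →* Equiv.Perm (Fin 3)} {c : ℕ → Fin 3} (h : Tp π c) {n : ℕ}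
    (hn : n ≤ m) : π (bl m 0 n) = tp c n := by
  induction n with
  | zero => rw [bl_self, map_one]; rfl
  | succ n ih => rw [bl_succ m (Nat.zero_le _), map_mul, ih (by omega), h n hn, nf_succ]

theorem nf_idx {g h k j : ℕ} (h1 : 5 ≤ h) (h2 : h ≤ g) (h3 : 1 ≤ k) (h5 : j ≤ k + 3)
    (h6 : j ≤ 2 * g + 1 + 1) : ∃ i l, i % 2 = 1 ∧ i + (2 * h + 1) + 2 * l = 2 * g + 1 + 1 ∧ i ≤ k ∧
      j ≤ i + (2 * h + 1) ∧ (i = 1 ∨ i + 3 ≤ k) ∧ (l = 0 ∨ j + 3 ≤ i + (2 * h + 1)) := by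
  by_cases e : g - h ≤ (k - 4) / 2
  · exact ⟨2 * (g - h) + 1, 0, by omega⟩
  · exact ⟨2 * ((k - 4) / 2) + 1, g - h - (k - 4) / 2, by omega⟩

theorem nfSt (hA : LcaSt) (hC : ClSt) (hR : ReSt) : NfSt := by
  intro g h k j π c h1 h2 h3 h4 h5 h6 hc hb
  obtain ⟨c₁, r₁, e₁⟩ := hC.2.1 0 k c
  obtain ⟨γ₁, m₁, t₁⟩ := (hR _ π c hc).1 0 k c₁ (by omega) r₁
  obtain ⟨c₂, r₂, e₂⟩ := hC.2.2.1 j (2 * g + 1 + 1) c₁
  obtain ⟨γ₂, m₂, t₂⟩ := (hR _ _ c₁ t₁).1 j _ c₂ le_rfl r₂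
  obtain ⟨i, l, i1, i2, i3, i4, i5, i6⟩ := nf_idx h1 h2 h3 h5 h6
  have k1 : ∀ x, x < i → c₂ x = c₂ 0 := fun x hx => by
    rcases i5 with rfl | e
    · rw [show x = 0 by omega]
    · rw [hC.1 _ _ _ _ r₂ x (by omega), hC.1 _ _ _ _ r₂ 0 (by omega)]
      exact e₁ x 0 (by omega) le_rfl (by omega) (by omega)
  have k2 : tp (fun x => c₂ (i - 1 + x)) (2 * h + 1 + 1) = cyc := by
    have a1 := nf_bl t₂ le_rfl
    have a2 : γ₁.1.toMonoidHom (γ₂.1.toMonoidHom (bl _ 0 (2 * g + 1 + 1))) = bl _ 0 _ :=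
      (congrArg _ γ₂.2.1).trans γ₁.2.1
    rw [MonoidHom.comp_apply, MonoidHom.comp_apply, a2, hb] at a1
    have a3 := nf_add c₂ (i + (2 * h + 1)) (2 * l)
    have a4 : tp (fun x => c₂ (i + (2 * h + 1) + x)) (2 * l) = 1 :=
      (nf_const (t := c₂ (i + (2 * h + 1))) fun x hx =>
        e₂ _ _ (by omega) (by omega) (by omega) (by omega)).trans (if_neg (by omega))
    have a5 : tp (fun x => c₂ (i - 1 + x)) 1 = tau (c₂ 0) :=
      (nf_const fun x hx => k1 _ (by omega)).trans (if_pos rfl)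
    rw [i2, ← a1, nf_add c₂ i, nf_const k1, if_pos i1, a4, mul_one] at a3
    rw [a3, add_comm _ 1, nf_add _ 1, a5]
    exact congrArg (fun f => tau (c₂ 0) * tp f (2 * h + 1))
      (funext fun x => congrArg c₂ (by omega))
  obtain ⟨d, r₃, e₃, e₄⟩ := hC.2.2.2 _ _ (by omega) (by omega) k2
  obtain ⟨γ₃, m₃, t₃⟩ := (hR _ _ c₂ t₂).2 i (2 * h + 1) d i1 (by omega) k1 r₃
  refine ⟨i, γ₁ * γ₂ * γ₃, i1, by omega, ⟨fun p hp => ?_, ?_⟩, fun β hβ => ?_⟩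
  · exact (t₃ p (by omega)).trans (congrArg tau (e₃ _ (by omega)))
  · exact (t₃ _ (by omega)).trans (congrArg tau ((congrArg d (by omega)).trans e₄))
  · obtain ⟨a1, -, a2⟩ := hA _ k j h4 h6
    have a3 : (γ₁ * γ₂ * γ₃)⁻¹ * β * (γ₁ * γ₂ * γ₃) = γ₃⁻¹ * β * γ₃ := by
      calc _ = γ₃⁻¹ * (γ₂⁻¹ * (γ₁⁻¹ * (β * γ₁)) * γ₂) * γ₃ := by group
        _ = _ := by
          rw [← a2 β hβ γ₁ (Or.inl m₁), inv_mul_cancel_left, mul_assoc γ₂⁻¹,
            ← a2 β hβ γ₂ (Or.inr m₂), inv_mul_cancel_left]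
    rw [a3]
    exact mul_mem (mul_mem (inv_mem m₃) (a1 _ _ i3 i4 hβ)) m₃

end Pool.Agent.MW
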