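import Pool.Agent.Lib.MP_c86c76_al.Tg.St

/-!
Moves of types come from braids.
-/

set_option autoImplicit false

namespace Pool.Agent.MW

open Pool.Agent.MB Pool.Agent.MG Pool.Agent.MA Pool.Agent.MT
open FreeGroup hiding map_mul map_inv map_one

theorem Re_tau (c c' : Fin 3) : tau c * tau c' * (tau c)⁻¹ = tau (-c - c') := by
  revert c c'
  decide

theorem Re_sq (c : Fin 3) : tau c ^ 2 = 1 := by
  revert c
  decide

theorem Re_S {m j : ℕ} {π : FN m →* Equiv.Perm (Fin 3)} {c : ℕ → Fin 3} {s : MulAut (FN m)}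
    (h : Tp π c) (hj : j + 1 < m) (hs : IsS m j s) : Tp (π.comp s.toMonoidHom) (Hw j c) := by
  intro x hx
  show π (s (io m x)) = _
  by_cases h1 : x = j
  · subst h1
    rw [hs.1, map_mul, map_mul, map_inv, h x hx, h (x + 1) hj, Re_tau]
    simp [Hw]
  · by_cases h2 : x = j + 1
    · subst h2
      rw [hs.2.1, h j (by omega)]
      simp [Hw]
    · rw [hs.2.2 x h1 h2, h x hx]
      simp [Hw, h1, h2]

theorem Re_bl {m : ℕ} {π : FN m →* Equiv.Perm (Fin 3)} {a : Fin 3} (k : ℕ)
    (h : ∀ p, p < k → π (io m p) = tau a) : π (bl m 0 k) = tau a ^ k := by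
  induction k with
  | zero => simp [bl_self]
  | succ k ih =>
    rw [bl_succ m (Nat.zero_le _), map_mul, ih fun p hp => h p (by omega), h k (by omega), pow_succ]

/-- The loop on types. -/
def ReJ (d : ℕ → Fin 3) : ℕ → Fin 3 :=
  fun x => if x = 0 then d 1 else if x = 1 then -d 0 - d 1 else d x

theorem Re_JJ (d : ℕ → Fin 3) : ReJ (ReJ d) = Hw 0 d := by
  funext x
  by_cases h0 : x = 0
  · simp [ReJ, Hw, h0]
  · by_cases h1 : x = 1
    · subst h1
      show -d 1 - (-d 0 - d 1) = d 0
      abel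
    · simp [ReJ, Hw, h0, h1]

theorem Re_J {m i : ℕ} {π : FN m →* Equiv.Perm (Fin 3)} {d : ℕ → Fin 3} {J : MulAut (FN m)}
    (h : Tp π fun x => d (x + 1 - i)) (hi : i % 2 = 1) (him : i < m) (hJ : IsJ m i J) :
    Tp (π.comp J.toMonoidHom) fun x => ReJ d (x + 1 - i) := by
  have h0 : ∀ p, p < i → π (io m p) = tau (d 0) := by
    intro p hp
    rw [h p (by omega)]
    simp only [show p + 1 - i = 0 by omega]
  have h1 : π (io m i) = tau (d 1) := by
    rw [h i him]
    simp only [show i + 1 - i = 1 by omega]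
  have hb : π (bl m 0 i) = tau (d 0) := by
    rw [Re_bl i h0, show i = 2 * (i / 2) + 1 by omega, pow_succ, pow_mul, Re_sq, one_pow, one_mul]
  have hw : π (bl m 0 i * io m i * (bl m 0 i)⁻¹) = tau (-d 0 - d 1) := by
    rw [map_mul, map_mul, map_inv, hb, h1, Re_tau]
  intro x hx
  show π (J (io m x)) = _
  rcases lt_trichotomy x i with hlt | rfl | hgt
  · rw [hJ.1 x hlt, map_mul, map_mul, map_inv, hw, h0 x hlt, Re_tau]
    simp only [show x + 1 - i = 0 by omega, ReJ, if_true]
    congr 1
    abel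
  · rw [hJ.2.1, hw]
    simp only [show x + 1 - x = 1 by omega]
    simp [ReJ]
  · rw [hJ.2.2 x hgt, h x hx]
    simp only [ReJ]
    rw [if_neg (by omega), if_neg (by omega)]

theorem Re_comp {m : ℕ} (π : FN m →* Equiv.Perm (Fin 3)) (β γ : BL m) :
    π.comp (β * γ).1.toMonoidHom = (π.comp β.1.toMonoidHom).comp γ.1.toMonoidHom := rfl

theorem reSt (_hE : EdSt) (hS : SgSt) (hA : LcaSt) (hB : LcbSt) : ReSt := by
  intro N π c hc
  refine ⟨fun p q c' hq hr => ?_, fun i q d' hi hq hc0 hr => ?_⟩
  · induction hr with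
    | refl => exact ⟨1, one_mem _, hc⟩
    | tail _ hstep ih =>
      obtain ⟨j, hp, hj, rfl⟩ := hstep
      obtain ⟨β, hβ, ht⟩ := ih
      obtain ⟨s, hs⟩ := hS.1 (N + 1) j (by omega)
      refine ⟨β * s, mul_mem hβ (Subgroup.subset_closure ⟨j, hp, hj, by omega, hs⟩), ?_⟩
      rw [Re_comp]
      exact Re_S ht (by omega) hs
  · induction hr with
    | refl =>
      refine ⟨1, one_mem _, fun x hx => ?_⟩
      show π (io _ x) = tau (c (i - 1 + (x + 1 - i)))
      rw [hc x hx]
      by_cases hxi : x < i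
      · rw [hc0 x hxi, hc0 (i - 1 + (x + 1 - i)) (by omega)]
      · rw [show i - 1 + (x + 1 - i) = x by omega]
    | @tail d _ _ hstep ih =>
      obtain ⟨j, -, hj, rfl⟩ := hstep
      obtain ⟨β, hβ, ht⟩ := ih
      by_cases h0 : j = 0
      · subst h0
        obtain ⟨η, h1, h2⟩ := hB N i (by omega)
        have hL := (hA (N + 1) i (i + 1) (by omega) (by omega)).1 i (i + q) le_rfl (by omega)
          (h1 i le_rfl (by omega))
        refine ⟨_, mul_mem (mul_mem hβ hL) hL, ?_⟩
        rw [Re_comp, Re_comp π β, ← Re_JJ]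
        exact Re_J (Re_J ht hi (by omega) h2) hi (by omega) h2
      · obtain ⟨s, hs⟩ := hS.1 (N + 1) (i - 1 + j) (by omega)
        have hL : s ∈ Loc (N + 1) i (i + q) :=
          (hA (N + 1) i (i + q) (by omega) hq).2.1
            (Subgroup.subset_closure ⟨i - 1 + j, by omega, by omega, by omega, hs⟩)
        refine ⟨β * s, mul_mem hβ hL, ?_⟩
        rw [Re_comp]
        have e : (fun x => Hw j d (x + 1 - i)) = Hw (i - 1 + j) fun x => d (x + 1 - i) := by
          funext x
          simp only [Hw]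
          by_cases a : x = i - 1 + j
          · rw [if_pos a, if_pos (by omega), show i - 1 + j + 1 - i = j by omega,
              show i - 1 + j + 1 + 1 - i = j + 1 by omega]
          · rw [if_neg a, if_neg (by omega)]
            by_cases b : x = i - 1 + j + 1
            · rw [if_pos b, if_pos (by omega), show i - 1 + j + 1 - i = j by omega]
            · rw [if_neg b, if_neg (by omega)]
        rw [e]
        exact Re_S ht (by omega) hs

end Pool.Agent.MW
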