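import Pool.Agent.Lib.MP_c86c76_al.Tg.St
import Pool.Agent.Lib.MP_c86c76_al.An.All

/-!
The assembly of the step.
-/

set_option autoImplicit false

namespace Pool.Agent.MW

open Pool.Agent.MB Pool.Agent.MG Pool.Agent.MA Pool.Agent.MT
open FreeGroup hiding map_mul map_inv map_one

theorem step_word {B H : Type} [Group B] [NormedAddCommGroup H] [InnerProductSpace ℂ H]
    (a : B →* (H ≃ᵃⁱ[ℂ] H)) (S : Set B) {β : B} (hβ : β ∈ Subgroup.closure S) :
    ∃ C : ℝ, 0 ≤ C ∧ ∀ v (δ : ℝ), (∀ s ∈ S, ‖a s v - v‖ ≤ δ) → 0 ≤ δ → ‖a β v - v‖ ≤ C * δ := by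
  induction hβ using Subgroup.closure_induction with
  | mem x hx => exact ⟨1, zero_le_one, fun v δ h _ => by simpa using h x hx⟩
  | one => exact ⟨0, le_rfl, fun v δ _ _ => by simp⟩
  | mul x y _ _ hx hy =>
    obtain ⟨C, c0, hC⟩ := hx
    obtain ⟨D, d0, hD⟩ := hy
    refine ⟨C + D, by positivity, fun v δ h h0 => ?_⟩
    have e : ‖a x (a y v) - a x v‖ = ‖a y v - v‖ := by
      rw [← dist_eq_norm, AffineIsometryEquiv.dist_map, dist_eq_norm]
    calc ‖a (x * y) v - v‖ = ‖(a x (a y v) - a x v) + (a x v - v)‖ := by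
          rw [map_mul, AffineIsometryEquiv.coe_mul, Function.comp_apply]; congr 1; abel
      _ ≤ ‖a y v - v‖ + ‖a x v - v‖ := by rw [← e]; exact norm_add_le _ _
      _ ≤ _ := by linarith [hC v δ h h0, hD v δ h h0]
  | inv x _ hx =>
    obtain ⟨C, c0, hC⟩ := hx
    refine ⟨C, c0, fun v δ h h0 => ?_⟩
    have e : a x (a x⁻¹ v) = v := by
      rw [← Function.comp_apply (f := a x), ← AffineIsometryEquiv.coe_mul, ← map_mul]; simp
    have : ‖a x⁻¹ v - v‖ = ‖a x v - v‖ := by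
      rw [← dist_eq_norm, ← (a x).dist_map, e, dist_comm, dist_eq_norm]
    rw [this]
    exact hC v δ h h0

theorem stepSt (hX : XSt) (hU : UnSt) (hA : LcaSt) (hB : LcbSt) (hE : EllSt) (hI : IndSt)
    (hN : NbSt) : StepSt := by
  intro g h h5 hg hF H _ _ _ α S ε hε
  classical
  let r := ev (2 * g) (rW g)
  let T := {π : FN (2 * g + 1 + 1) →* Equiv.Perm (Fin 3) //
    ∃ ρ : FN (2 * g + 1 + 1) →* Wr (FN (2 * g)), XX r ρ ∧ pp ρ = π}
  haveI : Finite (FN (2 * g + 1 + 1) →* Equiv.Perm (Fin 3)) := Finite.of_equiv _ FreeGroup.lift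
  let t0 : T := ⟨pp (rho0 g), rho0 g, hU g, rfl⟩
  obtain ⟨sec, hsec, h0⟩ : ∃ sec : T → (FN (2 * g + 1 + 1) →* Wr (FN (2 * g))),
      (∀ t, XX r (sec t) ∧ pp (sec t) = t.1) ∧ sec t0 = rho0 g := by
    refine ⟨fun t => if t = t0 then rho0 g else t.2.choose, fun t => ?_, if_pos rfl⟩
    by_cases e : t = t0
    · subst e
      simp only [if_pos]
      exact ⟨hU g, rfl⟩
    · simp only [if_neg e]
      exact t.2.choose_spec
  let act : T → BL (2 * g + 1 + 1) → T := fun t β =>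
    ⟨t.1.comp β.1.toMonoidHom, (sec t).comp β.1.toMonoidHom,
      (hX _ _ r _ (hsec t).1).1 β, by rw [← (hsec t).2]; rfl⟩
  have ex : ∀ (t : T) (β : BL (2 * g + 1 + 1)), ∃ φ : St g,
      ∀ x, sec t (β.1 x) = Wr.map φ.1.toMonoidHom (sec (act t β) x) := by
    intro t β
    obtain ⟨φ, a, b⟩ := (hX _ _ r _ (hsec (act t β)).1).2.1 _ ((hX _ _ r _ (hsec t).1).1 β)
      (by rw [(hsec _).2]; show _ = t.1.comp _; rw [← (hsec t).2]; rfl)
    exact ⟨⟨φ, a⟩, b⟩
  choose Φ hΦ using ex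
  have uq : ∀ (t : T) (φ φ' : St g), (∀ x, Wr.map φ.1.toMonoidHom (sec t x) =
      Wr.map φ'.1.toMonoidHom (sec t x)) → φ = φ' := fun t φ φ' e =>
    Subtype.ext (MulEquiv.toMonoidHom_injective ((hX _ _ r _ (hsec t).1).2.2 _ _ e))
  have am : ∀ t β γ, act t (β * γ) = act (act t β) γ := fun _ _ _ => rfl
  obtain ⟨H', _, _, _, a, e, hfix, hle⟩ := hI _ _ T act Φ (fun _ => rfl) am (fun t β γ =>
    uq (act t (β * γ)) _ _ fun x => by
      rw [← hΦ, Subgroup.coe_mul, MulAut.mul_apply, hΦ t β, hΦ (act t β) γ]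
      rfl) H α
  have key : ∀ k, 1 ≤ k → k ≤ 2 * g + 1 → ∃ x, ∀ l, k ≤ l → l ≤ 2 * g + 1 → l ≤ k + 2 →
      a (MM _ 0) x = a (MM _ l) x := by
    intro k k1 k2
    obtain ⟨v, hv⟩ := hfix (Loc _ k (min (k + 3) (2 * g + 1 + 1))) fun t => by
      obtain ⟨x, hx⟩ := hE g h k (min (k + 3) (2 * g + 1 + 1)) _ r (sec t) (hsec t).1 h5 hg hF k1
        (by omega) (by omega) (by omega) H α
      refine ⟨x, fun β hβ e => hx β hβ _ fun y => ?_⟩
      rw [hΦ t β, e]
    obtain ⟨η, hη, -⟩ := hB (2 * g + 1) k k2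
    refine ⟨a η v, fun l l1 l2 l3 => ?_⟩
    have := hv _ ((hA _ k (l + 1) (by omega) (by omega)).1 k _ le_rfl (by omega) (hη l l1 l2))
    have e2 : MM (2 * g + 1) 0 * η * (η⁻¹ * ((MM _ 0)⁻¹ * MM _ l) * η) = MM _ l * η := by group
    calc a (MM _ 0) (a η v) = a (MM _ 0 * η) (a (η⁻¹ * ((MM _ 0)⁻¹ * MM _ l) * η) v) := by
          rw [this, map_mul]; rfl
      _ = a (MM _ 0 * η * (η⁻¹ * ((MM _ 0)⁻¹ * MM _ l) * η)) v := by rw [map_mul a (_ * η)]; rfl
      _ = _ := by rw [e2, map_mul]; rfl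
  have main := brMain (N := 2 * g + 1) (by omega) a
    (fun k hk => by
      rcases Nat.eq_zero_or_pos k with rfl | k0
      · obtain ⟨x, hx⟩ := key 1 le_rfl (by omega)
        exact ⟨x, hx 1 le_rfl (by omega) (by omega)⟩
      · obtain ⟨x, hx⟩ := key k k0 (by omega)
        exact ⟨x, (hx k le_rfl (by omega) (by omega)).symm.trans
          (hx (k + 1) (by omega) (by omega) (by omega))⟩)
    (fun k hk => by
      rcases Nat.eq_zero_or_pos k with rfl | k0
      · obtain ⟨x, hx⟩ := key 1 le_rfl (by omega)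
        exact ⟨x, hx 2 (by omega) (by omega) (by omega)⟩
      · obtain ⟨x, hx⟩ := key k k0 (by omega)
        exact ⟨x, (hx k le_rfl (by omega) (by omega)).symm.trans
          (hx (k + 2) (by omega) (by omega) (by omega))⟩)
    (by
      obtain ⟨x, hx⟩ := key (2 * g + 1 - 1) (by omega) (by omega)
      exact ⟨x, hx _ le_rfl (by omega) (by omega)⟩)
    (by
      obtain ⟨x, hx⟩ := key (2 * g + 1) (by omega) le_rfl
      exact ⟨x, by simpa [MM_top] using hx _ le_rfl le_rfl (by omega)⟩)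
    (fun k k1 k2 => by
      obtain ⟨x, hx⟩ := key k k1 (by omega)
      exact ⟨x, hx k le_rfl (by omega) (by omega), hx (k + 1) (by omega) (by omega) (by omega)⟩)
  have wd : ∀ s : St g, ∃ C : ℝ, 0 ≤ C ∧ ∀ v (δ : ℝ),
      (∀ k, k ≤ 2 * g + 1 → ‖a (MM _ k) v - v‖ ≤ δ) → 0 ≤ δ → ‖α s (e t0 v) - e t0 v‖ ≤ C * δ := by
    intro s
    obtain ⟨β, hβ, hl⟩ := hN g s
    obtain ⟨C, c0, hC⟩ := step_word a _ hβ
    have e1 : act t0 β = t0 := Subtype.ext (MonoidHom.ext fun x => by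
      have := congrArg Wr.p (hl x)
      exact this)
    have e2 : Φ t0 β = s := uq t0 _ _ fun x => by
      have := hΦ t0 β x
      rw [e1] at this
      rw [← this, h0]
      exact hl x
    refine ⟨C, c0, fun v δ hv h0 => ?_⟩
    rw [← e2]
    exact (hle t0 β v e1).trans (hC v δ (by rintro _ ⟨k, hk, rfl⟩; exact hv k hk) h0)
  choose C c0 hC using wd
  have s0 : 0 ≤ ∑ s ∈ S, C s := Finset.sum_nonneg fun s _ => c0 s
  obtain ⟨v, hv⟩ := main (ε / (∑ s ∈ S, C s + 1)) (by positivity)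
  refine ⟨e t0 v, fun s hs => (hC s v _ (fun k hk => (hv k hk).le) (by positivity)).trans_lt ?_⟩
  have := Finset.single_le_sum (fun s _ => c0 s) hs
  rw [mul_div_assoc', div_lt_iff₀ (by positivity)]
  nlinarith

end Pool.Agent.MW
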