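import Pool.Agent.Lib.MP_c86c76_al.Tg.St

/-!
The twists about the curves `a_i` are lifts of squares of loops of the last point.
-/

set_option autoImplicit false

namespace Pool.Agent.MW

open Pool.Agent.MB Pool.Agent.MG Pool.Agent.MA Pool.Agent.MT
open FreeGroup hiding map_mul map_inv map_one

theorem twA_bl_cons (m : ℕ) {k l : ℕ} (h : k < l) : bl m k l = io m k * bl m (k + 1) l := by
  rw [bl, bl, show l - k = (l - (k + 1)) + 1 by omega, List.range'_succ]
  simp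

theorem twA_be_cons (n : ℕ) {g i : ℕ} (h : i < g) :
    be n g i = io n (2 * i + 1) * be n g (i + 1) := by
  rw [be, be, show g - i = (g - (i + 1)) + 1 by omega, List.range'_succ]
  simp

theorem twA_be_top (n : ℕ) {g i : ℕ} (h : g ≤ i) : be n g i = 1 := by
  rw [be, show g - i = 0 by omega]
  simp

theorem twA_wl_zero (n g : ℕ) : wl n g 0 = be n g 0 := by simp [wl]

theorem twA_wl_odd (n g l : ℕ) :
    wl n g (2 * l + 1) = io n (2 * l + 1) * (io n (2 * l))⁻¹ * be n g (l + 1) := by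
  rw [wl, if_neg (by omega), if_pos (by omega), show 2 * l + 1 - 1 = 2 * l by omega,
    show (2 * l + 1) / 2 = l by omega]

theorem twA_wl_even (n g l : ℕ) :
    wl n g (2 * l + 2) = (io n (2 * l))⁻¹ * be n g (l + 1) := by
  rw [wl, if_neg (by omega), if_neg (by omega), show 2 * l + 2 - 2 = 2 * l by omega,
    show (2 * l + 2) / 2 = l + 1 by omega]

theorem twA_rho_lo (g : ℕ) {p : ℕ} (h : p ≤ 2 * g) :
    rho0 g (io (2 * g + 1 + 1) p) = Ed 0 (wl (2 * g) g (2 * g - p)) := by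
  rw [io, dif_pos (by omega : p < 2 * g + 1 + 1), rho0, lift_apply_of, if_pos h]

theorem twA_rho_top (g : ℕ) : rho0 g (io (2 * g + 1 + 1) (2 * g + 1)) = Ed 2 1 := by
  rw [io, dif_pos (by omega : 2 * g + 1 < 2 * g + 1 + 1), rho0, lift_apply_of, if_neg (by simp)]

section Ed

variable {G : Type} [Group G]

theorem twA_tau00 : tau 0 0 = 0 := by decide
theorem twA_tau01 : tau 0 1 = 2 := by decide
theorem twA_tau02 : tau 0 2 = 1 := by decide
theorem twA_tau20 : tau 2 0 = 1 := by decide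
theorem twA_tau21 : tau 2 1 = 0 := by decide
theorem twA_tau22 : tau 2 2 = 2 := by decide
theorem twA_tau0_sq : tau 0 * tau 0 = 1 := by decide
theorem twA_tau2_sq : tau 2 * tau 2 = 1 := by decide
theorem twA_tau0_inv : (tau 0)⁻¹ = tau 0 := by decide
theorem twA_tau2_inv : (tau 2)⁻¹ = tau 2 := by decide

theorem twA_Ed_p (c : Fin 3) (u : G) : (Ed c u).p = tau c := rfl
theorem twA_Ed00 (u : G) : (Ed 0 u).l 0 = 1 := rfl
theorem twA_Ed01 (u : G) : (Ed 0 u).l 1 = u := rfl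
theorem twA_Ed02 (u : G) : (Ed 0 u).l 2 = u⁻¹ := rfl
theorem twA_Ed2 (s : Fin 3) : (Ed 2 (1 : G)).l s = 1 := by
  simp [Ed]

omit [Group G] in
theorem twA_wr_ext {x y : Wr G} (hp : x.p = y.p) (h0 : x.l 0 = y.l 0) (h1 : x.l 1 = y.l 1)
    (h2 : x.l 2 = y.l 2) : x = y :=
  Wr.ext hp (funext fun s => by fin_cases s <;> assumption)

theorem twA_map_Ed {G' : Type} [Group G'] (f : G →* G') (c : Fin 3) (u : G) :
    Wr.map f (Ed c u) = Ed c (f u) :=
  Wr.ext rfl (funext fun s => by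
    simp only [Wr.map_l, Ed]
    split_ifs <;> simp)

/-- The action of the square of the loop on an edge of the block. -/
theorem twA_conj_lo (Y : Wr G) (hp : Y.p = 1) (h0 : Y.l 0 = 1) (u : G) :
    (Y⁻¹ * Ed 2 1 * Y * Ed 2 1)⁻¹ * Ed 0 u * (Y⁻¹ * Ed 2 1 * Y * Ed 2 1) =
      Ed 0 (u * (Y.l 1)⁻¹) := by
  apply twA_wr_ext <;>
    simp [hp, h0, twA_Ed_p, twA_Ed2, twA_Ed00, twA_Ed01, twA_Ed02, twA_tau00, twA_tau01, twA_tau02,
      twA_tau20, twA_tau21, twA_tau22, twA_tau2_sq, twA_tau2_inv]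

/-- The action of the square of the loop on the last edge. -/
theorem twA_conj_top (Y : Wr G) (hp : Y.p = 1) (h0 : Y.l 0 = 1) :
    ((Y * Ed 2 1) * (Y * Ed 2 1))⁻¹ * Ed 2 1 * ((Y * Ed 2 1) * (Y * Ed 2 1)) = Ed 2 1 := by
  apply twA_wr_ext <;>
    simp [hp, h0, twA_Ed_p, twA_Ed2, twA_tau20, twA_tau21, twA_tau22, twA_tau2_sq, twA_tau2_inv]

end Ed

/-- The odd blocks at the end. -/
theorem twA_block (g : ℕ) : ∀ l, l ≤ g →
    (rho0 g (bl (2 * g + 1 + 1) (2 * g - 2 * l) (2 * g + 1))).p = tau 0 ∧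
    (rho0 g (bl (2 * g + 1 + 1) (2 * g - 2 * l) (2 * g + 1))).l 0 = 1 ∧
    (rho0 g (bl (2 * g + 1 + 1) (2 * g - 2 * l) (2 * g + 1))).l 1 = be (2 * g) g l := by
  intro l
  induction l with
  | zero =>
    intro _
    rw [twA_bl_cons _ (by omega), show 2 * g - 2 * 0 + 1 = 2 * g + 1 by omega, bl_self, mul_one,
      twA_rho_lo g (by omega), show 2 * g - (2 * g - 2 * 0) = 0 by omega, twA_wl_zero]
    exact ⟨rfl, rfl, rfl⟩
  | succ l ih =>
    intro hl
    obtain ⟨a, b, c⟩ := ih (by omega)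
    rw [twA_bl_cons _ (by omega), twA_bl_cons _ (by omega : 2 * g - 2 * (l + 1) + 1 < 2 * g + 1),
      show 2 * g - 2 * (l + 1) + 1 + 1 = 2 * g - 2 * l by omega, map_mul, map_mul,
      twA_rho_lo g (by omega), twA_rho_lo g (by omega),
      show 2 * g - (2 * g - 2 * (l + 1)) = 2 * l + 2 by omega,
      show 2 * g - (2 * g - 2 * (l + 1) + 1) = 2 * l + 1 by omega, twA_wl_even, twA_wl_odd]
    refine ⟨?_, ?_, ?_⟩
    · simp only [Wr.mul_p, twA_Ed_p, a, twA_tau0_sq, mul_one]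
    · simp only [Wr.mul_p, Wr.mul_l, twA_Ed_p, a, b, twA_tau0_sq, twA_tau00, twA_Ed00, mul_one,
        Equiv.Perm.coe_one, id]
    · simp only [Wr.mul_p, Wr.mul_l, twA_Ed_p, a, c, twA_tau0_sq, twA_tau01, twA_Ed01, twA_Ed02,
        Equiv.Perm.coe_one, id]
      rw [twA_be_cons _ (by omega : l < g)]
      group

/-- The even block. -/
theorem twA_even (g i : ℕ) (h : i < g) :
    (rho0 g (bl (2 * g + 1 + 1) (2 * g - 1 - 2 * i) (2 * g + 1))).p = 1 ∧
    (rho0 g (bl (2 * g + 1 + 1) (2 * g - 1 - 2 * i) (2 * g + 1))).l 0 = 1 ∧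
    (rho0 g (bl (2 * g + 1 + 1) (2 * g - 1 - 2 * i) (2 * g + 1))).l 1 =
      (be (2 * g) g (i + 1))⁻¹ * io (2 * g) (2 * i) * be (2 * g) g (i + 1) := by
  obtain ⟨a, b, c⟩ := twA_block g i h.le
  rw [twA_bl_cons _ (by omega), show 2 * g - 1 - 2 * i + 1 = 2 * g - 2 * i by omega, map_mul,
    twA_rho_lo g (by omega), show 2 * g - (2 * g - 1 - 2 * i) = 2 * i + 1 by omega, twA_wl_odd]
  refine ⟨?_, ?_, ?_⟩
  · simp only [Wr.mul_p, twA_Ed_p, a, twA_tau0_sq]
  · simp only [Wr.mul_l, a, b, twA_tau00, twA_Ed00, mul_one]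
  · simp only [Wr.mul_l, a, c, twA_tau01, twA_Ed02]
    rw [twA_be_cons _ h]
    group

section Phi

variable {n g i : ℕ} {φ : MulAut (FN n)}

theorem twA_be_hi (h : IsA n i φ) : ∀ d l, g ≤ l + d → i < l → φ (be n g l) = be n g l := by
  intro d
  induction d with
  | zero => intro l hl _; rw [twA_be_top n (by omega), map_one]
  | succ d ih =>
    intro l hl hi
    by_cases e : l < g
    · rw [twA_be_cons n e, map_mul, ih (l + 1) (by omega) (by omega), h.2 _ (by omega)]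
    · rw [twA_be_top n (by omega), map_one]

theorem twA_be_lo (h : IsA n i φ) (hi : i < g) : ∀ d l, l + d = i →
    φ (be n g l) = be n g l * ((be n g (i + 1))⁻¹ * io n (2 * i) * be n g (i + 1)) := by
  intro d
  induction d with
  | zero =>
    intro l hl
    obtain rfl : l = i := by omega
    rw [twA_be_cons n hi, map_mul, h.1, twA_be_hi h g (l + 1) (by omega) (by omega)]
    group
  | succ d ih =>
    intro l hl
    rw [twA_be_cons n (by omega : l < g), map_mul, ih (l + 1) (by omega), h.2 _ (by omega)]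
    group

theorem twA_wl_hi (h : IsA n i φ) {j : ℕ} (hj : 2 * i + 2 ≤ j) : φ (wl n g j) = wl n g j := by
  obtain ⟨l, rfl | rfl⟩ : ∃ l, j = 2 * l + 1 ∨ j = 2 * l + 2 := ⟨(j - 1) / 2, by omega⟩
  · rw [twA_wl_odd, map_mul, map_mul, map_inv, h.2 _ (by omega), h.2 _ (by omega),
      twA_be_hi h g (l + 1) (by omega) (by omega)]
  · rw [twA_wl_even, map_mul, map_inv, h.2 _ (by omega),
      twA_be_hi h g (l + 1) (by omega) (by omega)]

theorem twA_wl_lo (h : IsA n i φ) (hi : i < g) {j : ℕ} (hj : j ≤ 2 * i + 1) :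
    φ (wl n g j) = wl n g j * ((be n g (i + 1))⁻¹ * io n (2 * i) * be n g (i + 1)) := by
  obtain rfl | ⟨l, rfl | rfl⟩ : j = 0 ∨ ∃ l, j = 2 * l + 1 ∨ j = 2 * l + 2 := by
    by_cases e : j = 0
    · exact Or.inl e
    · exact Or.inr ⟨(j - 1) / 2, by omega⟩
  · rw [twA_wl_zero, twA_be_lo h hi i 0 (by omega)]
  · by_cases e : l = i
    · subst e
      rw [twA_wl_odd, map_mul, map_mul, map_inv, h.1, h.2 _ (by omega),
        twA_be_hi h g (l + 1) (by omega) (by omega)]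
      group
    · rw [twA_wl_odd, map_mul, map_mul, map_inv, h.2 _ (by omega), h.2 _ (by omega),
        twA_be_lo h hi (i - (l + 1)) (l + 1) (by omega)]
      group
  · rw [twA_wl_even, map_mul, map_inv, h.2 _ (by omega),
      twA_be_lo h hi (i - (l + 1)) (l + 1) (by omega)]
    group

theorem twA_inv_hi (h : IsA n i φ) {j : ℕ} (hj : 2 * i + 2 ≤ j) : φ⁻¹ (wl n g j) = wl n g j := by
  rw [MulAut.inv_def, MulEquiv.symm_apply_eq, twA_wl_hi h hj]

theorem twA_inv_lo (h : IsA n i φ) (hi : i < g) {j : ℕ} (hj : j ≤ 2 * i + 1) :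
    φ⁻¹ (wl n g j) = wl n g j * ((be n g (i + 1))⁻¹ * io n (2 * i) * be n g (i + 1))⁻¹ := by
  rw [MulAut.inv_def, MulEquiv.symm_apply_eq, map_mul, twA_wl_lo h hi hj, map_inv, map_mul,
    map_mul, map_inv, twA_be_hi h g (i + 1) (by omega) (by omega), h.2 _ (by omega)]
  group

end Phi

section Loop

variable {N k : ℕ} {β : MulAut (FN (N + 1))}

theorem twA_M_bl (h : IsM N k β) : ∀ l, k ≤ l → l ≤ N →
    β (bl (N + 1) k l) = (io (N + 1) N)⁻¹ * bl (N + 1) k l * io (N + 1) N := by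
  intro l hl
  induction l, hl using Nat.le_induction with
  | base => intro _; simp [bl_self]
  | succ l hl ih =>
    intro hN
    rw [bl_succ _ hl, map_mul, ih (by omega), h.2.1 l hl (by omega)]
    group

theorem twA_M_sq (h : IsM N k β) (hk : k ≤ N) :
    (∀ p, p < k → (β ^ 2) (io (N + 1) p) = io (N + 1) p) ∧
    (∀ p, k ≤ p → p < N → (β ^ 2) (io (N + 1) p) =
      ((bl (N + 1) k N)⁻¹ * io (N + 1) N * bl (N + 1) k N * io (N + 1) N)⁻¹ * io (N + 1) p *
        ((bl (N + 1) k N)⁻¹ * io (N + 1) N * bl (N + 1) k N * io (N + 1) N)) ∧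
    (β ^ 2) (io (N + 1) N) =
      ((bl (N + 1) k N * io (N + 1) N) * (bl (N + 1) k N * io (N + 1) N))⁻¹ * io (N + 1) N *
        ((bl (N + 1) k N * io (N + 1) N) * (bl (N + 1) k N * io (N + 1) N)) := by
  refine ⟨fun p hp => ?_, fun p h1 h2 => ?_, ?_⟩
  · rw [pow_two, MulAut.mul_apply, h.1 p hp, h.1 p hp]
  · rw [pow_two, MulAut.mul_apply, h.2.1 p h1 h2, map_mul, map_mul, map_inv, h.2.1 p h1 h2, h.2.2]
    group
  · rw [pow_two, MulAut.mul_apply, h.2.2]
    simp only [map_mul, map_inv]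
    rw [twA_M_bl h N hk le_rfl, h.2.2]
    group

end Loop

theorem twASt (_hE : EdSt) (_hW : WlSt) : TwASt := by
  intro g i φ hi h
  obtain ⟨m1, m2, m3⟩ := twA_M_sq (MM_isM (N := 2 * g + 1) (k := 2 * g - 1 - 2 * i) (by omega))
    (by omega)
  obtain ⟨a, b, c⟩ := twA_even g i hi
  have key : (rho0 g).comp ((MM (2 * g + 1) (2 * g - 1 - 2 * i)).1 ^ 2).toMonoidHom =
      (Wr.map (φ⁻¹).toMonoidHom).comp (rho0 g) := by
    apply FreeGroup.ext_hom
    intro j
    change rho0 g (((MM (2 * g + 1) (2 * g - 1 - 2 * i)).1 ^ 2) (of j)) =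
      Wr.map (φ⁻¹).toMonoidHom (rho0 g (of j))
    rw [← show io (2 * g + 1 + 1) j = of j from dif_pos j.2]
    by_cases h1 : (j : ℕ) < 2 * g - 1 - 2 * i
    · rw [m1 _ h1, twA_rho_lo g (by omega), twA_map_Ed]
      exact congrArg (Ed 0) (twA_inv_hi h (by omega)).symm
    · by_cases h2 : (j : ℕ) < 2 * g + 1
      · rw [m2 _ (by omega) h2]
        simp only [map_mul, map_inv]
        rw [twA_rho_top, twA_rho_lo g (by omega), twA_map_Ed, twA_conj_lo _ a b, c]
        exact congrArg (Ed 0) (twA_inv_lo h hi (by omega)).symm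
      · have e : (j : ℕ) = 2 * g + 1 := by omega
        rw [e, m3]
        simp only [map_mul, map_inv]
        rw [twA_rho_top, twA_map_Ed, map_one, twA_conj_top _ a b]
  exact fun x => DFunLike.congr_fun key x

end Pool.Agent.MW
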