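import Pool.Agent.Lib.MP_c86c76_al.Tg.St

/-!
The twists about `b_i` and about the joining curves are lifts of half twists; braid relations.
-/

set_option autoImplicit false

namespace Pool.Agent.MW

open Pool.Agent.MB Pool.Agent.MG Pool.Agent.MA Pool.Agent.MT
open FreeGroup hiding map_mul map_inv map_one

theorem twB_of {m : ℕ} (i : Fin m) : (of i : FN m) = io m i := by
  rw [io, dif_pos i.2]

theorem twB_ext {n : ℕ} {φ ψ : MulAut (FN n)} (h : ∀ x, φ (io n x) = ψ (io n x)) : φ = ψ :=
  br_ext fun j => by rw [twB_of, h]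

theorem twB_conj {G : Type} [Group G] (u v : G) :
    Ed 0 u * Ed 0 v * (Ed 0 u)⁻¹ = Ed 0 (u * v⁻¹ * u) := by
  refine Wr.ext ?_ (funext fun s => ?_)
  · simp [Ed]
  · fin_cases s <;> simp [Ed, tau, Equiv.swap_apply_def, mul_assoc]

theorem twB_map {G G' : Type} [Group G] [Group G'] (f : G →* G') (c : Fin 3) (g : G) :
    Wr.map f (Ed c g) = Ed c (f g) := by
  refine Wr.ext rfl (funext fun s => ?_)
  simp only [Wr.map_l, Ed]
  split_ifs <;> simp

theorem twB_rho (g : ℕ) {p : ℕ} (h : p ≤ 2 * g) :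
    rho0 g (io _ p) = Ed 0 (wl (2 * g) g (2 * g - p)) := by
  rw [io, dif_pos (by omega : p < 2 * g + 1 + 1), rho0, lift_apply_of, if_pos h]

theorem twB_last (g : ℕ) : rho0 g (io _ (2 * g + 1)) = Ed 2 1 := by
  rw [io, dif_pos (by omega : 2 * g + 1 < 2 * g + 1 + 1), rho0, lift_apply_of,
    if_neg (by simp)]

theorem twB_core (g j p : ℕ) (φ : MulAut (FN (2 * g))) (β : MulAut (FN (2 * g + 1 + 1)))
    (hp : p + j + 1 = 2 * g) (h1 : φ (wl _ g (j + 1)) = wl _ g j)
    (h2 : φ (wl _ g j) = wl _ g j * (wl _ g (j + 1))⁻¹ * wl _ g j)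
    (h3 : ∀ l, l ≤ 2 * g → l ≠ j → l ≠ j + 1 → φ (wl _ g l) = wl _ g l) (hβ : IsS _ p β) :
    Lf (rho0 g) β φ⁻¹ := by
  have inv : ∀ x y, φ x = y → φ⁻¹.toMonoidHom y = x := fun x y e => by
    rw [← e]
    exact φ.symm_apply_apply x
  have e1 : rho0 g (io _ p) = Ed 0 (wl _ g (j + 1)) := by
    rw [twB_rho g (by omega), show 2 * g - p = j + 1 by omega]
  have e2 : rho0 g (io _ (p + 1)) = Ed 0 (wl _ g j) := by
    rw [twB_rho g (by omega), show 2 * g - (p + 1) = j by omega]
  have key : (rho0 g).comp β.toMonoidHom = (Wr.map φ⁻¹.toMonoidHom).comp (rho0 g) := by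
    refine FreeGroup.ext_hom _ _ fun x => ?_
    show rho0 g (β (of x)) = Wr.map φ⁻¹.toMonoidHom (rho0 g (of x))
    rw [twB_of]
    have hx := x.2
    by_cases a : (x : ℕ) = p
    · rw [a, hβ.1, map_mul, map_mul, map_inv, e1, e2, twB_conj, twB_map]
      refine congrArg _ (inv _ _ ?_).symm
      rw [map_mul, map_mul, map_inv, h1, h2]
      group
    by_cases b : (x : ℕ) = p + 1
    · rw [b, hβ.2.1, e1, e2, twB_map, inv _ _ h1]
    rw [hβ.2.2 x a b]
    by_cases c : (x : ℕ) ≤ 2 * g
    · rw [twB_rho g c, twB_map, inv _ _ (h3 _ (by omega) (by omega) (by omega))]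
    · rw [show (x : ℕ) = 2 * g + 1 by omega, twB_last, twB_map, map_one]
  exact fun x => DFunLike.congr_fun key x

theorem twB_be (n : ℕ) {g l : ℕ} (h : l < g) : be n g l = io n (2 * l + 1) * be n g (l + 1) := by
  rw [be, be, show g - l = (g - (l + 1)) + 1 by omega, List.range'_succ, List.map_cons,
    List.prod_cons]

theorem twB_fix {n g l : ℕ} (φ : MulAut (FN n))
    (h : ∀ j, l ≤ j → φ (io n (2 * j + 1)) = io n (2 * j + 1)) : φ (be n g l) = be n g l := by
  rw [be, map_list_prod, List.map_map]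
  refine congrArg _ (List.map_congr_left fun j hj => h j ?_)
  exact (List.mem_range'_1.1 hj).1

theorem twB_odd (n g k : ℕ) :
    wl n g (2 * k + 1) = io n (2 * k + 1) * (io n (2 * k))⁻¹ * be n g (k + 1) := by
  rw [wl, if_neg (by omega), if_pos (by omega), show (2 * k + 1) / 2 = k by omega]
  rfl

theorem twB_even (n g k : ℕ) : wl n g (2 * k + 1 + 1) = (io n (2 * k))⁻¹ * be n g (k + 1) := by
  rw [wl, if_neg (by omega), if_neg (by omega), show (2 * k + 1 + 1) / 2 = k + 1 by omega]
  rfl

theorem twB_cases (l : ℕ) : l = 0 ∨ (∃ k, l = 2 * k + 1) ∨ ∃ k, l = 2 * k + 1 + 1 := by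
  by_cases h : l = 0
  · exact Or.inl h
  by_cases h' : l % 2 = 1
  · exact Or.inr (Or.inl ⟨l / 2, by omega⟩)
  · exact Or.inr (Or.inr ⟨l / 2 - 1, by omega⟩)

theorem twBSt (_hE : EdSt) : TwBSt := by
  intro g i φ β
  refine ⟨fun hi h hβ => ?_, fun hi h hβ => ?_⟩
  · have hb : ∀ k, φ (io _ (2 * k + 1)) = io _ (2 * k + 1) := fun k => h.2 _ (by omega)
    have he : ∀ l, φ (be _ g l) = be _ g l := fun l => twB_fix φ fun k _ => hb k
    refine twB_core g (2 * i + 1) _ φ β (by omega) ?_ ?_ (fun l _ a b => ?_) hβ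
    · rw [twB_even, twB_odd, map_mul, map_inv, h.1, he]
      group
    · rw [twB_even, twB_odd, map_mul, map_mul, map_inv, h.1, he, hb]
      group
    · rcases twB_cases l with rfl | ⟨k, rfl⟩ | ⟨k, rfl⟩
      · exact he 0
      · rw [twB_odd, map_mul, map_mul, map_inv, he, hb, h.2 (2 * k) (by omega)]
      · rw [twB_even, map_mul, map_inv, he, h.2 (2 * k) (by omega)]
  · obtain ⟨c3, c0, c1, cr⟩ := h
    have hi2 : ∀ l, i + 2 ≤ l → φ (be _ g l) = be _ g l := fun l hl =>
      twB_fix φ fun k hk => cr _ (by omega) (by omega) (by omega)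
    have s1 : be (2 * g) g (i + 1) = io _ (2 * i + 3) * be _ g (i + 2) := twB_be _ hi
    have h1 : φ (be _ g (i + 1)) = (cc _ i)⁻¹ * be _ g (i + 1) := by
      rw [s1, map_mul, c3, hi2 _ le_rfl, mul_assoc]
    have h0 : ∀ d l, l + d = i → φ (be _ g l) = be _ g l := by
      intro d
      induction d with
      | zero =>
        rintro l rfl
        rw [twB_be _ (by omega), map_mul]
        simp only [Nat.add_zero] at h1 c1
        rw [h1, c1]
        group
      | succ d ih =>
        intro l hl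
        rw [twB_be _ (by omega), map_mul, ih (l + 1) (by omega),
          cr _ (by omega) (by omega) (by omega)]
    have he : ∀ l, l ≠ i + 1 → φ (be _ g l) = be _ g l := fun l hl => by
      by_cases q : l ≤ i
      · exact h0 (i - l) l (by omega)
      · exact hi2 l (by omega)
    have o3 : wl (2 * g) g (2 * i + 1 + 1 + 1) =
        io _ (2 * i + 3) * (io _ (2 * i + 2))⁻¹ * be _ g (i + 2) := twB_odd _ g (i + 1)
    refine twB_core g (2 * i + 1 + 1) _ φ β (by omega) ?_ ?_ (fun l _ a b => ?_) hβ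
    · rw [o3, twB_even, map_mul, map_mul, map_inv, c3, hi2 _ le_rfl,
        cr (2 * i + 2) (by omega) (by omega) (by omega), s1, cc]
      group
    · rw [o3, twB_even, map_mul, map_inv, c0, h1, s1, cc]
      group
    · rcases twB_cases l with rfl | ⟨k, rfl⟩ | ⟨k, rfl⟩
      · exact he 0 (by omega)
      · by_cases q : k = i
        · rw [q, twB_odd, map_mul, map_mul, map_inv, c0, c1, h1]
          group
        · rw [twB_odd, map_mul, map_mul, map_inv, he _ (by omega),
            cr (2 * k) (by omega) (by omega) (by omega),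
            cr (2 * k + 1) (by omega) (by omega) (by omega)]
      · rw [twB_even, map_mul, map_inv, he _ (by omega),
          cr (2 * k) (by omega) (by omega) (by omega)]

theorem brdSt : BrdSt := by
  intro n i A B C
  refine ⟨fun _ hA hB => twB_ext fun x => ?_, fun _ hC hB => twB_ext fun x => ?_⟩
  · have a0 := hA.2 (2 * i) (by omega)
    have b1 := hB.2 (2 * i + 1) (by omega)
    simp only [MulAut.mul_apply]
    by_cases p : x = 2 * i
    · simp only [p, a0, b1, hA.1, hB.1, map_mul, map_inv]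
      group
    by_cases q : x = 2 * i + 1
    · simp only [q, a0, b1, hA.1, hB.1, map_mul, map_inv]
      group
    · simp only [hA.2 x q, hB.2 x p]
  · obtain ⟨c3, c0, c1, cr⟩ := hC
    have c2 := cr (2 * i + 2) (by omega) (by omega) (by omega)
    have b1 := hB.2 (2 * i + 1) (by omega)
    have b2 := hB.2 (2 * i + 2) (by omega)
    have b3 := hB.2 (2 * i + 3) (by omega)
    have cC : C (cc n i) = cc n i := by
      conv_lhs => rw [cc]
      simp only [map_mul, map_inv, c0, c2, c3]
      rw [cc]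
      group
    have cB : B (cc n i) = cc n i * (io n (2 * i + 1))⁻¹ := by
      simp only [cc, map_mul, map_inv, hB.1, b2, b3, mul_assoc]
    simp only [MulAut.mul_apply]
    by_cases p : x = 2 * i
    · simp only [p, c0, c1, cC, cB, b1, hB.1, map_mul, map_inv]
      group
    by_cases q : x = 2 * i + 1
    · simp only [q, c1, cC, cB, b1, map_mul, map_inv]
      group
    by_cases r : x = 2 * i + 3
    · simp only [r, c1, c3, cC, cB, b1, b3, map_mul, map_inv]
      group
    · simp only [cr x p q r, hB.2 x p]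

end Pool.Agent.MW
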