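import Pool.Agent.Lib.MP_c86c76_al.Tg.Ed
import Pool.Agent.Lib.MP_c86c76_al.Tg.Wl
import Pool.Agent.Lib.MP_c86c76_al.Tg.Un
import Pool.Agent.Lib.MP_c86c76_al.Tg.TwA
import Pool.Agent.Lib.MP_c86c76_al.Tg.TwB
import Pool.Agent.Lib.MP_c86c76_al.Tg.Sg
import Pool.Agent.Lib.MP_c86c76_al.Tg.Lca
import Pool.Agent.Lib.MP_c86c76_al.Tg.Lcb
import Pool.Agent.Lib.MP_c86c76_al.Tg.Cl
import Pool.Agent.Lib.MP_c86c76_al.Tg.Re
import Pool.Agent.Lib.MP_c86c76_al.Tg.Nf
import Pool.Agent.Lib.MP_c86c76_al.Tg.Gam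
import Pool.Agent.Lib.MP_c86c76_al.Tg.Iot
import Pool.Agent.Lib.MP_c86c76_al.Tg.Lift
import Pool.Agent.Lib.MP_c86c76_al.Tg.Win
import Pool.Agent.Lib.MP_c86c76_al.Tg.Ell
import Pool.Agent.Lib.MP_c86c76_al.Tg.Ind
import Pool.Agent.Lib.MP_c86c76_al.Tg.Nb
import Pool.Agent.Lib.MP_c86c76_al.Tg.Step

/-!
All statements of the trigonal block, without hypotheses.
-/

set_option autoImplicit false

namespace Pool.Agent.MW

theorem xAll : XSt := xSt edSt
theorem unAll : UnSt := unSt edSt wlSt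
theorem modAll : ModSt := modSt edSt wlSt
theorem twAAll : TwASt := twASt edSt wlSt
theorem twBAll : TwBSt := twBSt edSt
theorem reAll : ReSt := reSt edSt sgSt lcaSt lcbSt
theorem nfAll : NfSt := nfSt lcaSt clSt reAll
theorem iotAll : IotSt := iotSt edSt xAll modAll gamSt
theorem liftAll : LiftSt := liftSt edSt modAll gamSt
theorem winAll : WinSt := winSt edSt modAll iotAll liftAll
theorem ellAll : EllSt := ellSt edSt xAll nfAll winAll
theorem nbAll : NbSt := nbSt sgSt twAAll twBAll brdSt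

/-- The step: fixed points for the window group give almost fixed points in every larger genus. -/
theorem step : StepSt := stepSt xAll unAll lcaSt lcbSt ellAll indSt nbAll

end Pool.Agent.MW
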