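import Pool.Agent.Lib.MP_c86c76_al.An.Br
import Pool.Agent.Lib.MP_c86c76_al.T.Surf

/-!
Triple covers of the disc with simple branch points: marked systems, local braids, windows.
Definitions and statements.
-/

set_option autoImplicit false

namespace Pool.Agent.MW

open Pool.Agent.MB Pool.Agent.MG Pool.Agent.MA Pool.Agent.MT
open FreeGroup hiding map_mul map_inv map_one

/-- Every affine isometric action has a fixed point. -/
def FH (G : Type) [Group G] : Prop :=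
  ∀ (H : Type) [NormedAddCommGroup H] [InnerProductSpace ℂ H] [CompleteSpace H]
    (α : G →* (H ≃ᵃⁱ[ℂ] H)), ∃ x, ∀ g, α g x = x

/-- Every affine isometric action has almost fixed points. -/
def AFP (G : Type) [Group G] : Prop :=
  ∀ (H : Type) [NormedAddCommGroup H] [InnerProductSpace ℂ H] [CompleteSpace H]
    (α : G →* (H ≃ᵃⁱ[ℂ] H)) (S : Finset G) (ε : ℝ), 0 < ε → ∃ x, ∀ s ∈ S, ‖α s x - x‖ < ε

/-- The group of the surface of genus `h` with two boundary circles. -/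
abbrev Gam (h : ℕ) : Subgroup (MulAut (FN (2 * (h + 1)))) :=
  St (h + 1) ⊓ MulAction.stabilizer (MulAut (FN (2 * (h + 1)))) (io (2 * (h + 1)) (2 * (h + 1) - 2))

/-- The wreath product with the symmetric group on three sheets. -/
@[ext] structure Wr (G : Type) : Type where
  p : Equiv.Perm (Fin 3)
  l : Fin 3 → G

section Wreath

variable {G G' : Type} [Group G] [Group G']

instance : Mul (Wr G) := ⟨fun x y => ⟨x.p * y.p, fun s => x.l (y.p s) * y.l s⟩⟩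
instance : One (Wr G) := ⟨⟨1, fun _ => 1⟩⟩
instance : Inv (Wr G) := ⟨fun x => ⟨x.p⁻¹, fun s => (x.l (x.p⁻¹ s))⁻¹⟩⟩

@[simp] theorem Wr.mul_p (x y : Wr G) : (x * y).p = x.p * y.p := rfl
@[simp] theorem Wr.mul_l (x y : Wr G) (s : Fin 3) : (x * y).l s = x.l (y.p s) * y.l s := rfl
@[simp] theorem Wr.one_p : (1 : Wr G).p = 1 := rfl
@[simp] theorem Wr.one_l (s : Fin 3) : (1 : Wr G).l s = 1 := rfl
@[simp] theorem Wr.inv_p (x : Wr G) : x⁻¹.p = x.p⁻¹ := rfl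
@[simp] theorem Wr.inv_l (x : Wr G) (s : Fin 3) : x⁻¹.l s = (x.l (x.p⁻¹ s))⁻¹ := rfl

instance : Group (Wr G) := Group.ofLeftAxioms
  (fun x y z => Wr.ext (mul_assoc _ _ _) (funext fun s => by simp [mul_assoc]))
  (fun x => Wr.ext (one_mul _) (funext fun s => by simp))
  (fun x => Wr.ext (inv_mul_cancel _) (funext fun s => by simp))

/-- Change of labels. -/
def Wr.map (f : G →* G') : Wr G →* Wr G' :=
  MonoidHom.mk' (fun x => ⟨x.p, fun s => f (x.l s)⟩)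
    fun x y => Wr.ext rfl (funext fun s => by simp)

@[simp] theorem Wr.map_p (f : G →* G') (x : Wr G) : (Wr.map f x).p = x.p := rfl
@[simp] theorem Wr.map_l (f : G →* G') (x : Wr G) (s : Fin 3) : (Wr.map f x).l s = f (x.l s) := rfl

/-- The permutation of the sheets. -/
def Wr.pH : Wr G →* Equiv.Perm (Fin 3) := MonoidHom.mk' Wr.p fun _ _ => rfl

/-- The transposition that fixes the sheet `c`. -/
def tau (c : Fin 3) : Equiv.Perm (Fin 3) := Equiv.swap (c + 1) (c + 2)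

/-- The monodromy at infinity: `0 ↦ 2`, `1 ↦ 0`, `2 ↦ 1`. -/
def cyc : Equiv.Perm (Fin 3) := tau 0 * tau 2

/-- An edge from the sheet `c + 1` to the sheet `c + 2` with the label `g`. -/
def Ed (c : Fin 3) (g : G) : Wr G :=
  ⟨tau c, fun s => if s = c + 1 then g else if s = c + 2 then g⁻¹ else 1⟩

/-- The first two boundary arcs are trivial. -/
def Nm (w : Wr G) : Prop := w.p = cyc ∧ w.l 0 = 1 ∧ w.l 1 = 1

variable {m : ℕ}

/-- Every letter is an edge. -/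
def Sys (ρ : FN m →* Wr G) : Prop := ∀ j, j < m → ∃ c g, ρ (io m j) = Ed c g

/-- The monodromy of a system. -/
def pp (ρ : FN m →* Wr G) : FN m →* Equiv.Perm (Fin 3) := Wr.pH.comp ρ

/-- A universal system with the boundary loop `r`. -/
def XX (r : G) (ρ : FN m →* Wr G) : Prop :=
  Sys ρ ∧ Nm (ρ (bl m 0 m)) ∧ (ρ (bl m 0 m)).l 2 = r ∧
  ∀ ρ' : FN m →* Wr G, Sys ρ' → pp ρ' = pp ρ → Nm (ρ' (bl m 0 m)) →
    ∃! f : G →* G, ∀ x, ρ' x = Wr.map f (ρ x)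

/-- `φ` is the lift of `β` for the system `ρ`. -/
def Lf (ρ : FN m →* Wr G) (β : MulAut (FN m)) (φ : MulAut G) : Prop :=
  ∀ x, ρ (β x) = Wr.map φ.toMonoidHom (ρ x)

/-- The alternating product `x₀ ^ e * x₁ ^ (-e) * ⋯`, with `e = 1` for `true`. -/
def alt : Bool → List G → G
  | _, [] => 1
  | e, x :: t => (cond e x x⁻¹) * alt (!e) t

end Wreath

/-- The product `b_i ⋯ b_(g-1)`. -/
def be (n g i : ℕ) : FN n := ((List.range' i (g - i)).map fun j => io n (2 * j + 1)).prod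

/-- The labels of the standard system, counted from the end. -/
def wl (n g j : ℕ) : FN n :=
  if j = 0 then be n g 0
  else if j % 2 = 1 then io n j * (io n (j - 1))⁻¹ * be n g (j / 2 + 1)
  else (io n (j - 2))⁻¹ * be n g (j / 2)

/-- The standard system. -/
def rho0 (g : ℕ) : FN (2 * g + 1 + 1) →* Wr (FN (2 * g)) :=
  lift fun j => if (j : ℕ) ≤ 2 * g then Ed 0 (wl (2 * g) g (2 * g - j)) else Ed 2 1

/-- The standard system of a window; the letter `0` is the loop around the inner disc. -/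
def rhoW (h : ℕ) : FN (2 * h + 1 + 1) →* Wr (FN (2 * h + 1)) :=
  lift fun j => if (j : ℕ) = 0 then
      ⟨tau 0, ![1, wl (2 * h + 1) h (2 * h), io (2 * h + 1) (2 * h) * (wl (2 * h + 1) h (2 * h))⁻¹]⟩
    else if (j : ℕ) ≤ 2 * h then Ed 0 (wl (2 * h + 1) h (2 * h - j)) else Ed 2 1

/-- The half twist. -/
def IsS (m j : ℕ) (β : MulAut (FN m)) : Prop :=
  β (io m j) = io m j * io m (j + 1) * (io m j)⁻¹ ∧ β (io m (j + 1)) = io m j ∧
    ∀ i, i ≠ j → i ≠ j + 1 → β (io m i) = io m i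

/-- The loop of the point `i` around the points before it. -/
def IsJ (m i : ℕ) (β : MulAut (FN m)) : Prop :=
  (∀ p, p < i → β (io m p) =
    (bl m 0 i * io m i * (bl m 0 i)⁻¹) * io m p * (bl m 0 i * io m i * (bl m 0 i)⁻¹)⁻¹) ∧
  β (io m i) = bl m 0 i * io m i * (bl m 0 i)⁻¹ ∧ ∀ p, i < p → β (io m p) = io m p

/-- The braids of the points `p, …, q - 1`. -/
def Sub (m p q : ℕ) : Subgroup (BL m) :=
  Subgroup.closure {β | ∃ j, p ≤ j ∧ j + 1 < q ∧ j + 1 < m ∧ IsS m j β.1}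

/-- The group of the annulus with the points `i, …, j - 1`. -/
def EA (m i j : ℕ) : Subgroup (FN m) :=
  Subgroup.closure {x | x = bl m 0 i ∨ ∃ p, i ≤ p ∧ p < j ∧ x = io m p}

/-- `β` is supported in the annulus and turns the inner disc along `u`. -/
def Loc0 (m i j : ℕ) (β : MulAut (FN m)) (u : FN m) : Prop :=
  u ∈ EA m i j ∧ (∀ p, p < i → β (io m p) = u * io m p * u⁻¹) ∧
  (∀ p, i ≤ p → p < j → ∃ q w, i ≤ q ∧ q < j ∧ w ∈ EA m i j ∧ β (io m p) = w * io m q * w⁻¹) ∧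
  ∀ p, j ≤ p → β (io m p) = io m p

theorem bl_succ (m : ℕ) {k l : ℕ} (h : k ≤ l) : bl m k (l + 1) = bl m k l * io m l := by
  rw [bl, bl, show l + 1 - k = (l - k) + 1 by omega, List.range'_concat]
  simp [show k + (l - k) = l by omega]

theorem bl_self (m k : ℕ) : bl m k k = 1 := by simp [bl]

theorem bl_conj {m i : ℕ} {G : Type} [Group G] (f f' : FN m →* G) (u : G)
    (h : ∀ p, p < i → f (io m p) = u * f' (io m p) * u⁻¹) :
    f (bl m 0 i) = u * f' (bl m 0 i) * u⁻¹ := by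
  induction i with
  | zero => simp [bl_self]
  | succ i ih =>
    rw [bl_succ m (Nat.zero_le _), map_mul, map_mul, ih fun p hp => h p (by omega), h i (by omega)]
    group

theorem Loc0.ea {m i j : ℕ} {β : MulAut (FN m)} {u : FN m} (h : Loc0 m i j β u) {x : FN m}
    (hx : x ∈ EA m i j) : β x ∈ EA m i j := by
  induction hx using Subgroup.closure_induction with
  | mem x hx =>
    rcases hx with rfl | ⟨p, h1, h2, rfl⟩
    · rw [show β (bl m 0 i) = u * bl m 0 i * u⁻¹ from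
        bl_conj β.toMonoidHom (MonoidHom.id _) u h.2.1]
      exact mul_mem (mul_mem h.1 (Subgroup.subset_closure (Or.inl rfl))) (inv_mem h.1)
    · obtain ⟨q, w, a, b, c, e⟩ := h.2.2.1 p h1 h2
      rw [e]
      exact mul_mem (mul_mem c (Subgroup.subset_closure (Or.inr ⟨q, a, b, rfl⟩))) (inv_mem c)
  | one => simp
  | mul x y _ _ a b => rw [map_mul]; exact mul_mem a b
  | inv x _ a => rw [map_inv]; exact inv_mem a

theorem Loc0.mul {m i j : ℕ} {β γ : MulAut (FN m)} {u v : FN m} (h : Loc0 m i j β u)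
    (h' : Loc0 m i j γ v) : Loc0 m i j (β * γ) (β v * u) := by
  refine ⟨mul_mem (h.ea h'.1) h.1, fun p hp => ?_, fun p a b => ?_, fun p hp => ?_⟩
  · rw [MulAut.mul_apply, h'.2.1 p hp, map_mul, map_mul, map_inv, h.2.1 p hp]
    group
  · obtain ⟨q, w, c, d, e, f⟩ := h'.2.2.1 p a b
    obtain ⟨q', w', c', d', e', f'⟩ := h.2.2.1 q c d
    refine ⟨q', β w * w', c', d', mul_mem (h.ea e) e', ?_⟩
    rw [MulAut.mul_apply, f, map_mul, map_mul, map_inv, f']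
    group
  · rw [MulAut.mul_apply, h'.2.2.2 p hp, h.2.2.2 p hp]

theorem Loc0.one (m i j : ℕ) : Loc0 m i j 1 1 :=
  ⟨one_mem _, fun p _ => by simp, fun p a b => ⟨p, 1, a, b, one_mem _, by simp⟩, fun _ _ => rfl⟩

/-- The braids of the annulus. -/
def Loc (m i j : ℕ) : Subgroup (BL m) where
  carrier := {β | (∃ u, Loc0 m i j β.1 u) ∧ ∃ u, Loc0 m i j β.1⁻¹ u}
  one_mem' := ⟨⟨1, Loc0.one m i j⟩, 1, by simpa using Loc0.one m i j⟩
  mul_mem' := by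
    rintro β γ ⟨⟨u, h1⟩, u', h2⟩ ⟨⟨v, h3⟩, v', h4⟩
    exact ⟨⟨_, h1.mul h3⟩, _, by simpa using h4.mul h2⟩
  inv_mem' := by
    rintro β ⟨h1, h2⟩
    exact ⟨h2, by simpa using h1⟩

/-- The group of the loops of the last point. -/
def FF (N : ℕ) : Subgroup (BL (N + 1)) := Subgroup.closure {β | ∃ k, k ≤ N ∧ β = MM N k}

/-- The monodromy has the type `c`. -/
def Tp {m : ℕ} (π : FN m →* Equiv.Perm (Fin 3)) (c : ℕ → Fin 3) : Prop :=
  ∀ j, j < m → π (io m j) = tau (c j)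

/-- The half twist on types. -/
def Hw (j : ℕ) (c : ℕ → Fin 3) : ℕ → Fin 3 :=
  fun p => if p = j then -c j - c (j + 1) else if p = j + 1 then c j else c p

/-- Reachable by half twists of the places `p, …, q - 1`. -/
def Rch (p q : ℕ) : (ℕ → Fin 3) → (ℕ → Fin 3) → Prop :=
  Relation.ReflTransGen fun c c' => ∃ j, p ≤ j ∧ j + 1 < q ∧ c' = Hw j c

/-- The product of the transpositions. -/
def tp (c : ℕ → Fin 3) (q : ℕ) : Equiv.Perm (Fin 3) := ((List.range q).map fun j => tau (c j)).prod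

/-- The group of the window in the group of the surface with one more handle. -/
def inG (h : ℕ) : FN (2 * h + 1) →* FN (2 * (h + 1)) :=
  lift fun j => if (j : ℕ) < 2 * h then io _ j
    else io _ (2 * h + 1) * (io _ (2 * h))⁻¹ * (io _ (2 * h + 1))⁻¹

/-- The retraction. -/
def reG (h : ℕ) : FN (2 * (h + 1)) →* FN (2 * h + 1) :=
  lift fun j => if (j : ℕ) < 2 * h then io _ j else if (j : ℕ) = 2 * h then (io _ (2 * h))⁻¹ else 1

/-- The action on the group of the window. -/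
def fb {h : ℕ} (ψ : Gam h) : FN (2 * h + 1) →* FN (2 * h + 1) :=
  (reG h).comp (ψ.1.toMonoidHom.comp (inG h))

/-- The path of the inner boundary. -/
def uu {h : ℕ} (ψ : Gam h) : FN (2 * h + 1) := reG h (ψ.1 (io _ (2 * h + 1)))

/-- The path of the inner boundary on the three sheets. -/
def Ub {h : ℕ} (ψ : Gam h) : Wr (FN (2 * h + 1)) :=
  ⟨1, ![1, uu ψ, fb ψ (wl (2 * h + 1) h (2 * h)) * uu ψ * (wl (2 * h + 1) h (2 * h))⁻¹]⟩

/-- The base of the window in the base. -/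
def inB (h m i : ℕ) : FN (2 * h + 1 + 1) →* FN m :=
  lift fun j => if (j : ℕ) = 0 then bl m 0 i else io m (i + j - 1)

/-- The type is standard on the inner disc and on the window. -/
def Std (h i : ℕ) {m : ℕ} (π : FN m →* Equiv.Perm (Fin 3)) : Prop :=
  (∀ p, p < i + 2 * h → π (io m p) = tau 0) ∧ π (io m (i + 2 * h)) = tau 2

/-- Edges. -/
def EdSt : Prop := ∀ (G : Type) [Group G],
  (∀ (w : Wr G) c g, w * Ed c g * w⁻¹ =
    Ed (w.p c) (if w.p (c + 1) = w.p c + 1 then w.l (c + 2) * g * (w.l (c + 1))⁻¹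
      else w.l (c + 1) * g⁻¹ * (w.l (c + 2))⁻¹)) ∧
  (∀ (c : Fin 3) (g : G), (Ed c g)⁻¹ = Ed c g) ∧
  (∀ (c c' : Fin 3) (g g' : G), Ed c g = Ed c' g' → c = c' ∧ g = g') ∧
  (∀ (G' : Type) [Group G'] (f : G →* G') c g, Wr.map f (Ed c g) = Ed c (f g)) ∧
  (∀ L : List G, (L.map (Ed 0)).prod =
    if L.length % 2 = 1 then ⟨tau 0, ![1, alt true L, alt false L]⟩
    else ⟨1, ![1, alt false L, alt true L]⟩) ∧
  ∀ c c' : Fin 3, (tau c = tau c' → c = c') ∧ tau c * tau c' * (tau c)⁻¹ = tau (-c - c') ∧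
    ∀ σ : Equiv.Perm (Fin 3), σ * tau c * σ⁻¹ = tau c → σ = 1 ∨ σ = tau c

/-- Universal systems. -/
def XSt : Prop := ∀ (G : Type) [Group G] (m : ℕ) (r : G) (ρ : FN m →* Wr G), XX r ρ →
  (∀ β : BL m, XX r (ρ.comp β.1.toMonoidHom)) ∧
  (∀ ρ', XX r ρ' → pp ρ' = pp ρ → ∃ φ : MulAut G, φ r = r ∧
    ∀ x, ρ' x = Wr.map φ.toMonoidHom (ρ x)) ∧
  ∀ f f' : G →* G, (∀ x, Wr.map f (ρ x) = Wr.map f' (ρ x)) → f = f'

/-- The labels are a basis. -/
def WlSt : Prop := ∀ (n g : ℕ), 2 * g ≤ n →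
  (alt true ((List.range (2 * g + 1)).map fun p => wl n g (2 * g - p)) = 1 ∧
    alt false ((List.range (2 * g + 1)).map fun p => wl n g (2 * g - p)) = ev n (rW g)) ∧
  ∀ (G : Type) [Group G],
    (∀ (v e : ℕ → G), alt true ((List.range (2 * g + 1)).map fun p => v (2 * g - p)) = 1 →
      ∃ f : FN n →* G, (∀ j, j ≤ 2 * g → f (wl n g j) = v j) ∧
        ∀ j, 2 * g ≤ j → j < n → f (io n j) = e j) ∧
    ∀ f f' : FN n →* G, (∀ j, j ≤ 2 * g → f (wl n g j) = f' (wl n g j)) →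
      (∀ j, 2 * g ≤ j → j < n → f (io n j) = f' (io n j)) → f = f'

/-- The standard system is universal. -/
def UnSt : Prop := ∀ g, XX (ev (2 * g) (rW g)) (rho0 g)

/-- The standard system of the window is universal. -/
def ModSt : Prop := ∀ h,
  Nm (rhoW h (bl _ 0 (2 * h + 1 + 1))) ∧
  (rhoW h (bl _ 0 (2 * h + 1 + 1))).l 2 = io _ (2 * h) * ev (2 * h + 1) (rW h) ∧
  ∀ (G : Type) [Group G],
    (∀ ρ : FN (2 * h + 1 + 1) →* Wr G, (ρ (io _ 0)).p = tau 0 → (ρ (io _ 0)).l 0 = 1 →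
      (∀ j, 1 ≤ j → j ≤ 2 * h → ∃ g, ρ (io _ j) = Ed 0 g) → (∃ g, ρ (io _ (2 * h + 1)) = Ed 2 g) →
      Nm (ρ (bl _ 0 (2 * h + 1 + 1))) → ∃ f : FN (2 * h + 1) →* G, ∀ x, ρ x = Wr.map f (rhoW h x)) ∧
    ∀ f f' : FN (2 * h + 1) →* G, (∀ x, Wr.map f (rhoW h x) = Wr.map f' (rhoW h x)) → f = f'

/-- The twists about the curves `a_i` are lifts of loops of the last point. -/
def TwASt : Prop := ∀ (g i : ℕ) (φ : MulAut (FN (2 * g))), i < g → IsA (2 * g) i φ →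
  Lf (rho0 g) ((MM (2 * g + 1) (2 * g - 1 - 2 * i)).1 ^ 2) φ⁻¹

/-- The other twists are lifts of half twists. -/
def TwBSt : Prop := ∀ (g i : ℕ) (φ : MulAut (FN (2 * g))) (β : MulAut (FN (2 * g + 1 + 1))),
  (i < g → IsB (2 * g) i φ → IsS _ (2 * g - 2 - 2 * i) β → Lf (rho0 g) β φ⁻¹) ∧
  (i + 1 < g → IsC (2 * g) i φ → IsS _ (2 * g - 3 - 2 * i) β → Lf (rho0 g) β φ⁻¹)

/-- Braid relations of twists. -/
def BrdSt : Prop := ∀ (n i : ℕ) (A B C : MulAut (FN n)),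
  (2 * i + 2 ≤ n → IsA n i A → IsB n i B → A * B * A = B * A * B) ∧
  (2 * i + 4 ≤ n → IsC n i C → IsB n i B → C * B * C = B * C * B)

/-- Half twists exist and normalise the group of loops. -/
def SgSt : Prop := (∀ m j, j + 1 < m → ∃ β : BL m, IsS m j β.1) ∧
  ∀ (N j : ℕ) (β : BL (N + 1)), j + 1 < N → IsS (N + 1) j β.1 →
    ∀ γ ∈ FF N, β * γ * β⁻¹ ∈ FF N ∧ β⁻¹ * γ * β ∈ FF N

/-- Local braids. -/
def LcaSt : Prop := ∀ m i j, i ≤ j → j ≤ m →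
  (∀ i' j', i' ≤ i → j ≤ j' → Loc m i j ≤ Loc m i' j') ∧ Sub m i j ≤ Loc m i j ∧
  ∀ β ∈ Loc m i j, ∀ γ, (γ ∈ Sub m 0 i ∨ γ ∈ Sub m j m) → γ * β = β * γ

/-- The loops of the last point are conjugate to local braids. -/
def LcbSt : Prop := ∀ N k, k ≤ N → ∃ η : BL (N + 1),
  (∀ l, k ≤ l → l ≤ N → η⁻¹ * ((MM N 0)⁻¹ * MM N l) * η ∈ Loc (N + 1) k (l + 1)) ∧
  IsJ (N + 1) k (η⁻¹ * ((MM N 0)⁻¹ * MM N k) * η).1

/-- Normal forms of types. -/
def ClSt : Prop :=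
  (∀ p q c c', Rch p q c c' → ∀ x, (x < p ∨ q ≤ x) → c' x = c x) ∧
  (∀ p q c, ∃ c', Rch p q c c' ∧ ∀ x y, p ≤ x → p ≤ y → x + 3 < q → y + 3 < q → c' x = c' y) ∧
  (∀ p q c, ∃ c', Rch p q c c' ∧ ∀ x y, p + 3 ≤ x → p + 3 ≤ y → x < q → y < q → c' x = c' y) ∧
  ∀ q c, 4 ≤ q → q % 2 = 0 → tp c q = cyc →
    ∃ c', Rch 0 q c c' ∧ (∀ x, x + 1 < q → c' x = 0) ∧ c' (q - 1) = 2

/-- Moves of types come from braids. -/
def ReSt : Prop := ∀ (N : ℕ) (π : FN (N + 1) →* Equiv.Perm (Fin 3)) (c : ℕ → Fin 3), Tp π c →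
  (∀ p q c', q ≤ N + 1 → Rch p q c c' →
    ∃ β ∈ Sub (N + 1) p q, Tp (π.comp β.1.toMonoidHom) c') ∧
  ∀ i q d', i % 2 = 1 → i + q ≤ N + 1 → (∀ x, x < i → c x = c 0) →
    Rch 0 (q + 1) (fun x => c (i - 1 + x)) d' →
    ∃ β ∈ Loc (N + 1) i (i + q), Tp (π.comp β.1.toMonoidHom) fun x => d' (x + 1 - i)

/-- Every small annulus lies in a standard window. -/
def NfSt : Prop := ∀ (g h k j : ℕ) (π : FN (2 * g + 1 + 1) →* Equiv.Perm (Fin 3)) (c : ℕ → Fin 3),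
  5 ≤ h → h ≤ g → 1 ≤ k → k ≤ j → j ≤ k + 3 → j ≤ 2 * g + 1 + 1 → Tp π c →
  π (bl _ 0 (2 * g + 1 + 1)) = cyc →
  ∃ (i : ℕ) (γ : BL (2 * g + 1 + 1)), i % 2 = 1 ∧ i + 2 * h + 1 ≤ 2 * g + 1 + 1 ∧
    Std h i (π.comp γ.1.toMonoidHom) ∧
    ∀ β ∈ Loc _ k j, γ⁻¹ * β * γ ∈ Loc _ i (i + 2 * h + 1)

/-- The group of the window. -/
def GamSt : Prop := ∀ h,
  (fb (1 : Gam h) = MonoidHom.id _ ∧ uu (1 : Gam h) = 1) ∧
  (∀ ψ ψ' : Gam h, fb (ψ * ψ') = (fb ψ).comp (fb ψ') ∧ uu (ψ * ψ') = fb ψ (uu ψ') * uu ψ) ∧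
  (∀ ψ : Gam h, fb ψ (io _ (2 * h)) = uu ψ * io _ (2 * h) * (uu ψ)⁻¹ ∧
    fb ψ (io _ (2 * h) * ev (2 * h + 1) (rW h)) = io _ (2 * h) * ev (2 * h + 1) (rW h)) ∧
  ∀ (φ : MulAut (FN (2 * h + 1))) (u : FN (2 * h + 1)), φ (io _ (2 * h)) = u * io _ (2 * h) * u⁻¹ →
    φ (io _ (2 * h) * ev (2 * h + 1) (rW h)) = io _ (2 * h) * ev (2 * h + 1) (rW h) →
    ∃ ψ : Gam h, fb ψ = φ.toMonoidHom ∧ uu ψ = u

/-- The group of the window acts on the surface. -/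
def IotSt : Prop := ∀ (G : Type) [Group G] (h m i : ℕ) (r : G) (ρ : FN m →* Wr G), XX r ρ →
  i % 2 = 1 → i + 2 * h + 1 ≤ m → Std h i (pp ρ) →
  ∃ (k : Wr G) (s : FN (2 * h + 1) →* G) (ι : Gam h →* MulAction.stabilizer (MulAut G) r),
    k.p = 1 ∧ (∀ x, ρ (inB h m i x) = k⁻¹ * Wr.map s (rhoW h x) * k) ∧
    ∀ ψ, (∀ x, (ι ψ).1 (s x) = s (fb ψ x)) ∧ Wr.map (ι ψ).1.toMonoidHom k = k ∧
      (∀ p, p < i → Wr.map (ι ψ).1.toMonoidHom (ρ (io m p)) =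
        (k⁻¹ * Wr.map s (Ub ψ) * k) * ρ (io m p) * (k⁻¹ * Wr.map s (Ub ψ) * k)⁻¹) ∧
      ∀ p, i + 2 * h + 1 ≤ p → Wr.map (ι ψ).1.toMonoidHom (ρ (io m p)) = ρ (io m p)

/-- A local braid that keeps the monodromy gives an element of the group of the window. -/
def LiftSt : Prop := ∀ (h m i : ℕ) (π : FN m →* Equiv.Perm (Fin 3)) (β : BL m) (u : FN m),
  1 ≤ i → i + 2 * h + 1 ≤ m → π.comp (inB h m i) = pp (rhoW h) → β ∈ Loc m i (i + 2 * h + 1) →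
  Loc0 m i (i + 2 * h + 1) β.1 u → π u = 1 → π.comp β.1.toMonoidHom = π →
  ∃ (ψ : Gam h) (b : FN (2 * h + 1 + 1) →* FN (2 * h + 1 + 1)) (v : FN (2 * h + 1 + 1)),
    (∀ x, β.1 (inB h m i x) = inB h m i (b x)) ∧ u = inB h m i v ∧
    (∀ x, rhoW h (b x) = Wr.map (fb ψ) (rhoW h x)) ∧
    (rhoW h v).p = 1 ∧ (rhoW h v).l 1 = (Ub ψ).l 1 ∧ (rhoW h v).l 2 = (Ub ψ).l 2

/-- Windows. -/
def WinSt : Prop := ∀ (G : Type) [Group G] (h m i : ℕ) (r : G) (ρ : FN m →* Wr G), XX r ρ →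
  i % 2 = 1 → i + 2 * h + 1 ≤ m → Std h i (pp ρ) →
  ∃ ι : Gam h →* MulAction.stabilizer (MulAut G) r, ∀ (β : BL m) (u : FN m),
    β ∈ Loc m i (i + 2 * h + 1) → Loc0 m i (i + 2 * h + 1) β.1 u → pp ρ u = 1 →
    (pp ρ).comp β.1.toMonoidHom = pp ρ → ∃ ψ, Lf ρ β.1 (ι ψ).1

/-- The lifts of the braids of a small annulus have a common fixed point. -/
def EllSt : Prop := ∀ (g h k j : ℕ) (G : Type) [Group G] (r : G)
  (ρ : FN (2 * g + 1 + 1) →* Wr G), XX r ρ → 5 ≤ h → h ≤ g → FH (Gam h) →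
  1 ≤ k → k ≤ j → j ≤ k + 3 → j ≤ 2 * g + 1 + 1 →
  ∀ (H : Type) [NormedAddCommGroup H] [InnerProductSpace ℂ H] [CompleteSpace H]
    (α : MulAction.stabilizer (MulAut G) r →* (H ≃ᵃⁱ[ℂ] H)),
    ∃ x, ∀ β ∈ Loc _ k j, ∀ φ : MulAction.stabilizer (MulAut G) r, Lf ρ β.1 φ.1 → α φ x = x

/-- The induced action. -/
def IndSt : Prop := ∀ (B G T : Type) [Group B] [Group G] [Finite T] (act : T → B → T)
  (Φ : T → B → G), (∀ t, act t 1 = t) → (∀ t β γ, act t (β * γ) = act (act t β) γ) →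
  (∀ t β γ, Φ t (β * γ) = Φ t β * Φ (act t β) γ) →
  ∀ (H : Type) [NormedAddCommGroup H] [InnerProductSpace ℂ H] [CompleteSpace H]
    (α : G →* (H ≃ᵃⁱ[ℂ] H)),
    ∃ (H' : Type) (_ : NormedAddCommGroup H') (_ : InnerProductSpace ℂ H') (_ : CompleteSpace H')
      (a : B →* (H' ≃ᵃⁱ[ℂ] H')) (e : T → H' → H),
      (∀ S : Subgroup B, (∀ t, ∃ x, ∀ β ∈ S, act t β = t → α (Φ t β) x = x) →
        ∃ v, ∀ β ∈ S, a β v = v) ∧
      ∀ t β v, act t β = t → ‖α (Φ t β) (e t v) - e t v‖ ≤ ‖a β v - v‖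

/-- Every element of the stabiliser is the lift of a loop of the last point. -/
def NbSt : Prop := ∀ (g : ℕ) (φ : St g), ∃ β ∈ FF (2 * g + 1), Lf (rho0 g) β.1 φ.1

/-- The step. -/
def StepSt : Prop := ∀ g h, 5 ≤ h → h ≤ g → FH (Gam h) → AFP (St g)

end Pool.Agent.MW
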